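import Pool.Agent.H194.Cube.Defs
import Pool.Graph.R_seed8.H48R3.CP.Limit

/-!
# CUBE: `S_super'` from `S_oneD` (tensorization and limit), `S_super` from `S_super'`

The proofs of `tensor`, `main_ineq`, `lower` are copies of those of
`Pool/Graph/R_seed8/H48R3/CP2/Tensor.lean` and `CP2/Limit.lean` with another comparison profile.
-/

set_option autoImplicit false

namespace Pool.Agent.H190.Cube

open Set Filter Topology MeasureTheory Metric
open Pool.Agent.H194.Cube (S_oneD S_super S_super' Jf Iprof Peri)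
open Pool.Agent.H48R3.CP hiding algJ algK algN alg s0 s0_pos s0_le oneD le_h tensor main_ineq lower

/-- a continuous version of the comparison profile -/
noncomputable def Jp (y : ℝ) : ℝ := 1 / 3 * √(y ^ 2 - y * (y * Real.log y))

theorem continuous_Jp : Continuous Jp := by
  unfold Jp
  have h := Real.continuous_mul_log
  exact continuous_const.mul (Real.continuous_sqrt.comp
    ((continuous_id.pow 2).sub (continuous_id.mul h)))

theorem Jp_eq {y : ℝ} (hy : 0 ≤ y) : Jp y = Jf y := by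
  unfold Jp Jf
  have h1 : y ^ 2 - y * (y * Real.log y) = y ^ 2 * (1 - Real.log y) := by ring
  rw [h1, Real.sqrt_mul (sq_nonneg y), Real.sqrt_sq hy]
  ring

theorem Jp_nonneg (y : ℝ) : 0 ≤ Jp y := by
  unfold Jp
  positivity

theorem Jp_zero : Jp 0 = 0 := by simp [Jp]

theorem Jp_one : Jp 1 = 1 / 3 := by simp [Jp]

theorem Jp_le_one {y : ℝ} (h0 : 0 ≤ y) (h1 : y ≤ 1) : Jp y ≤ 1 := by
  unfold Jp
  rcases eq_or_lt_of_le h0 with h | h
  · rw [← h]; simp
  have h2 : 1 - y⁻¹ ≤ Real.log y := Real.one_sub_inv_le_log_of_pos h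
  have h3 : y ^ 2 - y * (y * Real.log y) ≤ 1 := by
    have h4 : y * y * (1 - y⁻¹) ≤ y * y * Real.log y := mul_le_mul_of_nonneg_left h2 (by positivity)
    have h5 : y * y * (1 - y⁻¹) = y * y - y := by
      field_simp
    nlinarith
  have h6 : √(y ^ 2 - y * (y * Real.log y)) ≤ 1 := by
    rw [Real.sqrt_le_left (by norm_num)]
    linarith
  linarith

theorem oneDp (h : S_oneD) (a a' : ℝ → ℝ) (ha : ∀ x, HasDerivAt a (a' x) x) (ha' : Continuous a')
    (h01 : ∀ x, 0 < a x ∧ a x < 1) :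
    Jp (∫ x in (0 : ℝ)..1, a x) ≤ ∫ x in (0 : ℝ)..1, √(Jp (a x) ^ 2 + a' x ^ 2) := by
  have h1 := h a a' ha ha' h01
  have h2 : 0 ≤ ∫ x in (0 : ℝ)..1, a x :=
    intervalIntegral.integral_nonneg (by norm_num) fun x _ => (h01 x).1.le
  rw [Jp_eq h2]
  simp only [Jp_eq (h01 _).1.le]
  exact h1

theorem tensor (oneD : S_oneD) (n : ℕ) : ∀ f : (Fin n → ℝ) → ℝ, ContDiff ℝ 1 f → (∀ x, 0 < f x) →
    (∀ x, f x < 1) → Jp (∫ x in Icc (0 : Fin n → ℝ) 1, f x) ≤
      ∫ x in Icc (0 : Fin n → ℝ) 1, √(Jp (f x) ^ 2 + ∑ i, D f i x ^ 2) := by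
  have hJc := continuous_Jp
  induction n with
  | zero =>
    intro f hf h0 h1
    have e0 : ∀ g : (Fin 0 → ℝ) → ℝ, ∫ x in Icc (0 : Fin 0 → ℝ) 1, g x = g 0 := by
      intro g
      have : ∀ x, g x = g 0 := fun x => by rw [Subsingleton.elim x 0]
      simp_rw [this]
      rw [setIntegral_const, Measure.real, vol_Icc]
      simp
    rw [e0, e0]
    apply Real.le_sqrt_of_sq_le
    simp
  | succ n ih =>
    intro f hf h0 h1
    have hfc := hf.continuous
    have hDc := fun i => continuous_D f hf i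
    have hcs := @continuous_cs n
    have hQc : IsCompact (Icc (0 : Fin n → ℝ) 1) := isCompact_Icc
    -- slices
    set F : ℝ → ℝ := fun t => ∫ x in Icc (0 : Fin n → ℝ) 1, f (cs t x) with hF
    set F' : ℝ → ℝ := fun t => ∫ x in Icc (0 : Fin n → ℝ) 1, D f 0 (cs t x) with hF'
    have hF'c : Continuous F' :=
      continuous_parametric_integral_of_continuous (f := fun t x => D f 0 (cs t x))
        ((hDc 0).comp hcs) hQc
    have hcst : ∀ t, Continuous (fun x : Fin n → ℝ => cs t x) := fun t =>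
      hcs.comp (Continuous.prodMk_right t)
    have hInt : ∀ (g : (Fin n → ℝ) → ℝ), Continuous g → IntegrableOn g (Icc (0 : Fin n → ℝ) 1) :=
      fun g hg => hg.continuousOn.integrableOn_compact hQc
    have hFd : ∀ t, HasDerivAt F (F' t) t := by
      intro t
      obtain ⟨C, hC⟩ := ((isCompact_closedBall t 1).prod hQc).exists_bound_of_continuousOn
        (f := fun p : ℝ × (Fin n → ℝ) => D f 0 (cs p.1 p.2)) ((hDc 0).comp hcs).continuousOn
      refine (hasDerivAt_integral_of_dominated_loc_of_deriv_le (bound := fun _ => C)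
        (s := Metric.closedBall t 1) (F := fun t x => f (cs t x))
        (F' := fun t x => D f 0 (cs t x)) (Metric.closedBall_mem_nhds t one_pos) ?_ ?_ ?_ ?_ ?_ ?_).2
      · exact Eventually.of_forall fun u => (hfc.comp (hcst u)).aestronglyMeasurable
      · exact hInt _ (hfc.comp (hcst t))
      · exact ((hDc 0).comp (hcst t)).aestronglyMeasurable
      · rw [ae_restrict_iff' measurableSet_Icc]
        exact Eventually.of_forall fun x hx u hu => hC (u, x) ⟨hu, hx⟩
      · exact hInt _ continuous_const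
      · exact Eventually.of_forall fun x u _ => hasDerivAt_cs f hf x u
    have hvol : (volume.restrict (Icc (0 : Fin n → ℝ) 1)) univ = 1 := by
      rw [Measure.restrict_apply_univ, vol_Icc]
    have hpos : ∀ g : (Fin n → ℝ) → ℝ, Continuous g → (∀ x, 0 < g x) →
        0 < ∫ x in Icc (0 : Fin n → ℝ) 1, g x := by
      intro g hg hg0
      rw [integral_pos_iff_support_of_nonneg (fun x => (hg0 x).le) (hInt g hg)]
      have : Function.support g = univ := by
        ext x; simpa using (hg0 x).ne'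
      rw [this, hvol]
      norm_num
    have hF0 : ∀ t, 0 < F t := fun t => hpos _ (hfc.comp (hcst t)) fun x => h0 _
    have hF1 : ∀ t, F t < 1 := by
      intro t
      have h2 := hpos (fun x => 1 - f (cs t x)) (continuous_const.sub (hfc.comp (hcst t)))
        (fun x => by linarith [h1 (cs t x)])
      rw [integral_sub (hInt _ continuous_const) (hInt (fun x => f (cs t x)) (hfc.comp (hcst t)))] at h2
      have h3 : (∫ x in Icc (0 : Fin n → ℝ) 1, (1:ℝ)) = 1 := by
        rw [setIntegral_const, Measure.real, vol_Icc]; simp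
      rw [h3] at h2
      show (∫ x in Icc (0 : Fin n → ℝ) 1, f (cs t x)) < 1
      linarith
    rw [fubini_cube f hfc]
    refine (oneDp oneD F F' hFd hF'c (fun t => ⟨hF0 t, hF1 t⟩)).trans ?_
    have hgc : Continuous fun x => √(Jp (f x) ^ 2 + ∑ i, D f i x ^ 2) := by
      fun_prop
    rw [fubini_cube _ hgc]
    apply intervalIntegral.integral_mono_on (by norm_num)
    · apply Continuous.intervalIntegrable
      have : Continuous F := continuous_iff_continuousAt.2 fun x => (hFd x).continuousAt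
      fun_prop
    · apply Continuous.intervalIntegrable
      exact continuous_parametric_integral_of_continuous
        (f := fun t x => √(Jp (f (cs t x)) ^ 2 + ∑ i, D f i (cs t x) ^ 2))
        (hgc.comp hcs) hQc
    intro t _
    -- the slice inequality
    have hih := ih (fun x => f (cs t x)) (contDiff_slice f hf t) (fun x => h0 _) (fun x => h1 _)
    simp only [D_slice f hf t] at hih
    set A : (Fin n → ℝ) → ℝ := fun x => √(Jp (f (cs t x)) ^ 2 + ∑ i : Fin n, D f i.succ (cs t x) ^ 2)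
      with hA
    set B : (Fin n → ℝ) → ℝ := fun x => |D f 0 (cs t x)| with hB
    have hct := hcst t
    have hAc : Continuous A := by
      show Continuous fun x => √(Jp (f (cs t x)) ^ 2 + ∑ i : Fin n, D f i.succ (cs t x) ^ 2)
      fun_prop
    have hBc : Continuous B := by
      show Continuous fun x => |D f 0 (cs t x)|
      fun_prop
    have hABe : ∀ x, √(A x ^ 2 + B x ^ 2) = √(Jp (f (cs t x)) ^ 2 + ∑ i, D f i (cs t x) ^ 2) := by
      intro x
      congr 1
      rw [hA, hB]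
      simp only
      rw [Real.sq_sqrt (by positivity), sq_abs, Fin.sum_univ_succ]
      ring
    have hmk := minkowski (volume.restrict (Icc (0 : Fin n → ℝ) 1)) A B (hInt A hAc) (hInt B hBc)
      (hInt _ (by fun_prop))
    simp only [hABe] at hmk
    refine le_trans ?_ hmk
    apply Real.sqrt_le_sqrt
    have hJ0 := Jp_nonneg (F t)
    have h5 : Jp (F t) ^ 2 ≤ (∫ x in Icc (0 : Fin n → ℝ) 1, A x) ^ 2 :=
      pow_le_pow_left₀ hJ0 hih 2
    have h6 : F' t ^ 2 ≤ (∫ x in Icc (0 : Fin n → ℝ) 1, B x) ^ 2 := by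
      rw [← sq_abs]
      apply pow_le_pow_left₀ (abs_nonneg _)
      exact abs_integral_le_integral_abs
    linarith

variable {d : ℕ}

theorem main_ineq (oneD : S_oneD) (E : Set (Fin d → ℝ)) (hE : MeasurableSet E) (hEU : E ⊆ U d) (δ : ℝ)
    (hδ : 0 < δ) (hδ2 : δ < 1 / 8) :
    (1 - 4 * δ) ^ d * (Jp (∫ x in Icc (0 : Fin d → ℝ) 1, fd E δ hδ x) -
        ∫ x in Icc (0 : Fin d → ℝ) 1, Jp (fd E δ hδ x)) ≤
      ∫ y in Icc (fun _ : Fin d => 2 * δ) (fun _ => 1 - 2 * δ),
          √(∑ i, D (conv (E.indicator (fun _ => (1:ℝ))) (eta d δ hδ)) i y ^ 2) := by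
  have hl : 0 < 1 - 4 * δ := by linarith
  set g := conv (E.indicator (fun _ => (1:ℝ))) (eta d δ hδ) with hg
  have hgd : ContDiff ℝ 1 g := contDiff_conv _ _ (int_ind E hE hEU).locallyIntegrable
    (eta_contDiff δ hδ) (eta_supp δ hδ)
  have hb := g_bounds E hE hEU δ hδ
  rw [← hg] at hb
  set f := fd E δ hδ with hf
  have hfe : ∀ x, f x = δ + (1 - 2 * δ) * g (T d δ x) := fun x => rfl
  have hTd : ContDiff ℝ 1 (T d δ) := by
    unfold T
    fun_prop
  have hfd : ContDiff ℝ 1 f := by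
    have : f = fun x => δ + (1 - 2 * δ) * g (T d δ x) := rfl
    rw [this]
    exact contDiff_const.add (contDiff_const.mul (hgd.comp hTd))
  have hf0 : ∀ x, 0 < f x := fun x => by
    rw [hfe]
    have := mul_nonneg (by linarith : 0 ≤ 1 - 2 * δ) (hb (T d δ x)).1
    linarith
  have hf1 : ∀ x, f x < 1 := fun x => by
    rw [hfe]
    have := mul_le_mul_of_nonneg_left (hb (T d δ x)).2 (by linarith : 0 ≤ 1 - 2 * δ)
    linarith
  have hD : ∀ i x, D f i x = (1 - 2 * δ) * ((1 - 4 * δ) * D g i (T d δ x)) := by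
    intro i x
    have h1 : HasFDerivAt (T d δ) ((1 - 4 * δ) • ContinuousLinearMap.id ℝ (Fin d → ℝ)) x := by
      exact ((hasFDerivAt_id x).const_smul (1 - 4 * δ)).const_add _
    have h2 : HasFDerivAt g (fderiv ℝ g (T d δ x)) (T d δ x) :=
      (hgd.differentiable (by norm_num) _).hasFDerivAt
    have h3 := ((h2.comp x h1).const_mul (1 - 2 * δ)).const_add δ
    have h4 : HasFDerivAt f _ x := h3
    unfold D
    rw [h4.fderiv]
    simp
  have ht := tensor oneD d f hfd hf0 hf1
  have hfc := hfd.continuous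
  have hJc := continuous_Jp
  have hDc : ∀ i, Continuous (D f i) := fun i => continuous_D f hfd i
  have hI : ∀ (w : (Fin d → ℝ) → ℝ), Continuous w → IntegrableOn w (Icc (0 : Fin d → ℝ) 1) :=
    fun w hw => hw.continuousOn.integrableOn_compact isCompact_Icc
  have hle : ∫ x in Icc (0 : Fin d → ℝ) 1, √(Jp (f x) ^ 2 + ∑ i, D f i x ^ 2) ≤
      (∫ x in Icc (0 : Fin d → ℝ) 1, Jp (f x)) +
        ∫ x in Icc (0 : Fin d → ℝ) 1, √(∑ i, D f i x ^ 2) := by
    rw [← integral_add (hI (fun x => Jp (f x)) (by fun_prop)) (hI _ (by fun_prop))]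
    apply integral_mono (hI _ (by fun_prop)) ((hI (fun x => Jp (f x)) (by fun_prop)).add (hI _ (by fun_prop)))
    intro x
    show √(Jp (f x) ^ 2 + ∑ i, D f i x ^ 2) ≤ Jp (f x) + √(∑ i, D f i x ^ 2)
    have hJ0 := Jp_nonneg (f x)
    have hs1 : 0 ≤ ∑ i, D f i x ^ 2 := Finset.sum_nonneg fun i _ => sq_nonneg _
    rw [Real.sqrt_le_left (by positivity)]
    have := Real.sq_sqrt hs1
    have h5 : 0 ≤ Jp (f x) * √(∑ i, D f i x ^ 2) := by positivity
    nlinarith
  have hgrad : ∫ x in Icc (0 : Fin d → ℝ) 1, √(∑ i, D f i x ^ 2) =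
      (1 - 2 * δ) * (1 - 4 * δ) * (((1 - 4 * δ) ^ d)⁻¹ *
        ∫ y in Icc (fun _ : Fin d => 2 * δ) (fun _ => 1 - 2 * δ), √(∑ i, D g i y ^ 2)) := by
    rw [← change_var (fun y => √(∑ i, D g i y ^ 2)) δ hδ hδ2, ← integral_const_mul]
    congr 1
    funext x
    have : ∑ i, D f i x ^ 2 = ((1 - 2 * δ) * (1 - 4 * δ)) ^ 2 * ∑ i, D g i (T d δ x) ^ 2 := by
      rw [Finset.mul_sum]
      congr 1
      funext i
      rw [hD]; ring
    have hp : 0 ≤ (1 - 2 * δ) * (1 - 4 * δ) := mul_nonneg (by linarith) (by linarith)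
    rw [this, Real.sqrt_mul (by positivity), Real.sqrt_sq hp]
  set I := ∫ y in Icc (fun _ : Fin d => 2 * δ) (fun _ => 1 - 2 * δ), √(∑ i, D g i y ^ 2) with hIdef
  have hI0 : 0 ≤ I := integral_nonneg fun x => Real.sqrt_nonneg _
  have hpow : 0 < (1 - 4 * δ) ^ d := by positivity
  have h6 : (1 - 2 * δ) * (1 - 4 * δ) ≤ 1 := by nlinarith
  have h7 : (1 - 2 * δ) * (1 - 4 * δ) * (((1 - 4 * δ) ^ d)⁻¹ * I) ≤ ((1 - 4 * δ) ^ d)⁻¹ * I := by
    have : 0 ≤ ((1 - 4 * δ) ^ d)⁻¹ * I := by positivity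
    nlinarith
  have h8 : Jp (∫ x in Icc (0 : Fin d → ℝ) 1, f x) - ∫ x in Icc (0 : Fin d → ℝ) 1, Jp (f x) ≤
      ((1 - 4 * δ) ^ d)⁻¹ * I := by linarith
  calc _ ≤ (1 - 4 * δ) ^ d * (((1 - 4 * δ) ^ d)⁻¹ * I) := mul_le_mul_of_nonneg_left h8 hpow.le
    _ = I := by field_simp

theorem lower (oneD : S_oneD) (E : Set (Fin d → ℝ)) (hE : MeasurableSet E) (hEU : E ⊆ U d) (t : ℝ)
    (ht : volume E = ENNReal.ofReal t) (ht00 : 0 ≤ t) (r : ℝ) (hr : r < Jp t - t / 3) :
    ∃ φ : (Fin d → ℝ) → (Fin d → ℝ),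
      ContDiff ℝ 1 φ ∧ HasCompactSupport φ ∧ tsupport φ ⊆ U d ∧
      (∀ x, ∑ i, (φ x i) ^ 2 ≤ 1) ∧
      r < ∫ x in E, (∑ i, fderiv ℝ (fun y => φ y i) x (Pi.single i (1 : ℝ) : Fin d → ℝ)) := by
  set u : (Fin d → ℝ) → ℝ := E.indicator (fun _ => (1:ℝ)) with hu
  set μ := (volume : Measure (Fin d → ℝ)).restrict (Icc (0 : Fin d → ℝ) 1) with hμ
  have : IsFiniteMeasure μ := ⟨by rw [hμ, Measure.restrict_apply_univ, vol_Icc]; exact ENNReal.one_lt_top⟩
  have hlim := ae_lim E hE hEU
  have hJc := continuous_Jp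
  have hfc : ∀ n, Continuous (fd E (dl n) (dl_pos n)) := by
    intro n
    have hgd := contDiff_conv _ _ (int_ind E hE hEU).locallyIntegrable
      (eta_contDiff (dl n) (dl_pos n)) (eta_supp (dl n) (dl_pos n))
    have hgc := hgd.continuous
    have hT : Continuous (T d (dl n)) := by
      unfold T
      fun_prop
    unfold fd
    exact continuous_const.add (continuous_const.mul (hgc.comp hT))
  have hf01 : ∀ n x, 0 ≤ fd E (dl n) (dl_pos n) x ∧ fd E (dl n) (dl_pos n) x ≤ 1 := by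
    intro n x
    have hb := g_bounds E hE hEU (dl n) (dl_pos n) (T d (dl n) x)
    have h1 := dl_pos n
    have h2 := dl_lt n
    have h3 := mul_nonneg (by linarith : 0 ≤ 1 - 2 * dl n) hb.1
    have h4 := mul_le_mul_of_nonneg_left hb.2 (by linarith : 0 ≤ 1 - 2 * dl n)
    unfold fd
    constructor <;> linarith
  have hlim1 : Tendsto (fun n => ∫ x, fd E (dl n) (dl_pos n) x ∂μ) atTop (𝓝 (∫ x, u x ∂μ)) := by
    apply tendsto_integral_of_dominated_convergence (fun _ => (1:ℝ))
    · exact fun n => (hfc n).aestronglyMeasurable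
    · exact integrable_const _
    · intro n
      refine Eventually.of_forall fun x => ?_
      rw [Real.norm_eq_abs, abs_of_nonneg (hf01 n x).1]
      exact (hf01 n x).2
    · exact hlim
  have hlim2 : Tendsto (fun n => ∫ x, Jp (fd E (dl n) (dl_pos n) x) ∂μ) atTop
      (𝓝 (∫ x, Jp (u x) ∂μ)) := by
    apply tendsto_integral_of_dominated_convergence (fun _ => (1:ℝ))
    · exact fun n => (hJc.comp (hfc n)).aestronglyMeasurable
    · exact integrable_const _
    · intro n
      refine Eventually.of_forall fun x => ?_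
      rw [Real.norm_eq_abs, abs_of_nonneg (Jp_nonneg _)]
      exact Jp_le_one (hf01 n x).1 (hf01 n x).2
    · filter_upwards [hlim] with x hx
      exact (hJc.tendsto _).comp hx
  have hu1 : ∫ x, u x ∂μ = t := by
    rw [hu, integral_indicator hE, hμ, Measure.restrict_restrict hE,
      inter_eq_self_of_subset_left (hEU.trans U_sub), setIntegral_const, Measure.real, ht,
      ENNReal.toReal_ofReal ht00]
    simp
  have hu2 : ∫ x, Jp (u x) ∂μ = t / 3 := by
    have : ∀ x, Jp (u x) = u x / 3 := by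
      intro x
      by_cases hx : x ∈ E
      · simp only [hu, indicator_of_mem hx]
        exact Jp_one
      · simp only [hu, indicator_of_notMem hx]
        rw [Jp_zero, zero_div]
    simp only [this]
    rw [integral_div, hu1]
  rw [hu1] at hlim1
  rw [hu2] at hlim2
  have hlim3 : Tendsto (fun n => (1 - 4 * dl n) ^ d * (Jp (∫ x, fd E (dl n) (dl_pos n) x ∂μ) -
        ∫ x, Jp (fd E (dl n) (dl_pos n) x) ∂μ)) atTop (𝓝 ((1 - 4 * 0) ^ d * (Jp t - t / 3))) := by
    apply Tendsto.mul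
    · exact (tendsto_const_nhds.sub (dl_tendsto.const_mul 4)).pow d
    · exact ((hJc.tendsto t).comp hlim1).sub hlim2
  simp only [mul_zero, sub_zero, one_pow, one_mul] at hlim3
  obtain ⟨n, hn⟩ := (hlim3.eventually (lt_mem_nhds hr)).exists
  obtain ⟨φ, h1, h2, h3, h4, h5⟩ := testfield E hE hEU (dl n) (dl_pos n) (dl_lt n)
  refine ⟨φ, h1, h2, h3, h4, ?_⟩
  rw [h5]
  exact lt_of_lt_of_le hn (main_ineq oneD E hE hEU (dl n) (dl_pos n) (dl_lt n))


theorem super'_of (h : S_oneD) : S_super' := by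
  intro d b _ hb0 hb1
  unfold Iprof
  refine le_iInf fun E => le_iInf fun hE => le_iInf fun hEU => le_iInf fun hvol => ?_
  by_contra hcon
  push Not at hcon
  have hval : 1 / 3 * b * (√(1 - Real.log b) - 1) = Jp b - b / 3 := by
    rw [Jp_eq hb0.le]
    unfold Jf
    ring
  rw [hval] at hcon
  have hPtop : Peri d E ≠ ⊤ := ne_top_of_lt hcon
  obtain ⟨r, hr1, hr2⟩ : ∃ r : ℝ, (Peri d E).toReal < r ∧ r < Jp b - b / 3 := by
    apply exists_between
    rw [← ENNReal.ofReal_lt_ofReal_iff_of_nonneg ENNReal.toReal_nonneg,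
      ENNReal.ofReal_toReal hPtop]
    exact hcon
  obtain ⟨φ, h1, h2, h3, h4, h5⟩ := lower h E hE hEU b hvol hb0.le r hr2
  have h6 : ∀ x, ∑ i, fderiv ℝ (fun y => φ y i) x (Pi.single i (1 : ℝ) : Fin d → ℝ) =
      ∑ i, fderiv ℝ φ x (Pi.single i 1) i := by
    intro x
    refine Finset.sum_congr rfl fun i _ => ?_
    rw [fderiv_apply (h1.differentiable (by norm_num) x) i]
    rfl
  simp only [h6] at h5
  have h7 : ENNReal.ofReal (∫ x in E, ∑ i, fderiv ℝ φ x (Pi.single i 1) i) ≤ Peri d E := by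
    unfold Peri
    exact le_iSup_of_le φ (le_iSup_of_le h1 (le_iSup_of_le h2 (le_iSup_of_le h3
      (le_iSup_of_le h4 le_rfl))))
  have h8 : ENNReal.ofReal r ≤ Peri d E := (ENNReal.ofReal_le_ofReal h5.le).trans h7
  have h9 : r ≤ (Peri d E).toReal := by
    rw [← ENNReal.ofReal_le_ofReal_iff ENNReal.toReal_nonneg, ENNReal.ofReal_toReal hPtop]
    exact h8
  linarith

theorem super_of (h : S_super') : S_super := by
  intro K
  set s : ℝ := 3 * |K| + 3 with hs
  have hs3 : 3 ≤ s := by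
    have := abs_nonneg K
    linarith
  have hs9 : 9 ≤ s ^ 2 := by nlinarith
  have hb1 : Real.exp (1 - s ^ 2) < 1 / 2 := by
    have h1 : Real.exp (1 - s ^ 2) ≤ Real.exp (-1) := Real.exp_le_exp.2 (by linarith)
    have h2 : Real.exp (-1) < 1 / 2 := by
      rw [Real.exp_neg, inv_lt_comm₀ (Real.exp_pos _) (by norm_num)]
      have := Real.exp_one_gt_d9
      norm_num
      linarith
    linarith
  refine ⟨Real.exp (1 - s ^ 2), Real.exp_pos _, hb1, fun d hd => ?_⟩
  refine le_trans ?_ (h d (Real.exp (1 - s ^ 2)) hd (Real.exp_pos _) (by linarith))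
  apply ENNReal.ofReal_le_ofReal
  rw [Real.log_exp]
  have h1 : √(1 - (1 - s ^ 2)) = s := by
    rw [sub_sub_cancel, Real.sqrt_sq (by linarith)]
  rw [h1, hs]
  have h2 := Real.exp_pos (1 - s ^ 2)
  rw [← hs]
  have h3 := le_abs_self K
  nlinarith

theorem super (h : S_oneD) : S_super := super_of (super'_of h)

end Pool.Agent.H190.Cube
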