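import Pool.Agent.H316.EM.Stm2

/-!
# CHAIN of project EM (helper316): a chain with cyclic factors from `β B` to `L β B`
-/

set_option autoImplicit false

namespace Pool.Agent.H190

open Pool.Agent.H316.EM

namespace EMC

variable {Γ : Type} [Group Γ]

/-- ascending chain condition for the subgroups of `L` -/
theorem wf (L : Subgroup Γ) (hfg : L.FG) (hc : ∀ x ∈ L, ∀ y ∈ L, x * y = y * x) :
    WellFoundedGT (Subgroup L) := by
  let _ : CommGroup L := { (inferInstance : Group L) with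
    mul_comm := fun x y => Subtype.ext (hc x x.2 y y.2) }
  have : Group.FG L := (Group.fg_iff_subgroup_fg L).2 hfg
  have : AddGroup.FG (Additive L) := inferInstance
  have : Module.Finite ℤ (Additive L) := Module.Finite.iff_addGroup_fg.2 inferInstance
  have : IsNoetherian ℤ (Additive L) := inferInstance
  let f : Subgroup L ≃o Submodule ℤ (Additive L) :=
    (Subgroup.toAddSubgroup : Subgroup L ≃o AddSubgroup (Additive L)).trans
      (AddSubgroup.toIntSubmodule : AddSubgroup (Additive L) ≃o Submodule ℤ (Additive L))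
  exact f.toOrderEmbedding.wellFoundedGT

/-- iterating a map until the result is in `Λ` -/
theorem iter {f : Γ → Γ} (Λ : Subgroup Γ) (P : Γ → Prop) (hP : ∀ x, P x → P (f x)) (c : ℕ) :
    ∀ l, P l → l ∉ Λ → f^[c] l ∈ Λ → ∃ x, P x ∧ x ∉ Λ ∧ f x ∈ Λ := by
  induction c with
  | zero => intro l _ h1 h2; exact absurd h2 h1
  | succ c ih =>
    intro l hl h1 h2
    by_cases h3 : f l ∈ Λ
    · exact ⟨l, hl, h1, h3⟩
    · exact ih (f l) (hP l hl) h3 (by rwa [Function.iterate_succ_apply] at h2)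

theorem exists_fixed {L : Subgroup Γ} (hc : ∀ x ∈ L, ∀ y ∈ L, x * y = y * x) {β : B →* Γ}
    (hβ : ∀ b, ∀ l ∈ L, β b * l * (β b)⁻¹ ∈ L) {c : ℕ}
    (hu : ∀ b, ∀ l ∈ L, (fun x => β b * x * (β b)⁻¹ * x⁻¹)^[c] l = 1) {Λ : Subgroup Γ}
    (hΛ : Λ ≤ L) (hne : Λ ≠ L) (hn : ∀ b, ∀ x ∈ Λ, β b * x * (β b)⁻¹ ∈ Λ) :
    ∃ l ∈ L, l ∉ Λ ∧ ∀ b, β b * l * (β b)⁻¹ * l⁻¹ ∈ Λ := by
  obtain ⟨l₀, hl₀, hl₀'⟩ : ∃ l ∈ L, l ∉ Λ := by
    by_contra hcon
    push Not at hcon
    exact hne (le_antisymm hΛ hcon)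
  obtain ⟨l₁, h1, h2, h3⟩ := iter (f := fun x => β (Multiplicative.ofAdd (1, 0)) * x *
    (β (Multiplicative.ofAdd (1, 0)))⁻¹ * x⁻¹) Λ (fun x => x ∈ L)
    (fun x hx => L.mul_mem (hβ _ x hx) (L.inv_mem hx)) c l₀ hl₀ hl₀'
    (by rw [hu _ l₀ hl₀]; exact Λ.one_mem)
  obtain ⟨l, ⟨h4, h4'⟩, h5, h6⟩ := iter (f := fun x => β (Multiplicative.ofAdd (0, 1)) * x *
    (β (Multiplicative.ofAdd (0, 1)))⁻¹ * x⁻¹) Λ (fun x => x ∈ L ∧
      β (Multiplicative.ofAdd (1, 0)) * x * (β (Multiplicative.ofAdd (1, 0)))⁻¹ * x⁻¹ ∈ Λ)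
    (fun x hx => by
      refine ⟨L.mul_mem (hβ _ x hx.1) (L.inv_mem hx.1), ?_⟩
      have hxm := hx.2
      have huv : β (Multiplicative.ofAdd (1, 0)) * β (Multiplicative.ofAdd (0, 1)) =
          β (Multiplicative.ofAdd (0, 1)) * β (Multiplicative.ofAdd (1, 0)) :=
        (map_mul β _ _).symm.trans ((congrArg β (mul_comm _ _)).trans (map_mul β _ _))
      set u := β (Multiplicative.ofAdd (1, 0)) with hu'
      set v := β (Multiplicative.ofAdd (0, 1)) with hv'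
      set m := u * x * u⁻¹ * x⁻¹ with hm
      have hmx : u * x * u⁻¹ = m * x := by rw [hm]; group
      have hmL : m ∈ L := hΛ hxm
      have hX : v * x * v⁻¹ ∈ L := hβ _ x hx.1
      have e1 : u * (v * x * v⁻¹ * x⁻¹) * u⁻¹ = (v * (u * x * u⁻¹) * v⁻¹) * (u * x * u⁻¹)⁻¹ := by
        calc u * (v * x * v⁻¹ * x⁻¹) * u⁻¹
            = (u * v) * x * (u * v)⁻¹ * u * x⁻¹ * u⁻¹ := by group
          _ = (v * u) * x * (v * u)⁻¹ * u * x⁻¹ * u⁻¹ := by rw [huv]
          _ = _ := by group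
      have e2 : u * (v * x * v⁻¹ * x⁻¹) * u⁻¹ * (v * x * v⁻¹ * x⁻¹)⁻¹ =
          (v * m * v⁻¹) * m⁻¹ := by
        rw [e1, hmx]
        have c1 : m⁻¹ * x = x * m⁻¹ := hc _ (L.inv_mem hmL) _ hx.1
        have c2 : m⁻¹ * (v * x * v⁻¹)⁻¹ = (v * x * v⁻¹)⁻¹ * m⁻¹ :=
          hc _ (L.inv_mem hmL) _ (L.inv_mem hX)
        calc v * (m * x) * v⁻¹ * (m * x)⁻¹ * (v * x * v⁻¹ * x⁻¹)⁻¹
            = (v * m * v⁻¹) * (v * x * v⁻¹) * x⁻¹ * (m⁻¹ * x) * (v * x * v⁻¹)⁻¹ := by group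
          _ = (v * m * v⁻¹) * (v * x * v⁻¹) * (m⁻¹ * (v * x * v⁻¹)⁻¹) := by rw [c1]; group
          _ = (v * m * v⁻¹) * m⁻¹ := by rw [c2]; group
      show u * (v * x * v⁻¹ * x⁻¹) * u⁻¹ * (v * x * v⁻¹ * x⁻¹)⁻¹ ∈ Λ
      rw [e2]
      exact Λ.mul_mem (hn _ m hxm) (Λ.inv_mem hxm)) c l₁ ⟨h1, h3⟩ h2
    (by rw [hu _ l₁ h1]; exact Λ.one_mem)
  refine ⟨l, h4, h5, ?_⟩
  let S : Subgroup B :=
    { carrier := {b | β b * l * (β b)⁻¹ * l⁻¹ ∈ Λ}
      one_mem' := by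
        show β 1 * l * (β 1)⁻¹ * l⁻¹ ∈ Λ
        rw [map_one]
        simp
      mul_mem' := by
        intro a b ha hb
        show β (a * b) * l * (β (a * b))⁻¹ * l⁻¹ ∈ Λ
        have e : β (a * b) * l * (β (a * b))⁻¹ * l⁻¹ =
            (β a * (β b * l * (β b)⁻¹ * l⁻¹) * (β a)⁻¹) * (β a * l * (β a)⁻¹ * l⁻¹) := by
          rw [map_mul]; group
        rw [e]
        exact Λ.mul_mem (hn a _ hb) ha
      inv_mem' := by
        intro a ha
        show β a⁻¹ * l * (β a⁻¹)⁻¹ * l⁻¹ ∈ Λ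
        have e : β a⁻¹ * l * (β a⁻¹)⁻¹ * l⁻¹ =
            β a⁻¹ * (β a * l * (β a)⁻¹ * l⁻¹)⁻¹ * (β a⁻¹)⁻¹ := by
          rw [map_inv]; group
        rw [e]
        exact hn a⁻¹ _ (Λ.inv_mem ha) }
  intro b
  have hb : b ∈ S := by
    have e : b = Multiplicative.ofAdd ((1 : ℤ), (0 : ℤ)) ^ (Multiplicative.toAdd b).1 *
        Multiplicative.ofAdd ((0 : ℤ), (1 : ℤ)) ^ (Multiplicative.toAdd b).2 := by
      apply Multiplicative.toAdd.injective
      rw [toAdd_mul, toAdd_zpow, toAdd_zpow]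
      ext <;> simp
    rw [e]
    exact S.mul_mem (S.zpow_mem h4' _) (S.zpow_mem h6 _)
  exact hb

/-- one step of the chain -/
theorem step {L : Subgroup Γ} (hc : ∀ x ∈ L, ∀ y ∈ L, x * y = y * x) {β : B →* Γ}
    {Λ : Subgroup Γ} (hΛ : Λ ≤ L) {l : Γ} (hl : l ∈ L)
    (hd : ∀ b, β b * l * (β b)⁻¹ * l⁻¹ ∈ Λ) (hch : Chn β.range (Λ ⊔ β.range)) :
    Chn β.range ((Λ ⊔ Subgroup.zpowers l) ⊔ β.range) := by
  set R := Λ ⊔ β.range with hR
  have hlN : l ∈ Subgroup.normalizer R := by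
    have hΛl : ∀ x ∈ Λ, l * x * l⁻¹ = x := by
      intro x hx
      rw [hc l hl x (hΛ hx)]
      group
    have hΛl' : ∀ x ∈ Λ, l⁻¹ * x * l = x := by
      intro x hx
      rw [hc l⁻¹ (L.inv_mem hl) x (hΛ hx)]
      group
    have h1 : R ≤ R.comap (MulAut.conj l).toMonoidHom := by
      rw [hR]
      refine sup_le ?_ ?_
      · intro x hx
        show l * x * l⁻¹ ∈ Λ ⊔ β.range
        rw [hΛl x hx]
        exact Subgroup.mem_sup_left hx
      · rintro _ ⟨b, rfl⟩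
        show l * β b * l⁻¹ ∈ Λ ⊔ β.range
        have e : l * β b * l⁻¹ = β b * (β b⁻¹ * l * (β b⁻¹)⁻¹ * l⁻¹) := by
          rw [map_inv]; group
        rw [e]
        exact Subgroup.mul_mem _ (Subgroup.mem_sup_right ⟨b, rfl⟩)
          (Subgroup.mem_sup_left (hd _))
    have h2 : R ≤ R.comap (MulAut.conj l⁻¹).toMonoidHom := by
      rw [hR]
      refine sup_le ?_ ?_
      · intro x hx
        show l⁻¹ * x * l⁻¹⁻¹ ∈ Λ ⊔ β.range
        rw [inv_inv, hΛl' x hx]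
        exact Subgroup.mem_sup_left hx
      · rintro _ ⟨b, rfl⟩
        show l⁻¹ * β b * l⁻¹⁻¹ ∈ Λ ⊔ β.range
        have e : l⁻¹ * β b * l⁻¹⁻¹ =
            β b * (l⁻¹ * (β b⁻¹ * l * (β b⁻¹)⁻¹ * l⁻¹)⁻¹ * l) := by
          rw [map_inv]; group
        rw [e, hΛl' _ (Λ.inv_mem (hd _))]
        exact Subgroup.mul_mem _ (Subgroup.mem_sup_right ⟨b, rfl⟩)
          (Subgroup.mem_sup_left (Λ.inv_mem (hd _)))
    rw [Subgroup.mem_normalizer_iff]
    intro x
    constructor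
    · intro hx
      exact h1 hx
    · intro hx
      have h3 : l⁻¹ * (l * x * l⁻¹) * l⁻¹⁻¹ ∈ R := h2 hx
      have e : l⁻¹ * (l * x * l⁻¹) * l⁻¹⁻¹ = x := by group
      rwa [e] at h3
  have hRK : R ≤ (Λ ⊔ Subgroup.zpowers l) ⊔ β.range :=
    sup_le (le_sup_left.trans le_sup_left) le_sup_right
  have hlK : l ∈ (Λ ⊔ Subgroup.zpowers l) ⊔ β.range :=
    Subgroup.mem_sup_left (Subgroup.mem_sup_right (Subgroup.mem_zpowers l))
  refine Chn.step R _ l hch hRK hlK (fun x => Subgroup.mem_normalizer_iff.1 hlN x) ?_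
  -- the union of the cosets `l ^ k R` is a subgroup
  have hconj : ∀ (j : ℤ) (r : Γ), r ∈ R → l ^ (-j) * r * l ^ j ∈ R := by
    intro j r hr
    have h := (Subgroup.mem_normalizer_iff.1 (Subgroup.zpow_mem _ hlN (-j)) r).1 hr
    rwa [← zpow_neg, neg_neg] at h
  let S : Subgroup Γ :=
    { carrier := {x | ∃ k : ℤ, l ^ (-k) * x ∈ R}
      one_mem' := ⟨0, by simp⟩
      mul_mem' := by
        rintro x y ⟨k, hk⟩ ⟨j, hj⟩
        refine ⟨k + j, ?_⟩
        have e : l ^ (-(k + j)) * (x * y) =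
            (l ^ (-j) * (l ^ (-k) * x) * l ^ j) * (l ^ (-j) * y) := by
          rw [neg_add, add_comm, zpow_add, zpow_neg, zpow_neg]; group
        rw [e]
        exact R.mul_mem (hconj j _ hk) hj
      inv_mem' := by
        rintro x ⟨k, hk⟩
        refine ⟨-k, ?_⟩
        have e : l ^ (- -k) * x⁻¹ = l ^ (-(-k)) * (l ^ (-k) * x)⁻¹ * l ^ (-k) := by
          group
        rw [e]
        exact hconj (-k) _ (R.inv_mem hk) }
  have hKS : (Λ ⊔ Subgroup.zpowers l) ⊔ β.range ≤ S := by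
    refine sup_le (sup_le ?_ ?_) ?_
    · intro x hx
      exact ⟨0, by
        rw [neg_zero, zpow_zero, one_mul]
        exact Subgroup.mem_sup_left hx⟩
    · rw [Subgroup.zpowers_le]
      exact ⟨1, by simp⟩
    · intro x hx
      exact ⟨0, by
        rw [neg_zero, zpow_zero, one_mul]
        exact Subgroup.mem_sup_right hx⟩
  exact fun x hx => hKS hx

end EMC

open EMC in
theorem em_chain : S_CHAIN := by
  intro Γ _ L hfg hc β hβ c hu
  have hwf := wf L hfg hc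
  have key : ∀ Λ₀ : Subgroup L, ∀ Λ : Subgroup Γ, Λ ≤ L → Λ.subgroupOf L = Λ₀ →
      (∀ b, ∀ x ∈ Λ, β b * x * (β b)⁻¹ ∈ Λ) → Chn β.range (Λ ⊔ β.range) →
      Chn β.range (L ⊔ β.range) := by
    intro Λ₀
    induction Λ₀ using hwf.wf.induction with
    | _ Λ₀ ih =>
      intro Λ hΛ he hn hch
      by_cases hne : Λ = L
      · rwa [hne] at hch
      · obtain ⟨l, hl, hlΛ, hd⟩ := exists_fixed hc hβ hu hΛ hne hn
        have hle : Λ ⊔ Subgroup.zpowers l ≤ L := sup_le hΛ ((Subgroup.zpowers_le).2 hl)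
        refine ih ((Λ ⊔ Subgroup.zpowers l).subgroupOf L) ?_ (Λ ⊔ Subgroup.zpowers l) hle rfl
          ?_ (step hc hΛ hl hd hch)
        · show Λ₀ < _
          rw [← he]
          refine lt_of_le_of_ne (Subgroup.comap_mono le_sup_left) fun h => hlΛ ?_
          have h1 : (⟨l, hl⟩ : L) ∈ (Λ ⊔ Subgroup.zpowers l).subgroupOf L :=
            Subgroup.mem_subgroupOf.2 (Subgroup.mem_sup_right (Subgroup.mem_zpowers l))
          rw [← h] at h1
          exact Subgroup.mem_subgroupOf.1 h1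
        · intro b
          have h1 : Λ ⊔ Subgroup.zpowers l ≤
              (Λ ⊔ Subgroup.zpowers l).comap (MulAut.conj (β b)).toMonoidHom := by
            refine sup_le ?_ ?_
            · intro x hx
              exact Subgroup.mem_sup_left (hn b x hx)
            · rw [Subgroup.zpowers_le]
              show β b * l * (β b)⁻¹ ∈ Λ ⊔ Subgroup.zpowers l
              have e : β b * l * (β b)⁻¹ = (β b * l * (β b)⁻¹ * l⁻¹) * l := by group
              rw [e]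
              exact Subgroup.mul_mem _ (Subgroup.mem_sup_left (hd b))
                (Subgroup.mem_sup_right (Subgroup.mem_zpowers l))
          exact fun x hx => h1 hx
  refine key _ ⊥ bot_le rfl ?_ ?_
  · intro b x hx
    rw [Subgroup.mem_bot] at hx ⊢
    rw [hx]
    group
  · rw [bot_sup_eq]
    exact Chn.base

end Pool.Agent.H190
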