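import Pool.Agent.H867.FT.Gen2

/-!
# Task FTQ VAT (helper190, for helper867): the weighted order valuation of `k[[X]]`

The generic part is adapted from `Pool.Agent.H670.FT867VAL` (helper670) and
`Pool.Agent.H922.FT867TV` (helper922); the division with remainder of a power series by the
variables is that of `Pool.Agent.H707.FT867PSG` (helper707).
-/

set_option autoImplicit false
set_option linter.all false

namespace Pool.Agent.H190.FT867VAT

open IsLocalRing Pool.Agent.H867.FT

/-! ## The valuation ring of a filtration -/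

section

variable {P : Type} [CommRing P] [IsDomain P]

/-- an order function for a filtration -/
structure Ord (P : Type) [CommRing P] [IsDomain P] where
  I : ℕ → Ideal P
  o : P → ℕ
  mem : ∀ g : P, g ≠ 0 → ∀ k, g ∈ I k ↔ k ≤ o g
  mul : ∀ a b : P, a ≠ 0 → b ≠ 0 → o (a * b) = o a + o b

variable {L : Type} [Field L] [Algebra P L] [IsFractionRing P L] (w : Ord P)

theorem Ord.mul_mem {k l : ℕ} {a b : P} (ha : a ∈ w.I k) (hb : b ∈ w.I l) :
    a * b ∈ w.I (k + l) := by
  rcases eq_or_ne a 0 with h | h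
  · rw [h, zero_mul]; exact Ideal.zero_mem _
  rcases eq_or_ne b 0 with h' | h'
  · rw [h', mul_zero]; exact Ideal.zero_mem _
  rw [w.mem _ (mul_ne_zero h h'), w.mul a b h h']
  rw [w.mem _ h] at ha
  rw [w.mem _ h'] at hb
  omega

theorem am_ne {s : P} (hs : s ≠ 0) : algebraMap P L s ≠ 0 := fun h =>
  hs ((IsFractionRing.injective P L) (by rw [h, map_zero]))

/-- the valuation ring -/
def V (L : Type) [Field L] [Algebra P L] [IsFractionRing P L] (w : Ord P) : Subring L where
  carrier := {x | ∃ a s : P, s ≠ 0 ∧ x * algebraMap P L s = algebraMap P L a ∧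
    a ∈ w.I (w.o s)}
  mul_mem' := by
    rintro x y ⟨a, s, hs, hx, ha⟩ ⟨b, t, ht, hy, hb⟩
    refine ⟨a * b, s * t, mul_ne_zero hs ht, ?_, ?_⟩
    · rw [map_mul, map_mul, ← hx, ← hy]; ring
    · rw [w.mul s t hs ht]
      exact w.mul_mem ha hb
  one_mem' := by
    refine ⟨1, 1, one_ne_zero, by simp, ?_⟩
    rw [w.mem 1 one_ne_zero]
  add_mem' := by
    rintro x y ⟨a, s, hs, hx, ha⟩ ⟨b, t, ht, hy, hb⟩
    refine ⟨a * t + s * b, s * t, mul_ne_zero hs ht, ?_, ?_⟩
    · rw [map_add, map_mul, map_mul, map_mul, ← hx, ← hy]; ring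
    · rw [w.mul s t hs ht]
      exact Ideal.add_mem _ (w.mul_mem ha ((w.mem t ht _).mpr le_rfl))
        (w.mul_mem ((w.mem s hs _).mpr le_rfl) hb)
  zero_mem' := ⟨0, 1, one_ne_zero, by simp, Ideal.zero_mem _⟩
  neg_mem' := by
    rintro x ⟨a, s, hs, hx, ha⟩
    refine ⟨-a, s, hs, ?_, neg_mem ha⟩
    rw [map_neg, ← hx]; ring

/-- the condition does not depend on the fraction -/
theorem mem_V_iff {x : L} {a s : P} (hs : s ≠ 0) (hx : x * algebraMap P L s = algebraMap P L a) :
    x ∈ V L w ↔ a ∈ w.I (w.o s) := by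
  constructor
  · rintro ⟨b, t, ht, hy, hb⟩
    rcases eq_or_ne a 0 with ha | ha
    · rw [ha]; exact Ideal.zero_mem _
    · have h1 : a * t = b * s := by
        apply IsFractionRing.injective P L
        rw [map_mul, map_mul, ← hx, ← hy]; ring
      have hb0 : b ≠ 0 := by
        rintro rfl
        rw [zero_mul] at h1
        exact mul_ne_zero ha ht h1
      have h2 := congrArg w.o h1
      rw [w.mul a t ha ht, w.mul b s hb0 hs] at h2
      rw [w.mem b hb0] at hb
      rw [w.mem a ha]
      omega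
  · intro ha
    exact ⟨a, s, hs, hx, ha⟩

theorem o_one : w.o 1 = 0 := by
  have h := w.mul 1 1 one_ne_zero one_ne_zero
  rw [mul_one] at h
  omega

theorem I_zero (g : P) : g ∈ w.I 0 := by
  rcases eq_or_ne g 0 with h | h
  · rw [h]; exact Ideal.zero_mem _
  · rw [w.mem g h]; exact Nat.zero_le _

theorem am_mem (g : P) : algebraMap P L g ∈ V L w := by
  rw [mem_V_iff w (one_ne_zero) (a := g) (by rw [map_one, mul_one]), o_one]
  exact I_zero w g

/-- criterion for units -/
theorem isUnit_V {x : V L w} {a s : P} (hs : s ≠ 0) (ha : a ≠ 0)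
    (hx : (x : L) * algebraMap P L s = algebraMap P L a) (h : w.o a ≤ w.o s) : IsUnit x := by
  have hsa : algebraMap P L s ≠ 0 := am_ne hs
  have haa : algebraMap P L a ≠ 0 := am_ne ha
  have hx0 : (x : L) ≠ 0 := by
    rintro h0
    rw [h0, zero_mul] at hx
    exact haa hx.symm
  have hy : (x : L)⁻¹ ∈ V L w := by
    rw [mem_V_iff w ha (a := s)]
    · rw [w.mem s hs]; exact h
    · rw [← hx]; field_simp
  refine IsUnit.of_mul_eq_one ⟨_, hy⟩ ?_
  apply Subtype.ext
  show (x : L) * (x : L)⁻¹ = 1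
  exact mul_inv_cancel₀ hx0

/-- the valuation ring is discrete -/
theorem val_gen {π : P} (hπ0 : π ≠ 0) (hoπ : w.o π = 1) :
    ∃ (V : Type) (_ : CommRing V) (_ : IsDomain V) (_ : IsDiscreteValuationRing V)
      (_ : Algebra V L) (_ : IsFractionRing V L) (_ : Algebra P V) (_ : IsScalarTower P V L),
      Irreducible (algebraMap P V π) ∧
      ∀ (g : P) (k : ℕ), g ∈ w.I k ↔ algebraMap P V π ^ k ∣ algebraMap P V g := by
  have ho1 : w.o 1 = 0 := o_one w
  have hoπk : ∀ k, w.o (π ^ k) = k := by
    intro k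
    induction k with
    | zero => rw [pow_zero, ho1]
    | succ k ih => rw [pow_succ, w.mul _ _ (pow_ne_zero _ hπ0) hπ0, ih, hoπ]
  -- the algebra structure
  letI : Algebra P (V L w) := ((algebraMap P L).codRestrict (V L w) (am_mem w)).toAlgebra
  have hal : ∀ g : P, ((algebraMap P (V L w) g : V L w) : L) = algebraMap P L g := fun g => rfl
  haveI : IsScalarTower P (V L w) L := IsScalarTower.of_algebraMap_eq fun g => rfl
  -- representation of elements
  have hrep : ∀ x : V L w, x ≠ 0 → ∃ a s : P, s ≠ 0 ∧ a ≠ 0 ∧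
      (x : L) * algebraMap P L s = algebraMap P L a ∧ w.o s ≤ w.o a := by
    intro x hx
    obtain ⟨a, s, hs, h1, h2⟩ := x.2
    have hx0 : (x : L) ≠ 0 := fun h => hx (Subtype.ext h)
    have ha : a ≠ 0 := by
      rintro rfl
      rw [map_zero] at h1
      exact mul_ne_zero hx0 (am_ne hs) h1
    exact ⟨a, s, hs, ha, h1, (w.mem a ha _).mp h2⟩
  have hπV : (algebraMap P (V L w) π) ≠ 0 := fun h => am_ne (L := L) hπ0 (congrArg Subtype.val h)
  have hirr : Irreducible (algebraMap P (V L w) π) := by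
    refine ⟨?_, ?_⟩
    · intro hu
      obtain ⟨u, hu⟩ := hu
      have h1 : (algebraMap P (V L w) π) * ((u⁻¹ : (V L w)ˣ) : V L w) = 1 := by
        rw [← hu, Units.mul_inv]
      obtain ⟨a, s, hs, h2, h3⟩ := ((u⁻¹ : (V L w)ˣ) : V L w).2
      have h4 : π * a = s := by
        apply IsFractionRing.injective P L
        rw [map_mul, ← h2, ← mul_assoc]
        have h5 := congrArg Subtype.val h1
        have h6 : algebraMap P L π * (((u⁻¹ : (V L w)ˣ) : V L w) : L) = 1 := h5
        rw [h6, one_mul]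
      have ha : a ≠ 0 := by
        rintro rfl
        rw [mul_zero] at h4
        exact hs h4.symm
      have h5 := congrArg w.o h4
      rw [w.mul π a hπ0 ha, hoπ] at h5
      rw [w.mem a ha] at h3
      omega
    · intro x y hxy
      have hx0 : x ≠ 0 := by
        rintro rfl
        rw [zero_mul] at hxy
        exact hπV hxy
      have hy0 : y ≠ 0 := by
        rintro rfl
        rw [mul_zero] at hxy
        exact hπV hxy
      obtain ⟨a, s, hs, ha, h1, h2⟩ := hrep x hx0
      obtain ⟨b, t, ht, hb, h3, h4⟩ := hrep y hy0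
      have h5 : algebraMap P L π = (x : L) * (y : L) := congrArg Subtype.val hxy
      have h6 : π * (s * t) = a * b := by
        apply IsFractionRing.injective P L
        rw [map_mul, map_mul, map_mul, h5, ← h1, ← h3]; ring
      have h7 := congrArg w.o h6
      rw [w.mul π _ hπ0 (mul_ne_zero hs ht), w.mul s t hs ht, w.mul a b ha hb, hoπ] at h7
      rcases Nat.lt_or_ge (w.o s) (w.o a) with h8 | h8
      · right
        exact isUnit_V w ht hb h3 (by omega)
      · left
        exact isUnit_V w hs ha h1 h8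
  have hfac : IsDiscreteValuationRing.HasUnitMulPowIrreducibleFactorization (V L w) := by
    refine ⟨algebraMap P (V L w) π, hirr, fun {x} hx => ?_⟩
    obtain ⟨a, s, hs, ha, h1, h2⟩ := hrep x hx
    obtain ⟨n, hn⟩ := Nat.exists_eq_add_of_le h2
    refine ⟨n, ?_⟩
    have hpn : algebraMap P L π ^ n ≠ 0 := pow_ne_zero _ (am_ne hπ0)
    have hsn : s * π ^ n ≠ 0 := mul_ne_zero hs (pow_ne_zero _ hπ0)
    have hon : w.o (s * π ^ n) = w.o a := by
      rw [w.mul s _ hs (pow_ne_zero _ hπ0), hoπk, hn]
    have hz : (x : L) / algebraMap P L π ^ n * algebraMap P L (s * π ^ n) = algebraMap P L a := by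
      rw [map_mul, map_pow, ← h1]; field_simp
    have hzV : (x : L) / algebraMap P L π ^ n ∈ V L w := by
      rw [mem_V_iff w hsn hz, w.mem a ha]
      exact hon.le
    have hu : IsUnit (⟨_, hzV⟩ : V L w) := isUnit_V w hsn ha hz hon.ge
    refine ⟨hu.unit, ?_⟩
    apply Subtype.ext
    show algebraMap P L π ^ n * ((x : L) / algebraMap P L π ^ n) = x
    field_simp
  have hdvr : IsDiscreteValuationRing (V L w) :=
    IsDiscreteValuationRing.ofHasUnitMulPowIrreducibleFactorization hfac
  have hfrac : IsFractionRing (V L w) L := by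
    refine IsFractionRing.of_field _ _ fun z => ?_
    obtain ⟨a, s, hs, rfl⟩ := IsFractionRing.div_surjective (A := P) z
    exact ⟨algebraMap P (V L w) a, algebraMap P (V L w) s, rfl⟩
  refine ⟨V L w, inferInstance, inferInstance, hdvr, inferInstance, hfrac, inferInstance,
    inferInstance, hirr, fun g k => ?_⟩
  constructor
  · intro hg
    have hz : algebraMap P L g / algebraMap P L π ^ k * algebraMap P L (π ^ k) =
        algebraMap P L g := by
      rw [map_pow]
      exact div_mul_cancel₀ _ (pow_ne_zero _ (am_ne hπ0))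
    have hzV : algebraMap P L g / algebraMap P L π ^ k ∈ V L w := by
      rw [mem_V_iff w (pow_ne_zero _ hπ0) hz, hoπk]
      exact hg
    refine ⟨⟨_, hzV⟩, ?_⟩
    apply Subtype.ext
    show algebraMap P L g = algebraMap P L π ^ k * (algebraMap P L g / algebraMap P L π ^ k)
    rw [mul_div_cancel₀ _ (pow_ne_zero _ (am_ne hπ0))]
  · rintro ⟨y, hy⟩
    have h1 : algebraMap P L g = algebraMap P L π ^ k * (y : L) := congrArg Subtype.val hy
    have h2 : (y : L) * algebraMap P L (π ^ k) = algebraMap P L g := by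
      rw [map_pow, h1, mul_comm]
    have h3 := (mem_V_iff w (pow_ne_zero k hπ0) h2).mp y.2
    rwa [hoπk] at h3

/-- Cartier maps and the valuation ring -/
theorem tv_gen {V : Type} [CommRing V] [IsDomain V] [IsDiscreteValuationRing V] [Algebra V L]
    [IsFractionRing V L] [Algebra P V] [IsScalarTower P V L] {π : P} {N q : ℕ} (hq : 1 ≤ q)
    (hπ : Irreducible (algebraMap P V π))
    (hord : ∀ (g : P) (k : ℕ), g ∈ w.I k ↔ algebraMap P V π ^ k ∣ algebraMap P V g)
    (T : P →+ P) (TL : L →+ L) (hTL : IsCartier q TL)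
    (hTT : ∀ g, TL (algebraMap P L g) = algebraMap P L (T g))
    (hTI : ∀ j g, g ∈ w.I (N + q * j) → T g ∈ w.I j) (v : V) :
    ∃ v' : V, TL (algebraMap V L (algebraMap P V π ^ N * v)) = algebraMap V L v' := by
  obtain ⟨a, s, hs, has⟩ := IsFractionRing.div_surjective (A := P) (algebraMap V L v)
  have hs0 : s ≠ 0 := nonZeroDivisors.ne_zero hs
  have hPL : Function.Injective (algebraMap P L) := IsFractionRing.injective P L
  have hVL : Function.Injective (algebraMap V L) := IsFractionRing.injective V L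
  have hsL : algebraMap P L s ≠ 0 := by
    intro h
    exact hs0 (hPL (by rw [h, map_zero]))
  have hsV : algebraMap P V s ≠ 0 := by
    intro h
    apply hsL
    rw [IsScalarTower.algebraMap_apply P V L, h, map_zero]
  obtain ⟨l, u, hu⟩ := IsDiscreteValuationRing.eq_unit_mul_pow_irreducible hsV hπ
  have ha : algebraMap P V a = algebraMap P V s * v := by
    apply hVL
    rw [map_mul, ← IsScalarTower.algebraMap_apply, ← IsScalarTower.algebraMap_apply, ← has,
      mul_div_cancel₀ _ hsL]
  have hmem : π ^ N * a * s ^ (q - 1) ∈ w.I (N + q * l) := by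
    rw [hord]
    refine ⟨(u : V) ^ q * v, ?_⟩
    obtain ⟨q', rfl⟩ : ∃ q', q = q' + 1 := ⟨q - 1, by omega⟩
    rw [Nat.add_sub_cancel, map_mul, map_mul, map_pow, map_pow, ha, hu]
    ring
  have hTm := hTI l _ hmem
  rw [hord] at hTm
  obtain ⟨z, hz⟩ := hTm
  refine ⟨((u⁻¹ : Vˣ) : V) * z, ?_⟩
  have e1 : algebraMap V L (algebraMap P V π ^ N * v) =
      (1 / algebraMap P L s) ^ q * algebraMap P L (π ^ N * a * s ^ (q - 1)) := by
    obtain ⟨q', rfl⟩ : ∃ q', q = q' + 1 := ⟨q - 1, by omega⟩
    rw [Nat.add_sub_cancel, map_mul, map_pow, ← IsScalarTower.algebraMap_apply, ← has, map_mul,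
      map_mul, map_pow, map_pow, div_pow, one_pow, pow_succ (algebraMap P L s)]
    have hsq : algebraMap P L s ^ q' ≠ 0 := pow_ne_zero _ hsL
    field_simp
  rw [e1, hTL, hTT]
  rw [div_mul_eq_mul_div, one_mul, div_eq_iff hsL, IsScalarTower.algebraMap_apply P V L s,
    IsScalarTower.algebraMap_apply P V L (T _), hz, hu, ← map_mul]
  congr 1
  calc algebraMap P V π ^ l * z = (((u⁻¹ : Vˣ) : V) * (u : V)) * (algebraMap P V π ^ l * z) := by
        rw [Units.inv_mul, one_mul]
    _ = _ := by ring

end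

/-! ## Weighted monomials and Cartier maps -/

section mono

variable {P : Type} [CommRing P] {d : ℕ} (x : Fin d → P) (wt : Fin d → ℕ)

/-- monomials of weight at least `N` -/
def Mon (N : ℕ) : Set P := {g | ∃ a : Fin d → ℕ, N ≤ ∑ i, wt i * a i ∧ g = ∏ i, x i ^ a i}

theorem mon_mul {N : ℕ} (j : Fin d) {g : P} (hg : g ∈ Ideal.span (Mon x wt (N - wt j))) :
    x j * g ∈ Ideal.span (Mon x wt N) := by
  induction hg using Submodule.span_induction with
  | mem g hg =>
    obtain ⟨a, ha, rfl⟩ := hg
    apply Ideal.subset_span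
    refine ⟨fun i => a i + if i = j then 1 else 0, ?_, ?_⟩
    · have e : ∑ i, wt i * (a i + if i = j then 1 else 0) = ∑ i, wt i * a i + wt j := by
        simp only [mul_add]
        rw [Finset.sum_add_distrib]
        congr 1
        rw [Finset.sum_eq_single j]
        · rw [if_pos rfl, mul_one]
        · intro i _ hi
          rw [if_neg hi, mul_zero]
        · intro h
          exact absurd (Finset.mem_univ j) h
      rw [e]
      omega
    · simp only [pow_add]
      rw [Finset.prod_mul_distrib, mul_comm]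
      congr 1
      rw [Finset.prod_eq_single j]
      · rw [if_pos rfl, pow_one]
      · intro i _ hi
        rw [if_neg hi, pow_zero]
      · intro h
        exact absurd (Finset.mem_univ j) h
  | zero => rw [mul_zero]; exact Ideal.zero_mem _
  | add g g' _ _ h h' => rw [mul_add]; exact Ideal.add_mem _ h h'
  | smul s g _ h =>
    rw [smul_eq_mul, mul_left_comm]
    exact Ideal.mul_mem_left _ s h

theorem cart_mono {q j A : ℕ} (hq : 1 ≤ q) (hA : ∑ i, wt i = A + 1) (T : P →+ P)
    (hT : IsCartier q T) (g : P) (hg : g ∈ Ideal.span (Mon x wt (A * (q - 1) + q * j))) :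
    T g ∈ Ideal.span (Mon x wt j) := by
  have key : ∀ g ∈ Ideal.span (Mon x wt (A * (q - 1) + q * j)), ∀ r : P,
      T (r * g) ∈ Ideal.span (Mon x wt j) := by
    intro g hg
    induction hg using Submodule.span_induction with
    | mem g hg =>
      intro r
      obtain ⟨a, ha, rfl⟩ := hg
      have e : r * ∏ i, x i ^ a i = (∏ i, x i ^ (a i / q)) ^ q * ((∏ i, x i ^ (a i % q)) * r) := by
        rw [← Finset.prod_pow, ← mul_assoc, ← Finset.prod_mul_distrib, mul_comm]
        congr 1
        refine Finset.prod_congr rfl fun i _ => ?_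
        rw [← pow_mul, ← pow_add, Nat.div_add_mod']
      rw [e, hT]
      apply Ideal.mul_mem_right
      apply Ideal.subset_span
      refine ⟨fun i => a i / q, ?_, rfl⟩
      have h2 : ∑ i, wt i * a i ≤ q * (∑ i, wt i * (a i / q)) + (∑ i, wt i) * (q - 1) := by
        rw [Finset.mul_sum, Finset.sum_mul, ← Finset.sum_add_distrib]
        refine Finset.sum_le_sum fun i _ => ?_
        have h4 := Nat.div_add_mod (a i) q
        have h5 := Nat.mod_lt (a i) (show 0 < q by omega)
        have h6 : a i ≤ q * (a i / q) + (q - 1) := by omega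
        calc wt i * a i ≤ wt i * (q * (a i / q) + (q - 1)) := Nat.mul_le_mul_left _ h6
          _ = q * (wt i * (a i / q)) + wt i * (q - 1) := by ring
      rw [hA] at h2
      by_contra hlt
      push Not at hlt
      have h3 : q * (∑ i, wt i * (a i / q)) + q ≤ q * j := by
        calc q * (∑ i, wt i * (a i / q)) + q = q * ((∑ i, wt i * (a i / q)) + 1) := by ring
          _ ≤ q * j := Nat.mul_le_mul_left q hlt
      have h4 : (A + 1) * (q - 1) = A * (q - 1) + (q - 1) := by ring
      omega
    | zero =>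
      intro r
      rw [mul_zero, map_zero]
      exact Ideal.zero_mem _
    | add g g' _ _ h h' =>
      intro r
      rw [mul_add, map_add]
      exact Ideal.add_mem _ (h r) (h' r)
    | smul s g _ h =>
      intro r
      rw [smul_eq_mul, ← mul_assoc]
      exact h (r * s)
  have h2 := key g hg 1
  rwa [one_mul] at h2

end mono

/-! ## The weighted order -/

section ps

open MvPowerSeries

variable {k : Type} [Field k] {d : ℕ}

instance : IsDomain (MvPowerSeries (Fin d) k) := NoZeroDivisors.to_isDomain _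

/-- the monomials of `f` whose first variable is `x_i`, divided by `x_i` -/
noncomputable def part (f : MvPowerSeries (Fin d) k) (i : Fin d) : MvPowerSeries (Fin d) k :=
  fun m => if ∀ j, j < i → m j = 0 then coeff (m + Finsupp.single i 1) f else 0

theorem coeff_part (f : MvPowerSeries (Fin d) k) (i : Fin d) (m : Fin d →₀ ℕ) :
    coeff m (part f i) = if ∀ j, j < i → m j = 0 then coeff (m + Finsupp.single i 1) f else 0 :=
  rfl

theorem coeff_X_mul (i : Fin d) (m : Fin d →₀ ℕ) (f : MvPowerSeries (Fin d) k) :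
    coeff m (X i * f) = if Finsupp.single i 1 ≤ m then coeff (m - Finsupp.single i 1) f else 0 := by
  classical
  have h : (X i : MvPowerSeries (Fin d) k) = monomial (Finsupp.single i 1) 1 := rfl
  rw [h, coeff_monomial_mul, one_mul]

theorem sum_part (f : MvPowerSeries (Fin d) k) (hf : constantCoeff f = 0) :
    f = ∑ i, X i * part f i := by
  classical
  ext m
  rw [map_sum]
  by_cases hm : m = 0
  · subst hm
    have h0 : coeff (0 : Fin d →₀ ℕ) f = 0 := hf
    rw [h0]
    refine (Finset.sum_eq_zero fun i _ => ?_).symm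
    exact coeff_zero_X_mul _ _
  · have hex : ∃ i, m i ≠ 0 := by
      by_contra h
      push Not at h
      exact hm (Finsupp.ext h)
    obtain ⟨i₀, hi₀, hmin⟩ : ∃ i₀, m i₀ ≠ 0 ∧ ∀ j, j < i₀ → m j = 0 := by
      have hne : (Finset.univ.filter fun i => m i ≠ 0).Nonempty := by
        obtain ⟨i, hi⟩ := hex
        exact ⟨i, Finset.mem_filter.2 ⟨Finset.mem_univ _, hi⟩⟩
      refine ⟨(Finset.univ.filter fun i => m i ≠ 0).min' hne, ?_, ?_⟩
      · exact (Finset.mem_filter.1 (Finset.min'_mem _ hne)).2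
      · intro j hj
        by_contra h
        have := Finset.min'_le (Finset.univ.filter fun i => m i ≠ 0) j
          (Finset.mem_filter.2 ⟨Finset.mem_univ _, h⟩)
        exact absurd hj (not_lt.2 this)
    have hle : Finsupp.single i₀ 1 ≤ m := by
      rw [Finsupp.single_le_iff]
      omega
    rw [Finset.sum_eq_single i₀]
    · rw [coeff_X_mul, if_pos hle, coeff_part, if_pos, tsub_add_cancel_of_le hle]
      intro j hj
      rw [Finsupp.coe_tsub, Pi.sub_apply, hmin j hj, Nat.zero_sub]
    · intro i _ hi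
      rw [coeff_X_mul]
      by_cases h1 : Finsupp.single i 1 ≤ m
      · rw [if_pos h1, coeff_part, if_neg]
        intro h2
        have hi' : m i ≠ 0 := by
          rw [Finsupp.single_le_iff] at h1
          omega
        have hlt : i₀ < i := by
          rcases lt_trichotomy i₀ i with h | h | h
          · exact h
          · exact absurd h.symm hi
          · exact absurd (hmin i h) hi'
        have h3 := h2 i₀ hlt
        rw [Finsupp.coe_tsub, Pi.sub_apply, Finsupp.single_apply, if_neg hi, Nat.sub_zero] at h3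
        exact hi₀ h3
      · rw [if_neg h1]
    · intro h
      exact absurd (Finset.mem_univ _) h

theorem weight_single_one (wt : Fin d → ℕ) (i : Fin d) :
    Finsupp.weight wt (Finsupp.single i 1) = wt i := by
  rw [Finsupp.weight_single, one_smul]

theorem le_wo_part (wt : Fin d → ℕ) (f : MvPowerSeries (Fin d) k) (n : ℕ)
    (hf : (n : ℕ∞) ≤ f.weightedOrder wt) (i : Fin d) :
    ((n - wt i : ℕ) : ℕ∞) ≤ (part f i).weightedOrder wt := by
  refine nat_le_weightedOrder wt fun m hm => ?_
  rw [coeff_part]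
  split_ifs
  · refine coeff_eq_zero_of_lt_weightedOrder wt (lt_of_lt_of_le ?_ hf)
    rw [map_add, weight_single_one]
    have : Finsupp.weight wt m + wt i < n := by omega
    exact_mod_cast this
  · rfl

theorem mem_max {f : MvPowerSeries (Fin d) k} :
    f ∈ maximalIdeal (MvPowerSeries (Fin d) k) ↔ constantCoeff f = 0 := by
  rw [IsLocalRing.mem_maximalIdeal, mem_nonunits_iff, isUnit_iff_constantCoeff, isUnit_iff_ne_zero,
    not_not]

theorem constantCoeff_of_wo {wt : Fin d → ℕ} {f : MvPowerSeries (Fin d) k}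
    (h : ((1 : ℕ) : ℕ∞) ≤ f.weightedOrder wt) : constantCoeff f = 0 := by
  have h1 : coeff (0 : Fin d →₀ ℕ) f = 0 := by
    refine coeff_eq_zero_of_lt_weightedOrder wt (lt_of_lt_of_le ?_ h)
    rw [map_zero]
    exact_mod_cast one_pos
  exact h1

theorem wo_of_constantCoeff {wt : Fin d → ℕ} (hwt : ∀ i, 1 ≤ wt i) {f : MvPowerSeries (Fin d) k}
    (h : constantCoeff f = 0) : ((1 : ℕ) : ℕ∞) ≤ f.weightedOrder wt := by
  refine nat_le_weightedOrder wt fun m hm => ?_
  have h1 : Finsupp.weight wt m = 0 := by omega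
  have h2 : m = 0 := by
    ext i
    have h3 : wt i * m i ≤ Finsupp.weight wt m := by
      rw [Finsupp.weight_apply, Finsupp.sum_fintype _ _ (fun i => by simp)]
      have h4 := Finset.single_le_sum (f := fun i => m i • wt i) (fun i _ => Nat.zero_le _)
        (Finset.mem_univ i)
      refine le_trans (le_of_eq ?_) h4
      rw [smul_eq_mul, mul_comm]
    rw [h1] at h3
    have h4 := hwt i
    have h5 : wt i * m i = 0 := by omega
    rcases Nat.mul_eq_zero.1 h5 with h6 | h6
    · omega
    · exact h6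
  rw [h2]
  exact h

/-- a power series of weighted order `≥ n` is in the ideal of the monomials of weight `≥ n` -/
theorem mem_mon {wt : Fin d → ℕ} (hwt : ∀ i, 1 ≤ wt i) (n : ℕ) :
    ∀ f : MvPowerSeries (Fin d) k, (n : ℕ∞) ≤ f.weightedOrder wt →
      f ∈ Ideal.span (Mon (fun i => (X i : MvPowerSeries (Fin d) k)) wt n) := by
  induction n using Nat.strong_induction_on with
  | _ n ih =>
    intro f hf
    rcases Nat.eq_zero_or_pos n with h0 | h0
    · have h1 : (1 : MvPowerSeries (Fin d) k) ∈
          Ideal.span (Mon (fun i => (X i : MvPowerSeries (Fin d) k)) wt n) := by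
        apply Ideal.subset_span
        exact ⟨fun _ => 0, by rw [h0]; exact Nat.zero_le _, by simp⟩
      have h2 := Ideal.mul_mem_left _ f h1
      rwa [mul_one] at h2
    · have h1 : constantCoeff f = 0 := by
        refine constantCoeff_of_wo (wt := wt) (le_trans ?_ hf)
        exact_mod_cast h0
      rw [sum_part f h1]
      refine Ideal.sum_mem _ fun i _ => mon_mul _ wt i ?_
      have h2 := hwt i
      exact ih (n - wt i) (by omega) _ (le_wo_part wt f n hf i)

/-- the filtration by the weighted order -/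
noncomputable def J (wt : Fin d → ℕ) (n : ℕ) : Ideal (MvPowerSeries (Fin d) k) where
  carrier := {f | (n : ℕ∞) ≤ f.weightedOrder wt}
  add_mem' {a b} ha hb := le_trans (le_min ha hb) (min_weightedOrder_le_add wt)
  zero_mem' := by
    show (n : ℕ∞) ≤ (0 : MvPowerSeries (Fin d) k).weightedOrder wt
    rw [weightedOrder_zero]
    exact le_top
  smul_mem' c f hf := by
    show (n : ℕ∞) ≤ (c * f).weightedOrder wt
    rw [weightedOrder_mul]
    exact le_trans hf le_add_self

theorem mem_J {wt : Fin d → ℕ} {n : ℕ} {f : MvPowerSeries (Fin d) k} :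
    f ∈ J wt n ↔ (n : ℕ∞) ≤ f.weightedOrder wt := Iff.rfl

theorem J_mul {wt : Fin d → ℕ} {m n : ℕ} {f g : MvPowerSeries (Fin d) k} (hf : f ∈ J wt m)
    (hg : g ∈ J wt n) : f * g ∈ J wt (m + n) := by
  rw [mem_J] at hf hg ⊢
  rw [weightedOrder_mul]
  push_cast
  exact add_le_add hf hg

theorem one_mem_J (wt : Fin d → ℕ) : (1 : MvPowerSeries (Fin d) k) ∈ J wt 0 := by
  rw [mem_J]
  exact_mod_cast bot_le

theorem X_mem_J (wt : Fin d → ℕ) (i : Fin d) : (X i : MvPowerSeries (Fin d) k) ∈ J wt (wt i) := by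
  rw [mem_J]
  have h : (X i : MvPowerSeries (Fin d) k) = monomial (Finsupp.single i 1) 1 := rfl
  rw [h, weightedOrder_monomial_of_ne_zero wt one_ne_zero, weight_single_one]

theorem wo_X (wt : Fin d → ℕ) (i : Fin d) :
    (X i : MvPowerSeries (Fin d) k).weightedOrder wt = wt i := by
  have h : (X i : MvPowerSeries (Fin d) k) = monomial (Finsupp.single i 1) 1 := rfl
  rw [h, weightedOrder_monomial_of_ne_zero wt one_ne_zero, weight_single_one]

theorem X_pow_mem_J (wt : Fin d → ℕ) (i : Fin d) (a : ℕ) :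
    (X i : MvPowerSeries (Fin d) k) ^ a ∈ J wt (wt i * a) := by
  induction a with
  | zero => rw [pow_zero, mul_zero]; exact one_mem_J wt
  | succ a ih => rw [pow_succ, mul_add, mul_one]; exact J_mul ih (X_mem_J wt i)

theorem mon_le (wt : Fin d → ℕ) (n : ℕ) :
    Ideal.span (Mon (fun i => (X i : MvPowerSeries (Fin d) k)) wt n) ≤ J wt n := by
  rw [Ideal.span_le]
  rintro _ ⟨a, ha, rfl⟩
  have h1 : ∀ s : Finset (Fin d), (∏ i ∈ s, (X i : MvPowerSeries (Fin d) k) ^ a i) ∈
      J wt (∑ i ∈ s, wt i * a i) := by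
    classical
    intro s
    induction s using Finset.induction_on with
    | empty => rw [Finset.prod_empty, Finset.sum_empty]; exact one_mem_J wt
    | insert i s hi ih =>
      rw [Finset.prod_insert hi, Finset.sum_insert hi]
      exact J_mul (X_pow_mem_J wt i _) ih
  have h2 := h1 Finset.univ
  rw [mem_J] at h2
  show (n : ℕ∞) ≤ _
  refine le_trans ?_ h2
  exact_mod_cast ha

theorem max_le_J {wt : Fin d → ℕ} (hwt : ∀ i, 1 ≤ wt i) :
    maximalIdeal (MvPowerSeries (Fin d) k) ≤ J wt 1 := by
  intro f hf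
  exact wo_of_constantCoeff hwt (mem_max.1 hf)

theorem sq_le_J {wt : Fin d → ℕ} (hwt : ∀ i, 1 ≤ wt i) :
    maximalIdeal (MvPowerSeries (Fin d) k) ^ 2 ≤ J wt 2 := by
  rw [pow_two]
  rw [Ideal.mul_le]
  intro a ha b hb
  exact J_mul (max_le_J hwt ha) (max_le_J hwt hb)

/-- an element of order `≥ 2` -/
theorem mem_sq (f : MvPowerSeries (Fin d) k) (h0 : constantCoeff f = 0)
    (h1 : ∀ i, coeff (Finsupp.single i 1) f = 0) :
    f ∈ maximalIdeal (MvPowerSeries (Fin d) k) ^ 2 := by
  rw [sum_part f h0, pow_two]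
  refine Ideal.sum_mem _ fun i _ => Ideal.mul_mem_mul ?_ ?_
  · rw [mem_max, constantCoeff_X]
  · rw [mem_max]
    show coeff 0 (part f i) = 0
    rw [coeff_part, zero_add, h1 i, ite_self]

theorem sigma_max (σ : MvPowerSeries (Fin d) k ≃+* MvPowerSeries (Fin d) k)
    {f : MvPowerSeries (Fin d) k} : σ f ∈ maximalIdeal (MvPowerSeries (Fin d) k) ↔
      f ∈ maximalIdeal (MvPowerSeries (Fin d) k) := by
  rw [IsLocalRing.mem_maximalIdeal, IsLocalRing.mem_maximalIdeal, mem_nonunits_iff,
    mem_nonunits_iff, MulEquiv.isUnit_map]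

theorem sigma_sq (σ : MvPowerSeries (Fin d) k ≃+* MvPowerSeries (Fin d) k)
    {f : MvPowerSeries (Fin d) k} (hf : f ∈ maximalIdeal (MvPowerSeries (Fin d) k) ^ 2) :
    σ f ∈ maximalIdeal (MvPowerSeries (Fin d) k) ^ 2 := by
  rw [pow_two] at hf ⊢
  refine Submodule.mul_induction_on hf ?_ ?_
  · intro a ha b hb
    rw [map_mul]
    exact Ideal.mul_mem_mul ((sigma_max σ).2 ha) ((sigma_max σ).2 hb)
  · intro a b ha hb
    rw [map_add]
    exact Ideal.add_mem _ ha hb

/-- the order function -/
noncomputable def wOrd (wt : Fin d → ℕ) (σ : MvPowerSeries (Fin d) k ≃+* MvPowerSeries (Fin d) k) :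
    Ord (MvPowerSeries (Fin d) k) where
  I n := (J wt n).comap (σ : MvPowerSeries (Fin d) k →+* MvPowerSeries (Fin d) k)
  o g := ((σ g).weightedOrder wt).toNat
  mem g hg n := by
    have h1 : σ g ≠ 0 := by
      rwa [Ne, EmbeddingLike.map_eq_zero_iff]
    have h2 : (((σ g).weightedOrder wt).toNat : ℕ∞) = (σ g).weightedOrder wt :=
      (ne_zero_iff_weightedOrder_finite wt).1 h1
    show (n : ℕ∞) ≤ (σ g).weightedOrder wt ↔ _
    rw [← h2]
    exact Nat.cast_le
  mul a b ha hb := by
    have ha' : σ a ≠ 0 := by rwa [Ne, EmbeddingLike.map_eq_zero_iff]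
    have hb' : σ b ≠ 0 := by rwa [Ne, EmbeddingLike.map_eq_zero_iff]
    rw [map_mul, weightedOrder_mul]
    refine ENat.toNat_add ?_ ?_
    · rwa [Ne, weightedOrder_eq_top_iff]
    · rwa [Ne, weightedOrder_eq_top_iff]

theorem mem_wOrd {wt : Fin d → ℕ} {σ : MvPowerSeries (Fin d) k ≃+* MvPowerSeries (Fin d) k}
    {n : ℕ} {g : MvPowerSeries (Fin d) k} : g ∈ (wOrd wt σ).I n ↔ σ g ∈ J wt n := Iff.rfl

/-- the Cartier map transported by the automorphism -/
noncomputable def conj (σ : MvPowerSeries (Fin d) k ≃+* MvPowerSeries (Fin d) k)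
    (T : MvPowerSeries (Fin d) k →+ MvPowerSeries (Fin d) k) :
    MvPowerSeries (Fin d) k →+ MvPowerSeries (Fin d) k :=
  (σ : MvPowerSeries (Fin d) k →+* MvPowerSeries (Fin d) k).toAddMonoidHom.comp
    (T.comp (σ.symm : MvPowerSeries (Fin d) k →+* MvPowerSeries (Fin d) k).toAddMonoidHom)

theorem conj_apply (σ : MvPowerSeries (Fin d) k ≃+* MvPowerSeries (Fin d) k)
    (T : MvPowerSeries (Fin d) k →+ MvPowerSeries (Fin d) k) (g : MvPowerSeries (Fin d) k) :
    conj σ T g = σ (T (σ.symm g)) := rfl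

theorem cartier_I {wt : Fin d → ℕ} (hwt : ∀ i, 1 ≤ wt i)
    (σ : MvPowerSeries (Fin d) k ≃+* MvPowerSeries (Fin d) k) {q A : ℕ} (hq : 1 ≤ q)
    (hA : ∑ i, wt i = A + 1) (T : MvPowerSeries (Fin d) k →+ MvPowerSeries (Fin d) k)
    (hT : IsCartier q T) (j : ℕ) (g : MvPowerSeries (Fin d) k)
    (hg : g ∈ (wOrd wt σ).I (A * (q - 1) + q * j)) : T g ∈ (wOrd wt σ).I j := by
  rw [mem_wOrd] at hg ⊢
  have h1 : IsCartier q (conj σ T) := by
    intro r s
    rw [conj_apply, conj_apply, map_mul, map_pow, hT, map_mul, RingEquiv.apply_symm_apply]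
  have h2 := cart_mono _ wt hq hA (conj σ T) h1 (σ g) (mem_mon hwt _ _ hg)
  rw [conj_apply, RingEquiv.symm_apply_apply] at h2
  exact mon_le wt j h2

end ps

theorem vat (h : S_AUT) : S_VAT := by
  intro k _ d y L _ _ _ hd hy hy2
  classical
  obtain ⟨c, hc⟩ : ∃ c : Fin d → k, c = fun i => MvPowerSeries.coeff (Finsupp.single i 1) y :=
    ⟨_, rfl⟩
  obtain ⟨i₀, hi₀⟩ : ∃ i₀, c i₀ ≠ 0 := by
    by_contra hcon
    push Not at hcon
    apply hy2
    refine mem_sq y (mem_max.1 hy) fun i => ?_
    have := hcon i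
    rw [hc] at this
    exact this
  obtain ⟨j₀, hj₀⟩ : ∃ j₀ : Fin d, j₀ ≠ i₀ := by
    by_cases h0 : (⟨0, by omega⟩ : Fin d) = i₀
    · refine ⟨⟨1, by omega⟩, fun h1 => ?_⟩
      rw [← h0] at h1
      have := congrArg Fin.val h1
      simp at this
    · exact ⟨_, h0⟩
  -- the matrices
  obtain ⟨B, hB⟩ : ∃ B : Matrix (Fin d) (Fin d) k, B = (1 : Matrix (Fin d) (Fin d) k).updateRow i₀ c :=
    ⟨_, rfl⟩
  have hdet : IsUnit B.det := by
    rw [hB, ← Matrix.cramer_transpose_apply, Matrix.transpose_one, Matrix.cramer_one]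
    exact isUnit_iff_ne_zero.2 hi₀
  have hBA : B * B⁻¹ = 1 := Matrix.mul_nonsing_inv B hdet
  have hAB : B⁻¹ * B = 1 := Matrix.nonsing_inv_mul B hdet
  obtain ⟨A, hA⟩ : ∃ A, A = B⁻¹ := ⟨_, rfl⟩
  rw [← hA] at hBA hAB
  have hrow : ∀ j, ∑ i, c i * A i j = if i₀ = j then 1 else 0 := by
    intro j
    have h1 := congrFun (congrFun hBA i₀) j
    rw [Matrix.mul_apply, Matrix.one_apply] at h1
    rw [← h1]
    refine Finset.sum_congr rfl fun i _ => ?_
    rw [hB, Matrix.updateRow_self]
  obtain ⟨σ, hσX, hσ⟩ := h k d A B hAB hBA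
  -- constants
  have hσC : ∀ a : k, σ (MvPowerSeries.C a) - MvPowerSeries.C a ∈
      maximalIdeal (MvPowerSeries (Fin d) k) := by
    intro a
    have h1 := hσ (MvPowerSeries.C a) 0 (by rw [pow_zero, Ideal.one_eq_top]; exact Submodule.mem_top) 0 (map_zero _)
    rw [Finset.finsuppAntidiag_zero, Finset.sum_singleton] at h1
    simp only [Finsupp.coe_zero, Pi.zero_apply, pow_zero, Finset.prod_const_one, mul_one,
      MvPolynomial.coeff_zero_C, MvPowerSeries.coeff_zero_C] at h1
    rw [mem_max, map_sub, MvPowerSeries.constantCoeff_C, ← MvPowerSeries.coeff_zero_eq_constantCoeff_apply,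
      h1, sub_self]
  -- the weights
  obtain ⟨wt, hwt⟩ : ∃ wt : Fin d → ℕ, wt = fun i => if i = i₀ then 2 else 1 := ⟨_, rfl⟩
  have hwt1 : ∀ i, 1 ≤ wt i := by
    intro i
    rw [hwt]
    show 1 ≤ if i = i₀ then 2 else 1
    split_ifs <;> omega
  have hwti : wt i₀ = 2 := by rw [hwt]; exact if_pos rfl
  have hwtj : wt j₀ = 1 := by rw [hwt]; exact if_neg hj₀
  have hwts : ∑ i, wt i = d + 1 := by
    have e : ∀ i, wt i = 1 + if i = i₀ then 1 else 0 := by
      intro i
      rw [hwt]
      show (if i = i₀ then 2 else 1) = _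
      split_ifs <;> rfl
    simp only [e]
    rw [Finset.sum_add_distrib, Finset.sum_ite_eq' Finset.univ i₀, if_pos (Finset.mem_univ i₀)]
    simp
  -- the image of `y`
  have hσy : σ y ∈ J wt 2 := by
    have h1 : y - ∑ i, MvPowerSeries.C (c i) * MvPowerSeries.X i ∈
        maximalIdeal (MvPowerSeries (Fin d) k) ^ 2 := by
      refine mem_sq _ ?_ fun i => ?_
      · rw [map_sub, mem_max.1 hy, map_sum]
        simp
      · rw [map_sub, map_sum]
        have e : ∀ j, MvPowerSeries.coeff (Finsupp.single i 1)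
            (MvPowerSeries.C (c j) * (MvPowerSeries.X j : MvPowerSeries (Fin d) k)) =
            if j = i then c i else 0 := by
          intro j
          rw [MvPowerSeries.coeff_C_mul, MvPowerSeries.coeff_X]
          by_cases hji : j = i
          · rw [hji, if_pos rfl, if_pos rfl, mul_one]
          · rw [if_neg hji, if_neg, mul_zero]
            intro h2
            apply hji
            have h3 := (Finsupp.single_left_inj (one_ne_zero (α := ℕ))).1 h2
            exact h3.symm
        simp only [e]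
        rw [Finset.sum_ite_eq' Finset.univ i, if_pos (Finset.mem_univ i), hc, sub_self]
    have h2 := sq_le_J hwt1 (sigma_sq σ h1)
    rw [map_sub, map_sum] at h2
    have h3 : ∑ i, σ (MvPowerSeries.C (c i) * MvPowerSeries.X i) ∈ J wt 2 := by
      have e1 : ∑ i, σ (MvPowerSeries.C (c i) * MvPowerSeries.X i) =
          ∑ i, (σ (MvPowerSeries.C (c i)) - MvPowerSeries.C (c i)) * σ (MvPowerSeries.X i) +
            ∑ i, MvPowerSeries.C (c i) * σ (MvPowerSeries.X i) := by
        rw [← Finset.sum_add_distrib]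
        refine Finset.sum_congr rfl fun i _ => ?_
        rw [map_mul]
        ring
      have e2 : ∑ i, MvPowerSeries.C (c i) * σ (MvPowerSeries.X i) =
          (MvPowerSeries.X i₀ : MvPowerSeries (Fin d) k) := by
        simp only [hσX, Finset.mul_sum]
        rw [Finset.sum_comm]
        have e3 : ∀ j, ∑ i, MvPowerSeries.C (c i) * (MvPowerSeries.C (A i j) *
            (MvPowerSeries.X j : MvPowerSeries (Fin d) k)) =
            if i₀ = j then MvPowerSeries.X j else 0 := by
          intro j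
          have e4 : ∑ i, MvPowerSeries.C (c i) * (MvPowerSeries.C (A i j) *
              (MvPowerSeries.X j : MvPowerSeries (Fin d) k)) =
              MvPowerSeries.C (∑ i, c i * A i j) * MvPowerSeries.X j := by
            rw [map_sum, Finset.sum_mul]
            refine Finset.sum_congr rfl fun i _ => ?_
            rw [map_mul, mul_assoc]
          rw [e4, hrow]
          split_ifs
          · rw [map_one, one_mul]
          · rw [map_zero, zero_mul]
        simp only [e3]
        rw [Finset.sum_ite_eq Finset.univ i₀, if_pos (Finset.mem_univ i₀)]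
      rw [e1, e2]
      refine Ideal.add_mem _ (Ideal.sum_mem _ fun i _ => ?_) ?_
      · refine sq_le_J hwt1 ?_
        rw [pow_two]
        refine Ideal.mul_mem_mul (hσC _) ((sigma_max σ).2 ?_)
        rw [mem_max, MvPowerSeries.constantCoeff_X]
      · have := X_mem_J (k := k) wt i₀
        rwa [hwti] at this
    have h4 := Ideal.add_mem _ h2 h3
    rwa [sub_add_cancel] at h4
  -- the valuation ring
  obtain ⟨π, hπ⟩ : ∃ π : MvPowerSeries (Fin d) k, π = σ.symm (MvPowerSeries.X j₀) := ⟨_, rfl⟩
  have hσπ : σ π = MvPowerSeries.X j₀ := by rw [hπ, RingEquiv.apply_symm_apply]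
  have hπ0 : π ≠ 0 := by
    intro h0
    rw [h0, map_zero] at hσπ
    exact nonZeroDivisors.ne_zero MvPowerSeries.X_mem_nonzeroDivisors hσπ.symm
  have hoπ : (wOrd wt σ).o π = 1 := by
    show ((σ π).weightedOrder wt).toNat = 1
    rw [hσπ, wo_X, hwtj]
    rfl
  obtain ⟨V, i1, i2, i3, i4, i5, i6, i7, hirr, hmem⟩ := val_gen (L := L) (wOrd wt σ) hπ0 hoπ
  refine ⟨V, i1, i2, i3, i4, i5, i6, i7, π, hirr, ?_, ?_, ?_, ?_⟩
  · rw [← sigma_max σ, hσπ, mem_max, MvPowerSeries.constantCoeff_X]
  · intro g hg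
    have h1 := (hmem g 1).1 (mem_wOrd.2 (max_le_J hwt1 ((sigma_max σ).2 hg)))
    rwa [pow_one] at h1
  · intro g hg
    refine (hmem g 2).1 (mem_wOrd.2 ?_)
    obtain ⟨a, ha, b, hb, rfl⟩ := Submodule.mem_sup.1 hg
    obtain ⟨r, rfl⟩ := Ideal.mem_span_singleton'.1 ha
    rw [map_add, map_mul]
    exact Ideal.add_mem _ (Ideal.mul_mem_left _ _ hσy) (sq_le_J hwt1 (sigma_sq σ hb))
  · intro q hq T TL hT hTL hTT v
    exact tv_gen (wOrd wt σ) hq hirr hmem T TL hTL hTT
      (fun j g hg => cartier_I hwt1 σ hq hwts T hT j g hg) v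

end Pool.Agent.H190.FT867VAT
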