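import Pool.Agent.H252.MD.Iface

/-!
# Project MD, UNIV: the full crossed product by `ℤ` is the reduced one (helper190)
-/

set_option autoImplicit false
set_option linter.unusedSectionVars false

namespace Pool.Agent.H190.MD

open Filter Topology Matrix
open Pool.Agent.H252.MD Pool.Agent.H107ZS Pool.Agent.H327R4.Pure
open scoped CStarAlgebra ComplexOrder

noncomputable section

section core

variable {X : Type} [TopologicalSpace X] [CompactSpace X] [MulAction Zm X]
  [ContinuousConstSMul Zm X] {A : Type} [CStarAlgebra A]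

/-- the group homomorphism of a unitary -/
def UU (u : A) (hu : u ∈ unitary A) : Zm →* unitary A := zpowersHom (unitary A) ⟨u, hu⟩

theorem UU_one (u : A) (hu : u ∈ unitary A) : (UU u hu (zt 1) : A) = u := by
  unfold UU
  rw [zpowersHom_apply]
  show (((⟨u, hu⟩ : unitary A) ^ (1 : ℤ) : unitary A) : A) = u
  rw [zpow_one]

/-- a property of the elements of `ℤ` which holds for `1` and is stable under products and
inverses -/
theorem zm_induction {P : Zm → Prop} (h1 : P (zt 1)) (hm : ∀ g k, P g → P k → P (g * k))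
    (hi : ∀ g, P g → P g⁻¹) (g : Zm) : P g := by
  have h0 : P 1 := by
    have := hm _ _ h1 (hi _ h1)
    rwa [mul_inv_cancel] at this
  have key : ∀ n : ℤ, P (zt n) := by
    intro n
    induction n using Int.induction_on with
    | zero => exact h0
    | succ i ih =>
      have := hm _ _ ih h1
      exact this
    | pred i ih =>
      have := hm _ _ ih (hi _ h1)
      exact this
  exact key (Multiplicative.toAdd g)

variable {h : X ≃ₜ X} {ι : C(X, ℂ) →⋆ₐ[ℂ] A} {u : A}

theorem tr_mul (g k : Zm) : (tr (g * k) : C(X, X)) = (tr g).comp (tr k) := by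
  ext x
  show (g * k) • x = g • k • x
  rw [mul_smul]

theorem tr_one : (tr (1 : Zm) : C(X, X)) = ContinuousMap.id X := by
  ext x
  show (1 : Zm) • x = x
  rw [one_smul]

theorem cov_all (hu : u ∈ unitary A)
    (hcov : ∀ f : C(X, ℂ), u * ι f * star u = ι (f.comp (tr (zt 1)⁻¹))) (g : Zm) :
    ∀ f : C(X, ℂ), (UU u hu g : A) * ι f * star (UU u hu g : A) = ι (f.comp (tr g⁻¹)) := by
  refine zm_induction (P := fun g => ∀ f : C(X, ℂ),
    (UU u hu g : A) * ι f * star (UU u hu g : A) = ι (f.comp (tr g⁻¹))) ?_ ?_ ?_ g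
  · intro f
    rw [UU_one]
    exact hcov f
  · intro g k hg hk f
    rw [map_mul, _root_.mul_inv_rev, tr_mul]
    have e : ((UU u hu g * UU u hu k : unitary A) : A) = (UU u hu g : A) * (UU u hu k : A) := rfl
    rw [e, star_mul]
    calc (UU u hu g : A) * (UU u hu k : A) * ι f * (star (UU u hu k : A) * star (UU u hu g : A))
        = (UU u hu g : A) * ((UU u hu k : A) * ι f * star (UU u hu k : A)) *
            star (UU u hu g : A) := by simp only [mul_assoc]
      _ = ι ((f.comp (tr k⁻¹)).comp (tr g⁻¹)) := by rw [hk, hg]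
  · intro g hg f
    have e : ((UU u hu g⁻¹ : unitary A) : A) = star (UU u hu g : A) := by
      rw [map_inv]
      rfl
    have e1 : star (UU u hu g : A) * (UU u hu g : A) = 1 := (UU u hu g).2.1
    rw [e, star_star, inv_inv]
    have h1 := hg (f.comp (tr g))
    have h2 : (f.comp (tr g)).comp (tr g⁻¹) = f := by
      rw [ContinuousMap.comp_assoc, ← tr_mul, mul_inv_cancel, tr_one, ContinuousMap.comp_id]
    rw [h2] at h1
    rw [← h1]
    calc star (UU u hu g : A) * ((UU u hu g : A) * ι (f.comp (tr g)) * star (UU u hu g : A)) *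
          (UU u hu g : A)
        = (star (UU u hu g : A) * (UU u hu g : A)) * ι (f.comp (tr g)) *
            (star (UU u hu g : A) * (UU u hu g : A)) := by simp only [mul_assoc]
      _ = _ := by rw [e1, one_mul, mul_one]

/-- the span of the monomials -/
def MS (ι : C(X, ℂ) →⋆ₐ[ℂ] A) (U : Zm →* unitary A) : Submodule ℂ A :=
  Submodule.span ℂ (Set.range fun p : Zm × C(X, ℂ) => ι p.2 * (U p.1 : A))

theorem mem_MS (ι : C(X, ℂ) →⋆ₐ[ℂ] A) (U : Zm →* unitary A) (g : Zm) (f : C(X, ℂ)) :
    ι f * (U g : A) ∈ MS ι U := Submodule.subset_span ⟨(g, f), rfl⟩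

theorem comm_all {U : Zm →* unitary A}
    (hcov : ∀ (g : Zm) (f : C(X, ℂ)), (U g : A) * ι f * star (U g : A) = ι (f.comp (tr g⁻¹)))
    (g : Zm) (f : C(X, ℂ)) : (U g : A) * ι f = ι (f.comp (tr g⁻¹)) * (U g : A) := by
  rw [← hcov, mul_assoc, (U g).2.1, mul_one]

theorem MS_mul {U : Zm →* unitary A}
    (hcov : ∀ (g : Zm) (f : C(X, ℂ)), (U g : A) * ι f * star (U g : A) = ι (f.comp (tr g⁻¹)))
    {a b : A} (ha : a ∈ MS ι U) (hb : b ∈ MS ι U) : a * b ∈ MS ι U := by
  unfold MS at ha
  induction ha using Submodule.span_induction with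
  | mem x hx =>
    obtain ⟨⟨g, f⟩, rfl⟩ := hx
    unfold MS at hb
    induction hb using Submodule.span_induction with
    | mem y hy =>
      obtain ⟨⟨k, f'⟩, rfl⟩ := hy
      have e : ι f * (U g : A) * (ι f' * (U k : A)) =
          ι (f * f'.comp (tr g⁻¹)) * (U (g * k) : A) := by
        have e2 : ((U (g * k) : unitary A) : A) = (U g : A) * (U k : A) := by
          rw [map_mul]
          rfl
        rw [map_mul, e2]
        calc ι f * (U g : A) * (ι f' * (U k : A)) = ι f * ((U g : A) * ι f') * (U k : A) := by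
              simp only [mul_assoc]
          _ = _ := by rw [comm_all hcov]; simp only [mul_assoc]
      show ι f * (U g : A) * (ι f' * (U k : A)) ∈ _
      rw [e]
      exact mem_MS _ _ _ _
    | zero => rw [mul_zero]; exact Submodule.zero_mem _
    | add x y _ _ hx hy => rw [mul_add]; exact Submodule.add_mem _ hx hy
    | smul c x _ hx => rw [mul_smul_comm]; exact Submodule.smul_mem _ _ hx
  | zero => rw [zero_mul]; exact Submodule.zero_mem _
  | add x y _ _ hx hy => rw [add_mul]; exact Submodule.add_mem _ hx hy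
  | smul c x _ hx => rw [smul_mul_assoc]; exact Submodule.smul_mem _ _ hx

theorem MS_star {U : Zm →* unitary A}
    (hcov : ∀ (g : Zm) (f : C(X, ℂ)), (U g : A) * ι f * star (U g : A) = ι (f.comp (tr g⁻¹)))
    {a : A} (ha : a ∈ MS ι U) : star a ∈ MS ι U := by
  unfold MS at ha
  induction ha using Submodule.span_induction with
  | mem x hx =>
    obtain ⟨⟨g, f⟩, rfl⟩ := hx
    have e : star (ι f * (U g : A)) = ι ((star f).comp (tr g)) * (U g⁻¹ : A) := by
      have e1 : ((U g⁻¹ : unitary A) : A) = star (U g : A) := by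
        rw [map_inv]
        rfl
      have h1 := comm_all hcov g⁻¹ (star f)
      rw [inv_inv] at h1
      rw [star_mul, ← h1, e1, map_star]
    show star (ι f * (U g : A)) ∈ _
    rw [e]
    exact mem_MS _ _ _ _
  | zero => rw [star_zero]; exact Submodule.zero_mem _
  | add x y _ _ hx hy => rw [star_add]; exact Submodule.add_mem _ hx hy
  | smul c x _ hx => rw [star_smul]; exact Submodule.smul_mem _ _ hx

theorem MS_one (ι : C(X, ℂ) →⋆ₐ[ℂ] A) (U : Zm →* unitary A) : (1 : A) ∈ MS ι U := by
  have := mem_MS ι U 1 1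
  rw [map_one, map_one] at this
  simpa using this

/-- the `*`-algebra of the sums of monomials -/
def MA (U : Zm →* unitary A)
    (hcov : ∀ (g : Zm) (f : C(X, ℂ)), (U g : A) * ι f * star (U g : A) = ι (f.comp (tr g⁻¹))) :
    StarSubalgebra ℂ A where
  carrier := MS ι U
  mul_mem' := MS_mul hcov
  one_mem' := MS_one ι U
  add_mem' := (MS ι U).add_mem
  zero_mem' := (MS ι U).zero_mem
  algebraMap_mem' := fun r => by
    rw [Algebra.algebraMap_eq_smul_one]
    exact (MS ι U).smul_mem r (MS_one ι U)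
  star_mem' := MS_star hcov

theorem MS_dense (hgen : ∀ S : StarSubalgebra ℂ A, IsClosed (S : Set A) → (∀ f, ι f ∈ S) →
      u ∈ S → S = ⊤) {U : Zm →* unitary A} (hU1 : (U (zt 1) : A) = u)
    (hcov : ∀ (g : Zm) (f : C(X, ℂ)), (U g : A) * ι f * star (U g : A) = ι (f.comp (tr g⁻¹))) :
    (MS ι U).topologicalClosure = ⊤ := by
  have h1 := hgen (MA U hcov).topologicalClosure
    (StarSubalgebra.isClosed_topologicalClosure _)
    (fun f => StarSubalgebra.le_topologicalClosure _ (by
      show ι f ∈ MS ι U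
      have := mem_MS ι U 1 f
      rw [map_one] at this
      simpa using this))
    (StarSubalgebra.le_topologicalClosure _ (by
      show u ∈ MS ι U
      have := mem_MS ι U (zt 1) 1
      rw [map_one, hU1, one_mul] at this
      exact this))
  rw [eq_top_iff]
  intro x _
  have h2 : x ∈ (MA U hcov).topologicalClosure := by rw [h1]; trivial
  exact h2

/-- a closed subspace which contains the monomials is everything -/
theorem all_of_closed {U : Zm →* unitary A} (hd : (MS ι U).topologicalClosure = ⊤)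
    (D : Submodule ℂ A) (hD : IsClosed (D : Set A))
    (hm : ∀ (g : Zm) (f : C(X, ℂ)), ι f * (U g : A) ∈ D) (a : A) : a ∈ D := by
  have h1 : MS ι U ≤ D := by
    unfold MS
    rw [Submodule.span_le]
    rintro _ ⟨⟨g, f⟩, rfl⟩
    exact hm g f
  have h2 := Submodule.topologicalClosure_minimal _ h1 hD
  rw [hd] at h2
  exact h2 Submodule.mem_top

theorem denseRange_of {U : Zm →* unitary A} (hd : (MS ι U).topologicalClosure = ⊤) :
    DenseRange fun c : Zm →₀ C(X, ℂ) => c.sum fun g f => ι f * (U g : A) := by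
  classical
  have h1 : ∀ x ∈ MS ι U, x ∈ Set.range fun c : Zm →₀ C(X, ℂ) =>
      c.sum fun g f => ι f * (U g : A) := by
    intro x hx'
    unfold MS at hx'
    induction hx' using Submodule.span_induction with
    | mem x hx =>
      obtain ⟨⟨g, f⟩, rfl⟩ := hx
      refine ⟨Finsupp.single g f, ?_⟩
      show (Finsupp.single g f).sum (fun g f => ι f * (U g : A)) = _
      rw [Finsupp.sum_single_index]
      rw [map_zero, zero_mul]
    | zero => exact ⟨0, Finsupp.sum_zero_index⟩
    | add x y _ _ hx hy =>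
      obtain ⟨c, rfl⟩ := hx
      obtain ⟨d, rfl⟩ := hy
      refine ⟨c + d, ?_⟩
      show (c + d).sum (fun g f => ι f * (U g : A)) = _
      rw [Finsupp.sum_add_index']
      · intro g; rw [map_zero, zero_mul]
      · intro g f f'; rw [map_add, add_mul]
    | smul r x _ hx =>
      obtain ⟨c, rfl⟩ := hx
      refine ⟨r • c, ?_⟩
      show (r • c).sum (fun g f => ι f * (U g : A)) = r • c.sum (fun g f => ι f * (U g : A))
      rw [Finsupp.sum_smul_index', Finsupp.smul_sum]
      · refine Finsupp.sum_congr fun g _ => ?_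
        rw [map_smul, smul_mul_assoc]
      · intro g; rw [map_zero, zero_mul]
  intro x
  have h2 : x ∈ (MS ι U).topologicalClosure := by rw [hd]; trivial
  exact closure_mono h1 h2

/-! ### The dual action -/

/-- the phase -/
def ph (t : ℝ) : ℂ := Complex.exp (t * Complex.I)

theorem ph_norm (t : ℝ) : ‖ph t‖ = 1 := Complex.norm_exp_ofReal_mul_I t

theorem ph_unit (t : ℝ) : star (ph t) * ph t = 1 ∧ ph t * star (ph t) = 1 := by
  have h : ph t * star (ph t) = 1 := by
    show ph t * (starRingEnd ℂ) (ph t) = 1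
    rw [Complex.mul_conj, Complex.normSq_eq_norm_sq, ph_norm]
    norm_num
  exact ⟨by rw [mul_comm]; exact h, h⟩

theorem ph_smul_unitary {u : A} (hu : u ∈ unitary A) (t : ℝ) : ph t • u ∈ unitary A := by
  have h := ph_unit t
  rw [Unitary.mem_iff]
  constructor
  · rw [star_smul, smul_mul_smul_comm, h.1, hu.1, one_smul]
  · rw [star_smul, smul_mul_smul_comm, h.2, hu.2, one_smul]

theorem exists_gam (hc : IsCrossedProduct h ι u) (t : ℝ) :
    ∃ Φ : A →⋆ₐ[ℂ] A, (∀ f, Φ (ι f) = ι f) ∧ Φ u = ph t • u := by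
  refine hc.universal A ι (ph t • u) (ph_smul_unitary hc.unitary t) fun f => ?_
  rw [star_smul, smul_mul_assoc, smul_mul_smul_comm, (ph_unit t).2, one_smul, hc.cov]

/-- the dual action -/
def gam (hc : IsCrossedProduct h ι u) (t : ℝ) : A →⋆ₐ[ℂ] A := (exists_gam hc t).choose

theorem gam_ι (hc : IsCrossedProduct h ι u) (t : ℝ) (f : C(X, ℂ)) : gam hc t (ι f) = ι f :=
  (exists_gam hc t).choose_spec.1 f

theorem gam_u (hc : IsCrossedProduct h ι u) (t : ℝ) : gam hc t u = ph t • u :=
  (exists_gam hc t).choose_spec.2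

theorem gam_norm (hc : IsCrossedProduct h ι u) (t : ℝ) (a : A) : ‖gam hc t a‖ ≤ ‖a‖ :=
  NonUnitalStarAlgHom.norm_apply_le (gam hc t) a

/-- the power of the phase -/
theorem gam_U (hc : IsCrossedProduct h ι u) (t : ℝ) (n : ℤ) :
    gam hc t (UU u hc.unitary (zt n) : A) = ph (n * t) • (UU u hc.unitary (zt n) : A) := by
  have hph : ∀ s r : ℝ, ph (s + r) = ph s * ph r := fun s r => by
    unfold ph
    rw [← Complex.exp_add]
    congr 1
    push_cast
    ring
  have key : ∀ g : Zm, gam hc t (UU u hc.unitary g : A) =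
      ph ((Multiplicative.toAdd g : ℤ) * t) • (UU u hc.unitary g : A) := by
    intro g
    refine zm_induction (P := fun g => gam hc t (UU u hc.unitary g : A) =
      ph ((Multiplicative.toAdd g : ℤ) * t) • (UU u hc.unitary g : A)) ?_ ?_ ?_ g
    · rw [UU_one, gam_u]
      show ph t • u = ph (((1 : ℤ) : ℝ) * t) • u
      norm_num
    · intro g k hg hk
      have e2 : ((UU u hc.unitary (g * k) : unitary A) : A) =
          (UU u hc.unitary g : A) * (UU u hc.unitary k : A) := by
        rw [map_mul]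
        rfl
      rw [e2, map_mul, hg, hk, smul_mul_smul_comm, ← hph]
      congr 2
      show _ = ((Multiplicative.toAdd g + Multiplicative.toAdd k : ℤ) : ℝ) * t
      push_cast
      ring
    · intro g hg
      have e1 : ((UU u hc.unitary g⁻¹ : unitary A) : A) = star (UU u hc.unitary g : A) := by
        rw [map_inv]
        rfl
      rw [e1, map_star, hg, star_smul]
      congr 1
      show (starRingEnd ℂ) (ph _) = ph (((-(Multiplicative.toAdd g) : ℤ) : ℝ) * t)
      unfold ph
      rw [← Complex.exp_conj]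
      congr 1
      simp
  exact key (zt n)

theorem gam_mono (hc : IsCrossedProduct h ι u) (t : ℝ) (g : Zm) (f : C(X, ℂ)) :
    gam hc t (ι f * (UU u hc.unitary g : A)) =
      ph ((Multiplicative.toAdd g : ℤ) * t) • (ι f * (UU u hc.unitary g : A)) := by
  rw [map_mul, gam_ι]
  have := gam_U hc t (Multiplicative.toAdd g)
  have e : zt (Multiplicative.toAdd g) = g := rfl
  rw [e] at this
  rw [this, mul_smul_comm]

/-- continuity of the dual action at zero -/
theorem gam_cont (hc : IsCrossedProduct h ι u)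
    (hd : (MS ι (UU u hc.unitary)).topologicalClosure = ⊤) (a : A) :
    Tendsto (fun t : ℝ => gam hc t a) (𝓝 0) (𝓝 a) := by
  let D : Submodule ℂ A :=
    { carrier := {a | Tendsto (fun t : ℝ => gam hc t a) (𝓝 0) (𝓝 a)}
      add_mem' := by
        intro a b ha hb
        refine (Tendsto.add ha hb).congr fun t => ?_
        rw [map_add]
      zero_mem' := by
        refine tendsto_const_nhds.congr fun t => ?_
        rw [map_zero]
      smul_mem' := by
        intro c a ha
        refine (Tendsto.const_smul ha c).congr fun t => ?_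
        rw [map_smul] }
  have hDm : ∀ a, a ∈ D ↔ Tendsto (fun t : ℝ => gam hc t a) (𝓝 0) (𝓝 a) := fun a => Iff.rfl
  have hcl : IsClosed (D : Set A) := by
    apply isClosed_of_closure_subset
    intro a ha
    show a ∈ D
    rw [hDm, Metric.tendsto_nhds]
    intro ε hε
    obtain ⟨b, hb, hab⟩ := Metric.mem_closure_iff.1 ha (ε / 3) (by positivity)
    have h1 := (Metric.tendsto_nhds.1 ((hDm b).1 hb)) (ε / 3) (by positivity)
    filter_upwards [h1] with t ht
    have h2 : dist (gam hc t a) (gam hc t b) ≤ dist a b := by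
      rw [dist_eq_norm, dist_eq_norm, ← map_sub]
      exact gam_norm hc t _
    calc dist (gam hc t a) a ≤ dist (gam hc t a) (gam hc t b) + dist (gam hc t b) a :=
          dist_triangle _ _ _
      _ ≤ dist (gam hc t a) (gam hc t b) + (dist (gam hc t b) b + dist b a) :=
          add_le_add le_rfl (dist_triangle _ _ _)
      _ < ε := by
          rw [dist_comm b a]
          linarith
  refine all_of_closed hd D hcl (fun g f => ?_) a
  rw [hDm]
  have h1 : Continuous fun t : ℝ => ph ((Multiplicative.toAdd g : ℤ) * t) •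
      (ι f * (UU u hc.unitary g : A)) := by
    unfold ph
    fun_prop
  have h2 := h1.tendsto 0
  simp only [mul_zero] at h2
  have h3 : ph 0 = 1 := by unfold ph; simp
  rw [h3, one_smul] at h2
  exact h2.congr fun t => (gam_mono hc t g f).symm

/-- the means of the dual action -/
def Pm (hc : IsCrossedProduct h ι u) (N : ℕ) (a : A) : A :=
  ((N : ℂ) + 1)⁻¹ • ∑ j ∈ Finset.range (N + 1), gam hc (2 * Real.pi * j / ((N : ℝ) + 1)) a

theorem Pm_norm (hc : IsCrossedProduct h ι u) (N : ℕ) (a : A) : ‖Pm hc N a‖ ≤ ‖a‖ := by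
  unfold Pm
  rw [norm_smul, norm_inv]
  have h1 : ‖(N : ℂ) + 1‖ = (N : ℝ) + 1 := by
    have : (N : ℂ) + 1 = (((N : ℝ) + 1 : ℝ) : ℂ) := by push_cast; rfl
    rw [this, Complex.norm_real, Real.norm_of_nonneg (by positivity)]
  rw [h1]
  have h2 : ‖∑ j ∈ Finset.range (N + 1), gam hc (2 * Real.pi * j / ((N : ℝ) + 1)) a‖ ≤
      ((N : ℝ) + 1) * ‖a‖ := by
    refine (norm_sum_le _ _).trans ?_
    refine (Finset.sum_le_sum fun j _ => gam_norm hc _ a).trans ?_
    rw [Finset.sum_const, Finset.card_range, nsmul_eq_mul]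
    push_cast
    exact le_rfl
  calc ((N : ℝ) + 1)⁻¹ * ‖∑ j ∈ Finset.range (N + 1), gam hc (2 * Real.pi * j / ((N : ℝ) + 1)) a‖ ≤
        ((N : ℝ) + 1)⁻¹ * (((N : ℝ) + 1) * ‖a‖) :=
        mul_le_mul_of_nonneg_left h2 (by positivity)
    _ = ‖a‖ := by field_simp

theorem Pm_add (hc : IsCrossedProduct h ι u) (N : ℕ) (a b : A) :
    Pm hc N (a + b) = Pm hc N a + Pm hc N b := by
  unfold Pm
  rw [← smul_add, ← Finset.sum_add_distrib]
  congr 1
  exact Finset.sum_congr rfl fun j _ => map_add _ _ _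

theorem Pm_smul (hc : IsCrossedProduct h ι u) (N : ℕ) (c : ℂ) (a : A) :
    Pm hc N (c • a) = c • Pm hc N a := by
  unfold Pm
  have e : ∑ j ∈ Finset.range (N + 1), gam hc (2 * Real.pi * j / ((N : ℝ) + 1)) (c • a) =
      c • ∑ j ∈ Finset.range (N + 1), gam hc (2 * Real.pi * j / ((N : ℝ) + 1)) a := by
    rw [Finset.smul_sum]
    exact Finset.sum_congr rfl fun j _ => map_smul (gam hc _) c a
  rw [e, smul_comm]

/-- the means kill the other coefficients -/
theorem Pm_mono (hc : IsCrossedProduct h ι u) (N : ℕ) (g : Zm) (f : C(X, ℂ)) (hg : g ≠ 1)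
    (hN : |(Multiplicative.toAdd g : ℤ)| ≤ N) : Pm hc N (ι f * (UU u hc.unitary g : A)) = 0 := by
  unfold Pm
  have e : ∑ j ∈ Finset.range (N + 1), gam hc (2 * Real.pi * j / ((N : ℝ) + 1))
      (ι f * (UU u hc.unitary g : A)) =
      (∑ j ∈ Finset.range (N + 1), (Complex.exp (2 * Real.pi * Complex.I *
        ((Multiplicative.toAdd g : ℤ) : ℂ) / ((N : ℂ) + 1))) ^ j) •
        (ι f * (UU u hc.unitary g : A)) := by
    rw [Finset.sum_smul]
    refine Finset.sum_congr rfl fun j _ => ?_
    rw [gam_mono]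
    congr 1
    unfold ph
    rw [← Complex.exp_nat_mul]
    congr 1
    push_cast
    ring
  have hN0 : ((N : ℂ) + 1) ≠ 0 := by exact_mod_cast Nat.succ_ne_zero N
  have hz : (Multiplicative.toAdd g : ℤ) ≠ 0 := fun h0 => hg h0
  set i : ℤ := Multiplicative.toAdd g with hi
  have hne : Complex.exp (2 * Real.pi * Complex.I * (i : ℂ) / ((N : ℂ) + 1)) ≠ 1 := by
    intro h1
    obtain ⟨n, hn⟩ := Complex.exp_eq_one_iff.1 h1
    have h2 : (i : ℂ) = n * ((N : ℂ) + 1) := by
      have hpi : (2 * Real.pi * Complex.I : ℂ) ≠ 0 := Complex.two_pi_I_ne_zero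
      field_simp at hn
      have h3 : (2 * Real.pi * Complex.I : ℂ) * (i : ℂ) =
          (2 * Real.pi * Complex.I : ℂ) * (n * ((N : ℂ) + 1)) := by
        linear_combination (2 * Real.pi * Complex.I : ℂ) * hn
      exact mul_left_cancel₀ hpi h3
    have h3 : i = n * ((N : ℤ) + 1) := by exact_mod_cast h2
    rcases eq_or_ne n 0 with h0 | h0
    · rw [h0, zero_mul] at h3
      exact hz h3
    · have h4 : 1 ≤ |n| := Int.one_le_abs h0
      have h5 : |i| = |n| * ((N : ℤ) + 1) := by
        rw [h3, abs_mul, abs_of_nonneg (by positivity : (0 : ℤ) ≤ (N : ℤ) + 1)]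
      nlinarith
  have hpow : Complex.exp (2 * Real.pi * Complex.I * (i : ℂ) / ((N : ℂ) + 1)) ^ (N + 1) = 1 := by
    rw [← Complex.exp_nat_mul, Complex.exp_eq_one_iff]
    refine ⟨i, ?_⟩
    push_cast
    field_simp
  rw [e, geom_sum_eq hne, hpow, sub_self, zero_div, zero_smul, smul_zero]

theorem Pm_one (hc : IsCrossedProduct h ι u) (N : ℕ) (f : C(X, ℂ)) : Pm hc N (ι f) = ι f := by
  unfold Pm
  have e : ∑ j ∈ Finset.range (N + 1), gam hc (2 * Real.pi * j / ((N : ℝ) + 1)) (ι f) =
      ((N : ℂ) + 1) • ι f := by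
    rw [Finset.sum_congr rfl fun j _ => gam_ι hc _ f, Finset.sum_const, Finset.card_range,
      ← Nat.cast_smul_eq_nsmul ℂ]
    push_cast
    rfl
  rw [e, smul_smul, inv_mul_cancel₀ (by exact_mod_cast Nat.succ_ne_zero N), one_smul]

/-- the means converge to the conditional expectation -/
theorem Pm_tendsto (hc : IsCrossedProduct h ι u)
    (hd : (MS ι (UU u hc.unitary)).topologicalClosure = ⊤) (E : A →L[ℂ] C(X, ℂ))
    (hE1 : ∀ f : C(X, ℂ), E (ι f) = f)
    (hE2 : ∀ (g : Zm) (f : C(X, ℂ)), g ≠ 1 → E (ι f * (UU u hc.unitary g : A)) = 0) (a : A) :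
    Tendsto (fun N : ℕ => Pm hc N a) atTop (𝓝 (ι (E a))) := by
  have hιc : Continuous ι := map_continuous ι
  let D : Submodule ℂ A :=
    { carrier := {a | Tendsto (fun N : ℕ => Pm hc N a) atTop (𝓝 (ι (E a)))}
      add_mem' := by
        intro a b ha hb
        have := Tendsto.add ha hb
        rw [← map_add, ← map_add] at this
        refine this.congr fun t => ?_
        rw [Pm_add]
      zero_mem' := by
        have e : ι (E 0) = 0 := by rw [map_zero, map_zero]
        show Tendsto (fun N : ℕ => Pm hc N 0) atTop (𝓝 (ι (E 0)))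
        rw [e]
        refine tendsto_const_nhds.congr fun t => ?_
        have := Pm_smul hc t 0 (0 : A)
        rw [zero_smul, zero_smul] at this
        exact this.symm
      smul_mem' := by
        intro c a ha
        have := Tendsto.const_smul ha c
        rw [← map_smul, ← map_smul] at this
        refine this.congr fun t => ?_
        rw [Pm_smul] }
  have hDm : ∀ a, a ∈ D ↔ Tendsto (fun N : ℕ => Pm hc N a) atTop (𝓝 (ι (E a))) :=
    fun a => Iff.rfl
  have hcl : IsClosed (D : Set A) := by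
    apply isClosed_of_closure_subset
    intro a ha
    show a ∈ D
    rw [hDm, Metric.tendsto_nhds]
    intro ε hε
    have hcE : Continuous fun b => ι (E b) := hιc.comp E.continuous
    obtain ⟨δ, hδ, hδ2⟩ := Metric.continuousAt_iff.1 hcE.continuousAt (ε / 3) (by positivity)
    obtain ⟨b, hb, hab⟩ := Metric.mem_closure_iff.1 ha (min δ (ε / 3)) (by positivity)
    have h1 := (Metric.tendsto_nhds.1 ((hDm b).1 hb)) (ε / 3) (by positivity)
    filter_upwards [h1] with N hN
    have h2 : dist (Pm hc N a) (Pm hc N b) ≤ dist a b := by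
      rw [dist_eq_norm, dist_eq_norm]
      have e : Pm hc N a - Pm hc N b = Pm hc N (a - b) := by
        have h3 := Pm_add hc N (a - b) b
        rw [sub_add_cancel] at h3
        rw [h3, add_sub_cancel_right]
      rw [e]
      exact Pm_norm hc N _
    have h3 : dist (ι (E b)) (ι (E a)) < ε / 3 :=
      hδ2 (by rw [dist_comm]; exact lt_of_lt_of_le hab (min_le_left _ _))
    have h4 : dist a b < ε / 3 := lt_of_lt_of_le hab (min_le_right _ _)
    calc dist (Pm hc N a) (ι (E a)) ≤ dist (Pm hc N a) (Pm hc N b) + dist (Pm hc N b) (ι (E a)) :=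
          dist_triangle _ _ _
      _ ≤ dist (Pm hc N a) (Pm hc N b) + (dist (Pm hc N b) (ι (E b)) +
          dist (ι (E b)) (ι (E a))) := add_le_add le_rfl (dist_triangle _ _ _)
      _ < ε := by linarith
  refine all_of_closed hd D hcl (fun g f => ?_) a
  rw [hDm]
  by_cases hg : g = 1
  · subst hg
    have e : ι f * (UU u hc.unitary 1 : A) = ι f := by
      rw [map_one]
      exact mul_one _
    rw [e, hE1]
    exact tendsto_const_nhds.congr fun N => (Pm_one hc N f).symm
  · rw [hE2 g f hg, map_zero]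
    refine tendsto_const_nhds.congr' ?_
    filter_upwards [eventually_ge_atTop (Multiplicative.toAdd g : ℤ).natAbs] with N hN
    refine (Pm_mono hc N g f hg ?_).symm
    have : (((Multiplicative.toAdd g : ℤ).natAbs : ℕ) : ℤ) ≤ N := by exact_mod_cast hN
    rwa [Int.natCast_natAbs] at this

/-- faithfulness -/
theorem faith (hc : IsCrossedProduct h ι u)
    (hd : (MS ι (UU u hc.unitary)).topologicalClosure = ⊤) (E : A →L[ℂ] C(X, ℂ))
    (hE1 : ∀ f : C(X, ℂ), E (ι f) = f)
    (hE2 : ∀ (g : Zm) (f : C(X, ℂ)), g ≠ 1 → E (ι f * (UU u hc.unitary g : A)) = 0) (a : A)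
    (ha : E (star a * a) = 0) : a = 0 := by
  let _ := CStarAlgebra.spectralOrder A
  have _ := CStarAlgebra.spectralOrderedRing A
  set b := star a * a with hb
  have hb0 : ∀ t, 0 ≤ gam hc t b := fun t => by
    rw [hb, map_mul, map_star]
    exact star_mul_self_nonneg _
  have hP := Pm_tendsto hc hd E hE1 hE2 b
  rw [ha, map_zero] at hP
  by_contra hne
  have hbn : 0 < ‖b‖ := by
    rw [hb, CStarRing.norm_star_mul_self]
    have := norm_pos_iff.2 hne
    positivity
  obtain ⟨κ, hκ, hκ2⟩ := Metric.tendsto_nhds_nhds.1 (gam_cont hc hd b) (‖b‖ / 2) (by positivity)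
  -- the lower bound of the means
  set c : ℝ := min 1 (κ / (4 * Real.pi)) with hcd
  have hc0 : 0 < c := lt_min one_pos (by positivity)
  have hlow : ∀ N : ℕ, c / 2 * ‖b‖ ≤ ‖Pm hc N b‖ := by
    intro N
    have hN0 : (0 : ℝ) < (N : ℝ) + 1 := by positivity
    set J := (Finset.range (N + 1)).filter fun j : ℕ => (j : ℝ) ≤ c * ((N : ℝ) + 1) with hJ
    have hJc : c * ((N : ℝ) + 1) ≤ J.card := by
      have h1 : Finset.range (min (N + 1) (⌊c * ((N : ℝ) + 1)⌋₊ + 1)) ⊆ J := by
        intro j hj
        rw [Finset.mem_range, lt_min_iff] at hj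
        rw [hJ, Finset.mem_filter, Finset.mem_range]
        refine ⟨hj.1, ?_⟩
        have h2 : j ≤ ⌊c * ((N : ℝ) + 1)⌋₊ := by omega
        exact (Nat.le_floor_iff (by positivity)).1 h2
      have h2 := Finset.card_le_card h1
      rw [Finset.card_range] at h2
      have h3 : c * ((N : ℝ) + 1) ≤ ((min (N + 1) (⌊c * ((N : ℝ) + 1)⌋₊ + 1) : ℕ) : ℝ) := by
        rw [Nat.cast_min]
        apply le_min
        · push_cast
          have : c ≤ 1 := min_le_left _ _
          nlinarith
        · push_cast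
          exact (Nat.lt_floor_add_one _).le
      exact h3.trans (by exact_mod_cast h2)
    have hsum : ‖∑ j ∈ J, gam hc (2 * Real.pi * j / ((N : ℝ) + 1)) b‖ ≤
        ‖∑ j ∈ Finset.range (N + 1), gam hc (2 * Real.pi * j / ((N : ℝ) + 1)) b‖ := by
      apply CStarAlgebra.norm_le_norm_of_nonneg_of_le (Finset.sum_nonneg fun j _ => hb0 _)
      exact Finset.sum_le_sum_of_subset_of_nonneg (Finset.filter_subset _ _) fun j _ _ => hb0 _
    have hJl : (J.card : ℝ) * (‖b‖ / 2) ≤ ‖∑ j ∈ J, gam hc (2 * Real.pi * j / ((N : ℝ) + 1)) b‖ := by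
      have h1 : (J.card : ℂ) • b = ∑ j ∈ J, gam hc (2 * Real.pi * j / ((N : ℝ) + 1)) b -
          ∑ j ∈ J, (gam hc (2 * Real.pi * j / ((N : ℝ) + 1)) b - b) := by
        rw [Finset.sum_sub_distrib, Finset.sum_const, sub_sub_cancel, Nat.cast_smul_eq_nsmul]
      have h2 : ‖∑ j ∈ J, (gam hc (2 * Real.pi * j / ((N : ℝ) + 1)) b - b)‖ ≤
          (J.card : ℝ) * (‖b‖ / 2) := by
        refine (norm_sum_le _ _).trans ?_
        have h3 : ∀ j ∈ J, ‖gam hc (2 * Real.pi * j / ((N : ℝ) + 1)) b - b‖ ≤ ‖b‖ / 2 := by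
          intro j hj
          rw [hJ, Finset.mem_filter] at hj
          have h4 := hκ2 (x := 2 * Real.pi * j / ((N : ℝ) + 1)) (by
            rw [Real.dist_eq, sub_zero, abs_of_nonneg (by positivity), div_lt_iff₀ hN0]
            have h5 : c * ((N : ℝ) + 1) ≤ κ / (4 * Real.pi) * ((N : ℝ) + 1) :=
              mul_le_mul_of_nonneg_right (min_le_right _ _) hN0.le
            have h6 : (j : ℝ) ≤ κ / (4 * Real.pi) * ((N : ℝ) + 1) := hj.2.trans h5
            calc 2 * Real.pi * (j : ℝ) ≤ 2 * Real.pi * (κ / (4 * Real.pi) * ((N : ℝ) + 1)) :=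
                  mul_le_mul_of_nonneg_left h6 (by positivity)
              _ = κ * ((N : ℝ) + 1) / 2 := by field_simp; ring
              _ < κ * ((N : ℝ) + 1) := by
                  have : 0 < κ * ((N : ℝ) + 1) := by positivity
                  linarith)
          rw [dist_eq_norm] at h4
          exact h4.le
        refine (Finset.sum_le_sum h3).trans ?_
        rw [Finset.sum_const, nsmul_eq_mul]
      have h3 : ‖(J.card : ℂ) • b‖ = (J.card : ℝ) * ‖b‖ := by
        rw [norm_smul, Complex.norm_natCast]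
      have h4 := norm_sub_le (∑ j ∈ J, gam hc (2 * Real.pi * j / ((N : ℝ) + 1)) b)
        (∑ j ∈ J, (gam hc (2 * Real.pi * j / ((N : ℝ) + 1)) b - b))
      rw [← h1, h3] at h4
      linarith
    unfold Pm
    rw [norm_smul, norm_inv]
    have h1 : ‖(N : ℂ) + 1‖ = (N : ℝ) + 1 := by
      have : (N : ℂ) + 1 = (((N : ℝ) + 1 : ℝ) : ℂ) := by push_cast; rfl
      rw [this, Complex.norm_real, Real.norm_of_nonneg (by positivity)]
    rw [h1]
    calc c / 2 * ‖b‖ = ((N : ℝ) + 1)⁻¹ * (c * ((N : ℝ) + 1) * (‖b‖ / 2)) := by field_simp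
      _ ≤ ((N : ℝ) + 1)⁻¹ * ((J.card : ℝ) * (‖b‖ / 2)) :=
          mul_le_mul_of_nonneg_left (mul_le_mul_of_nonneg_right hJc (by positivity))
            (by positivity)
      _ ≤ _ := mul_le_mul_of_nonneg_left (hJl.trans hsum) (by positivity)
  have h1 := hP.norm
  rw [norm_zero] at h1
  have h2 : c / 2 * ‖b‖ ≤ 0 := ge_of_tendsto h1 (Eventually.of_forall hlow)
  have h3 : 0 < c / 2 * ‖b‖ := by positivity
  linarith

end core

theorem s_UNIV : S_UNIV := by
  intro hEX X _ _ _ h A _ ι u hc
  letI := zact h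
  intro _
  obtain ⟨A₀, _, ι₀, u₀, E₀, h₀⟩ := hEX Zm X
  have htr : (tr (zt 1)⁻¹ : C(X, X)) = (h.symm : C(X, X)) := by
    ext x
    show (h ^ (-1 : ℤ)) x = h.symm x
    rw [_root_.zpow_neg_one]
    rfl
  have hcov1 : ∀ f : C(X, ℂ), u * ι f * star u = ι (f.comp (tr (zt 1)⁻¹)) := fun f => by
    rw [htr]
    exact hc.cov f
  have hcov := cov_all hc.unitary hcov1
  obtain ⟨Φ, hΦ1, hΦ2⟩ := hc.universal A₀ ι₀ (u₀ (zt 1) : A₀) (u₀ (zt 1)).2 fun f => by
    rw [h₀.cov, htr]
  have hΦU : ∀ g : Zm, Φ (UU u hc.unitary g : A) = (u₀ g : A₀) := by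
    intro g
    refine zm_induction (P := fun g => Φ (UU u hc.unitary g : A) = (u₀ g : A₀)) ?_ ?_ ?_ g
    · rw [UU_one, hΦ2]
    · intro g k hg hk
      have e2 : ((UU u hc.unitary (g * k) : unitary A) : A) =
          (UU u hc.unitary g : A) * (UU u hc.unitary k : A) := by
        rw [map_mul]
        rfl
      rw [e2, map_mul, hg, hk, map_mul]
      rfl
    · intro g hg
      have e1 : ((UU u hc.unitary g⁻¹ : unitary A) : A) = star (UU u hc.unitary g : A) := by
        rw [map_inv]
        rfl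
      rw [e1, map_star, hg, map_inv]
      rfl
  let ΦL : A →L[ℂ] A₀ := ⟨Φ.toLinearMap, map_continuous Φ⟩
  let E : A →L[ℂ] C(X, ℂ) := E₀.comp ΦL
  have hEd : ∀ a, E a = E₀ (Φ a) := fun a => rfl
  have hE1 : ∀ f : C(X, ℂ), E (ι f) = f := fun f => by
    rw [hEd, hΦ1, h₀.coeff_one]
  have hE2 : ∀ (g : Zm) (f : C(X, ℂ)), g ≠ 1 → E (ι f * (UU u hc.unitary g : A)) = 0 :=
    fun g f hg => by
      rw [hEd, map_mul, hΦ1, hΦU, h₀.coeff_ne g f hg]
  have hd := MS_dense hc.generated (U := UU u hc.unitary) (UU_one u hc.unitary) hcov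
  refine ⟨UU u hc.unitary, E, UU_one u hc.unitary, ⟨hcov, denseRange_of hd, hE1, hE2, ?_, ?_⟩⟩
  · intro a x
    rw [hEd, map_mul, map_star]
    exact h₀.pos (Φ a) x
  · intro a ha
    exact faith hc hd E hE1 hE2 a ha

end

end Pool.Agent.H190.MD

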