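import Pool.Graph.R_pool_sql_team_seeded_3997aac3.Q82.MD.Fin

/-!
# Rank-one convex functions `Q(F) + f(F e₁, det F)` of a real `2 × 2` matrix: the decoupled inequality
-/

set_option autoImplicit false

open Matrix Set Filter Topology MeasureTheory

namespace Pool.Agent.H190.MQ

open Pool.Agent.Helper188.Morrey

abbrev V2 := Fin 2 → ℝ

/-- the matrix with columns `c`, `d` -/
def cm (c d : V2) : M2 := !![c 0, d 0; c 1, d 1]

theorem det_cm (c d : V2) : (cm c d).det = crs c d := by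
  simp [cm, det_fin_two, crs]; ring

theorem cm_add (c d c' d' : V2) (t : ℝ) : cm c d + t • cm c' d' = cm (c + t • c') (d + t • d') := by
  ext i j; fin_cases i <;> fin_cases j <;> simp [cm]

theorem cm_col (c d : V2) : (fun i => cm c d i 0) = c := by
  ext i; fin_cases i <;> simp [cm]

theorem cm_self (F : M2) : cm (fun i => F i 0) (fun i => F i 1) = F := by
  ext i j; fin_cases i <;> fin_cases j <;> simp [cm]

/-- rotation by a right angle -/
def rot (c : V2) : V2 := ![-c 1, c 0]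

theorem crs_rot (c : V2) : crs c (rot c) = c 0 ^ 2 + c 1 ^ 2 := by
  simp [crs, rot]; ring

theorem nsq_pos {c : V2} (hc : c ≠ 0) : 0 < c 0 ^ 2 + c 1 ^ 2 := by
  by_contra h
  apply hc
  have h0 : c 0 = 0 := by nlinarith [sq_nonneg (c 0), sq_nonneg (c 1)]
  have h1 : c 1 = 0 := by nlinarith [sq_nonneg (c 0), sq_nonneg (c 1)]
  ext i; fin_cases i <;> simp [h0, h1]

theorem solve {c1 c2 : V2} (h : crs c1 c2 ≠ 0) (a b : ℝ) :
    ∃ d : V2, crs c1 d = a ∧ crs c2 d = b := by
  refine ⟨(-b / crs c1 c2) • c1 + (a / crs c1 c2) • c2, ?_, ?_⟩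
  · have e : crs c1 ((-b / crs c1 c2) • c1 + (a / crs c1 c2) • c2) = a / crs c1 c2 * crs c1 c2 := by
      simp only [crs, Pi.add_apply, Pi.smul_apply, smul_eq_mul]; ring
    rw [e, div_mul_cancel₀ _ h]
  · have e : crs c2 ((-b / crs c1 c2) • c1 + (a / crs c1 c2) • c2) = b / crs c1 c2 * crs c1 c2 := by
      simp only [crs, Pi.add_apply, Pi.smul_apply, smul_eq_mul]; ring
    rw [e, div_mul_cancel₀ _ h]

/-- expansion of a quadratic form on a segment -/
theorem quad_seg (Q : QuadraticForm ℝ M2) (F H : M2) (t : ℝ) :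
    (1 - t) * Q F + t * Q (F + H) - Q (F + t • H) = t * (1 - t) * Q H := by
  have h1 : Q (F + H) = Q F + Q H + QuadraticMap.polar Q F H := QuadraticMap.map_add Q F H
  have h2 : Q (F + t • H) = Q F + Q (t • H) + QuadraticMap.polar Q F (t • H) :=
    QuadraticMap.map_add Q F (t • H)
  rw [h1, h2, QuadraticMap.map_smul, QuadraticMap.polar_smul_right]
  simp only [smul_eq_mul]
  ring

theorem quad_cont (Q : QuadraticForm ℝ M2) : Continuous (fun F : M2 => Q F) := by
  obtain ⟨B, -, hB⟩ := Pool.Agent.Q82.MD.exists_bil Q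
  have := Pool.Agent.Q128.MD.cont_bil B
  have e : (fun F : M2 => B F F) = fun F : M2 => Q F := by
    funext F; exact hB F
  rwa [e] at this

/-- the class of functions -/
def Wf (Q : QuadraticForm ℝ M2) (f : V2 → ℝ → ℝ) (F : M2) : ℝ := Q F + f (fun i => F i 0) F.det

variable {Q : QuadraticForm ℝ M2} {f : V2 → ℝ → ℝ}

theorem P0 (hW : RankOneConvex (Wf Q f)) {c1 c2 : V2} (h : crs c1 c2 ≠ 0) (a b ν : ℝ) {t : ℝ}
    (h0 : 0 ≤ t) (h1 : t ≤ 1) :
    f (c1 + t • (c2 - c1)) ((1 - t) * a + t * b) ≤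
      (1 - t) * f c1 a + t * f c2 b + t * (1 - t) * Q (cm (c2 - c1) (ν • (c2 - c1))) := by
  obtain ⟨d, hd1, hd2⟩ := solve h a (b - ν * crs c1 c2)
  have hdH : (cm (c2 - c1) (ν • (c2 - c1))).det = 0 := by
    rw [det_cm]; simp only [crs, Pi.sub_apply, Pi.smul_apply, smul_eq_mul]; ring
  have hs := hW.seg (cm c1 d) (cm (c2 - c1) (ν • (c2 - c1))) hdH h0 h1
  have hq := quad_seg Q (cm c1 d) (cm (c2 - c1) (ν • (c2 - c1))) t
  have e1 : cm c1 d + cm (c2 - c1) (ν • (c2 - c1)) = cm c2 (d + ν • (c2 - c1)) := by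
    have := cm_add c1 d (c2 - c1) (ν • (c2 - c1)) 1
    simp only [one_smul] at this
    rw [this]; congr 1; abel
  rw [cm_add] at hs hq
  rw [e1] at hs hq
  simp only [Wf, cm_col, det_cm] at hs
  have e2 : crs (c1 + t • (c2 - c1)) (d + t • ν • (c2 - c1)) = (1 - t) * a + t * b := by
    have hb : b = crs c2 d + ν * crs c1 c2 := by linarith
    rw [hb, ← hd1]
    simp only [crs, Pi.add_apply, Pi.sub_apply, Pi.smul_apply, smul_eq_mul]; ring
  have e3 : crs c2 (d + ν • (c2 - c1)) = b := by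
    have hb : b = crs c2 d + ν * crs c1 c2 := by linarith
    rw [hb]
    simp only [crs, Pi.add_apply, Pi.sub_apply, Pi.smul_apply, smul_eq_mul]; ring
  rw [e2, e3, hd1] at hs
  linarith

/-- `f` in terms of `W` -/
theorem f_eq {c : V2} (hc : c ≠ 0) (a : ℝ) :
    f c a = Wf Q f (cm c ((a / (c 0 ^ 2 + c 1 ^ 2)) • rot c))
      - Q (cm c ((a / (c 0 ^ 2 + c 1 ^ 2)) • rot c)) := by
  have h := nsq_pos hc
  have e : crs c ((a / (c 0 ^ 2 + c 1 ^ 2)) • rot c) = a := by
    have e1 : crs c ((a / (c 0 ^ 2 + c 1 ^ 2)) • rot c)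
        = (a / (c 0 ^ 2 + c 1 ^ 2)) * crs c (rot c) := by
      simp only [crs, Pi.smul_apply, smul_eq_mul]; ring
    rw [e1, crs_rot, div_mul_cancel₀ _ h.ne']
  simp only [Wf, cm_col, det_cm, e]
  ring

theorem cont_cm : Continuous (fun p : V2 × V2 => cm p.1 p.2) := by
  refine continuous_matrix fun i j => ?_
  fin_cases i <;> fin_cases j <;> simp [cm] <;> fun_prop

theorem cont_rot : Continuous rot := by
  refine continuous_pi fun i => ?_
  fin_cases i <;> simp [rot] <;> fun_prop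

theorem f_cont (hW : RankOneConvex (Wf Q f)) {c : V2} (hc : c ≠ 0) (a : ℝ) :
    ContinuousAt (fun c => f c a) c := by
  have h1 : ContinuousAt (fun c : V2 => cm c ((a / (c 0 ^ 2 + c 1 ^ 2)) • rot c)) c := by
    have h2 : ContinuousAt (fun c : V2 => (c, (a / (c 0 ^ 2 + c 1 ^ 2)) • rot c)) c := by
      have h3 : ContinuousAt (fun c : V2 => a / (c 0 ^ 2 + c 1 ^ 2)) c := by
        refine ContinuousAt.div continuousAt_const ?_ (nsq_pos hc).ne'
        fun_prop
      have h4 : ContinuousAt (fun c : V2 => rot c) c := cont_rot.continuousAt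
      have h5 : ContinuousAt (fun c : V2 => (a / (c 0 ^ 2 + c 1 ^ 2)) • rot c) c := h3.smul h4
      exact continuousAt_id.prodMk h5
    exact ContinuousAt.comp (g := fun p : V2 × V2 => cm p.1 p.2) cont_cm.continuousAt h2
  have h3 : ContinuousAt (fun c : V2 => Wf Q f (cm c ((a / (c 0 ^ 2 + c 1 ^ 2)) • rot c))
      - Q (cm c ((a / (c 0 ^ 2 + c 1 ^ 2)) • rot c))) c :=
    (ContinuousAt.comp (g := Wf Q f) hW.continuous.continuousAt h1).sub
      (ContinuousAt.comp (g := fun F : M2 => Q F) (quad_cont Q).continuousAt h1)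
  refine h3.congr ?_
  filter_upwards [isOpen_ne.mem_nhds hc] with c' hc'
  exact (f_eq hc' a).symm

theorem crs_self (c : V2) : crs c c = 0 := by simp only [crs]; ring

/-- the inequality for all pairs, away from zero -/
theorem P1 (hW : RankOneConvex (Wf Q f)) {c1 c2 : V2} (hc1 : c1 ≠ 0) (hc2 : c2 ≠ 0) (a b ν : ℝ)
    {t : ℝ} (h0 : 0 ≤ t) (h1 : t ≤ 1) (hct : c1 + t • (c2 - c1) ≠ 0) :
    f (c1 + t • (c2 - c1)) ((1 - t) * a + t * b) ≤
      (1 - t) * f c1 a + t * f c2 b + t * (1 - t) * Q (cm (c2 - c1) (ν • (c2 - c1))) := by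
  by_cases h : crs c1 c2 = 0
  swap
  · exact P0 hW h a b ν h0 h1
  set w := rot (c1 + t • (c2 - c1)) with hw
  have hwpos : 0 < crs (c1 + t • (c2 - c1)) w := by
    rw [hw, crs_rot]; exact nsq_pos hct
  -- perturbed points
  have key : ∀ s : ℝ, s ≠ 0 →
      f (c1 + t • (c2 - c1)) ((1 - t) * a + t * b) ≤
      (1 - t) * f (c1 + (t * s) • w) a + t * f (c2 - ((1 - t) * s) • w) b
        + t * (1 - t) * Q (cm (c2 - c1 - s • w) (ν • (c2 - c1 - s • w))) := by
    intro s hs
    have hne : crs (c1 + (t * s) • w) (c2 - ((1 - t) * s) • w) ≠ 0 := by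
      have e : crs (c1 + (t * s) • w) (c2 - ((1 - t) * s) • w)
          = crs c1 c2 - s * crs (c1 + t • (c2 - c1)) w := by
        simp only [crs, Pi.add_apply, Pi.sub_apply, Pi.smul_apply, smul_eq_mul]; ring
      rw [e, h, zero_sub]
      exact neg_ne_zero.2 (mul_ne_zero hs hwpos.ne')
    have hP := P0 hW hne a b ν h0 h1
    have e1 : c2 - ((1 - t) * s) • w - (c1 + (t * s) • w) = c2 - c1 - s • w := by
      module
    rw [e1] at hP
    have e2 : c1 + (t * s) • w + t • (c2 - c1 - s • w) = c1 + t • (c2 - c1) := by module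
    rwa [e2] at hP
  have hl1 : Tendsto (fun s : ℝ => c1 + (t * s) • w) (𝓝[≠] 0) (𝓝 c1) := by
    have : Continuous (fun s : ℝ => c1 + (t * s) • w) := by fun_prop
    have h := this.tendsto 0
    simp only [mul_zero, zero_smul, add_zero] at h
    exact h.mono_left nhdsWithin_le_nhds
  have hl2 : Tendsto (fun s : ℝ => c2 - ((1 - t) * s) • w) (𝓝[≠] 0) (𝓝 c2) := by
    have : Continuous (fun s : ℝ => c2 - ((1 - t) * s) • w) := by fun_prop
    have h := this.tendsto 0
    simp only [mul_zero, zero_smul, sub_zero] at h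
    exact h.mono_left nhdsWithin_le_nhds
  have hl3 : Tendsto (fun s : ℝ => Q (cm (c2 - c1 - s • w) (ν • (c2 - c1 - s • w)))) (𝓝[≠] 0)
      (𝓝 (Q (cm (c2 - c1) (ν • (c2 - c1))))) := by
    have h4 : Continuous (fun s : ℝ => Q (cm (c2 - c1 - s • w) (ν • (c2 - c1 - s • w)))) := by
      have h5 : Continuous (fun s : ℝ => ((c2 - c1 - s • w, ν • (c2 - c1 - s • w)) : V2 × V2)) := by
        fun_prop
      exact (quad_cont Q).comp (cont_cm.comp h5)
    have h := h4.tendsto 0
    simp only [zero_smul, sub_zero] at h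
    exact h.mono_left nhdsWithin_le_nhds
  have hf1 : Tendsto (fun s : ℝ => f (c1 + (t * s) • w) a) (𝓝[≠] 0) (𝓝 (f c1 a)) :=
    (f_cont hW hc1 a).tendsto.comp hl1
  have hf2 : Tendsto (fun s : ℝ => f (c2 - ((1 - t) * s) • w) b) (𝓝[≠] 0) (𝓝 (f c2 b)) :=
    (f_cont hW hc2 b).tendsto.comp hl2
  have hlim := ((hf1.const_mul (1 - t)).add (hf2.const_mul t)).add (hl3.const_mul (t * (1 - t)))
  refine ge_of_tendsto hlim ?_
  filter_upwards [self_mem_nhdsWithin] with s hs
  exact key s hs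

/-- convexity in the determinant -/
theorem convex_det (hW : RankOneConvex (Wf Q f)) {c : V2} (hc : c ≠ 0) :
    ConvexOn ℝ univ (f c) := by
  refine ⟨convex_univ, fun x _ y _ p q hp hq hpq => ?_⟩
  have h := P1 hW hc hc x y 0 hq (by linarith : q ≤ 1) (by simpa using hc)
  have hp' : p = 1 - q := by linarith
  have e : Q (cm (c - c) ((0:ℝ) • (c - c))) = 0 := by
    have : cm (c - c) ((0:ℝ) • (c - c)) = 0 := by
      ext i j; fin_cases i <;> fin_cases j <;> simp [cm]
    rw [this, QuadraticMap.map_zero]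
  rw [e] at h
  simp only [sub_self, smul_zero, add_zero, mul_zero] at h
  rw [hp']
  simpa only [smul_eq_mul] using h

/-- a subgradient -/
theorem exists_sub {g : ℝ → ℝ} (hg : ConvexOn ℝ univ g) (x : ℝ) :
    ∃ k : ℝ, ∀ y, g x + k * (y - x) ≤ g y := by
  refine ⟨derivWithin g (Ioi x) x, fun y => ?_⟩
  have hxi : x ∈ interior (univ : Set ℝ) := by simp
  rcases lt_trichotomy x y with h | h | h
  · have h1 := hg.rightDeriv_le_slope_of_mem_interior hxi (mem_univ y) h
    rw [slope_def_field, le_div_iff₀ (by linarith)] at h1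
    linarith
  · subst h; simp
  · have h1 := hg.slope_le_leftDeriv_of_mem_interior (mem_univ y) hxi h
    have h2 := hg.leftDeriv_le_rightDeriv_of_mem_interior hxi
    have h3 := h1.trans h2
    rw [slope_def_field, div_le_iff₀ (by linarith)] at h3
    linarith

end Pool.Agent.H190.MQ
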