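import Pool.Agent.H190.MQ1

/-!
# Rank-one convex functions `Q(F) + f(F e₁, det F)`: minorants `Q(F) + k det F + h(F e₁)`
-/

set_option autoImplicit false

open Matrix Set Filter Topology MeasureTheory

namespace Pool.Agent.H190.MQ

open Pool.Agent.Helper188.Morrey

variable {Q : QuadraticForm ℝ M2} {f : V2 → ℝ → ℝ}

/-- partial Legendre transform in the determinant -/
noncomputable def ph (f : V2 → ℝ → ℝ) (k : ℝ) (c : V2) : ℝ := ⨅ a : ℝ, (f c a - k * a)

theorem bdd {k : ℝ} (hW : RankOneConvex (Wf Q f)) {c0 : V2} (hc0 : c0 ≠ 0) {a0 : ℝ}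
    (hk : ∀ a, f c0 a0 + k * (a - a0) ≤ f c0 a) {c : V2} (hc : c ≠ 0) :
    BddBelow (range fun a : ℝ => f c a - k * a) := by
  by_cases h : (2 : ℝ) • c0 - c = 0
  · have hc2 : (1 / 2 : ℝ) • c0 ≠ 0 := smul_ne_zero (by norm_num) hc0
    have hcc : c = (2 : ℝ) • c0 := (sub_eq_zero.1 h).symm
    have e : c + (2 / 3 : ℝ) • ((1 / 2 : ℝ) • c0 - c) = c0 := by rw [hcc]; module
    refine ⟨3 * (f c0 a0 - k * a0) - 2 * f ((1 / 2 : ℝ) • c0) 0
      - 2 / 3 * Q (cm ((1 / 2 : ℝ) • c0 - c) ((0 : ℝ) • ((1 / 2 : ℝ) • c0 - c))), ?_⟩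
    rintro _ ⟨a, rfl⟩
    have hP := P1 hW hc hc2 a 0 0 (t := 2 / 3) (by norm_num) (by norm_num) (by rw [e]; exact hc0)
    rw [e] at hP
    have h2 := hk ((1 - 2 / 3) * a + 2 / 3 * 0)
    simp only [mul_zero, add_zero] at hP h2 ⊢
    linarith
  · have e : c + (1 / 2 : ℝ) • ((2 : ℝ) • c0 - c - c) = c0 := by module
    refine ⟨2 * (f c0 a0 - k * a0) - f ((2 : ℝ) • c0 - c) 0
      - 1 / 2 * Q (cm ((2 : ℝ) • c0 - c - c) ((0 : ℝ) • ((2 : ℝ) • c0 - c - c))), ?_⟩
    rintro _ ⟨a, rfl⟩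
    have hP := P1 hW hc h a 0 0 (t := 1 / 2) (by norm_num) (by norm_num) (by rw [e]; exact hc0)
    rw [e] at hP
    have h2 := hk ((1 - 1 / 2) * a + 1 / 2 * 0)
    simp only [mul_zero, add_zero] at hP h2 ⊢
    linarith

theorem ph_ineq {k : ℝ} (hW : RankOneConvex (Wf Q f)) {c0 : V2} (hc0 : c0 ≠ 0) {a0 : ℝ}
    (hk : ∀ a, f c0 a0 + k * (a - a0) ≤ f c0 a) {c1 c2 : V2} (hc1 : c1 ≠ 0) (hc2 : c2 ≠ 0) (ν : ℝ)
    {t : ℝ} (h0 : 0 ≤ t) (h1 : t ≤ 1) (hct : c1 + t • (c2 - c1) ≠ 0) :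
    ph f k (c1 + t • (c2 - c1)) ≤
      (1 - t) * ph f k c1 + t * ph f k c2 + t * (1 - t) * Q (cm (c2 - c1) (ν • (c2 - c1))) := by
  refine le_of_forall_pos_le_add fun ε hε => ?_
  obtain ⟨a, ha⟩ := exists_lt_of_ciInf_lt (show ph f k c1 < ph f k c1 + ε by linarith)
  obtain ⟨b, hb⟩ := exists_lt_of_ciInf_lt (show ph f k c2 < ph f k c2 + ε by linarith)
  have hP := P1 hW hc1 hc2 a b ν h0 h1 hct
  have h3 : ph f k (c1 + t • (c2 - c1)) ≤
      f (c1 + t • (c2 - c1)) ((1 - t) * a + t * b) - k * ((1 - t) * a + t * b) :=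
    ciInf_le (bdd hW hc0 hk hct) _
  have h4 : (1 - t) * (f c1 a - k * a) ≤ (1 - t) * (ph f k c1 + ε) :=
    mul_le_mul_of_nonneg_left ha.le (by linarith)
  have h5 : t * (f c2 b - k * b) ≤ t * (ph f k c2 + ε) := mul_le_mul_of_nonneg_left hb.le h0
  nlinarith

theorem ph_cont {k : ℝ} (hW : RankOneConvex (Wf Q f)) {c0 : V2} (hc0 : c0 ≠ 0) {a0 : ℝ}
    (hk : ∀ a, f c0 a0 + k * (a - a0) ≤ f c0 a) {c : V2} (hc : c ≠ 0) :
    ContinuousAt (ph f k) c := by
  have hq : Continuous (fun c : V2 => Q (cm c ((0 : ℝ) • c))) := by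
    have h5 : Continuous (fun c : V2 => ((c, (0 : ℝ) • c) : V2 × V2)) := by fun_prop
    exact (quad_cont Q).comp (cont_cm.comp h5)
  have hconv : ConvexOn ℝ (Metric.ball c ‖c‖) (fun c => ph f k c + Q (cm c ((0 : ℝ) • c))) := by
    refine ⟨convex_ball _ _, fun x hx y hy p q hp hq hpq => ?_⟩
    have hz : ∀ z ∈ Metric.ball c ‖c‖, z ≠ 0 := by
      intro z hz h
      rw [h, Metric.mem_ball, dist_comm, dist_zero_right] at hz
      exact lt_irrefl _ hz
    have hp' : p = 1 - q := by linarith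
    have e : p • x + q • y = x + q • (y - x) := by rw [hp']; module
    have hmem := (convex_ball c ‖c‖) hx hy hp hq hpq
    rw [e] at hmem ⊢
    have h1 := ph_ineq hW hc0 hk (hz x hx) (hz y hy) 0 hq (by linarith) (hz _ hmem)
    have h2 := quad_seg Q (cm x ((0 : ℝ) • x)) (cm (y - x) ((0 : ℝ) • (y - x))) q
    have e1 : cm x ((0 : ℝ) • x) + cm (y - x) ((0 : ℝ) • (y - x)) = cm y ((0 : ℝ) • y) := by
      have := cm_add x ((0 : ℝ) • x) (y - x) ((0 : ℝ) • (y - x)) 1
      simp only [one_smul] at this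
      rw [this]; congr 1 <;> module
    have e2 : cm x ((0 : ℝ) • x) + q • cm (y - x) ((0 : ℝ) • (y - x))
        = cm (x + q • (y - x)) ((0 : ℝ) • (x + q • (y - x))) := by
      rw [cm_add]; congr 1; module
    rw [e1, e2] at h2
    simp only [smul_eq_mul]
    rw [hp']
    nlinarith
  have h1 : ContinuousAt (fun c => ph f k c + Q (cm c ((0 : ℝ) • c))) c :=
    (hconv.continuousOn Metric.isOpen_ball).continuousAt
      (Metric.isOpen_ball.mem_nhds (Metric.mem_ball_self (norm_pos_iff.2 hc)))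
  have h2 := h1.sub hq.continuousAt
  refine h2.congr (Eventually.of_forall fun x => ?_)
  simp

theorem cm_zero : cm 0 0 = 0 := by
  ext i j; fin_cases i <;> fin_cases j <;> simp [cm]

/-- the minorant -/
theorem exists_minorant (hW : RankOneConvex (Wf Q f)) {c0 : V2} (hc0 : c0 ≠ 0) (a0 : ℝ) :
    ∃ (h : V2 → ℝ) (k : ℝ), (∀ c a, (c ≠ 0 ∨ a = 0) → h c + k * a ≤ f c a) ∧
      h c0 + k * a0 = f c0 a0 ∧
      ∀ (c1 c2 : V2) (ν t : ℝ), 0 ≤ t → t ≤ 1 → h (c1 + t • (c2 - c1)) ≤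
        (1 - t) * h c1 + t * h c2 + t * (1 - t) * Q (cm (c2 - c1) (ν • (c2 - c1))) := by
  obtain ⟨k, hk⟩ := exists_sub (convex_det hW hc0) a0
  set w : ℕ → V2 := fun n => (1 / ((n : ℝ) + 1)) • c0 with hwdef
  have hw0 : ∀ n, w n ≠ 0 := fun n => smul_ne_zero (by positivity) hc0
  have hwt : Tendsto w atTop (𝓝 0) := by
    have h1 : Tendsto (fun n : ℕ => (1 / ((n : ℝ) + 1))) atTop (𝓝 0) :=
      tendsto_one_div_add_atTop_nhds_zero_nat
    have h2 := h1.smul_const c0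
    rw [zero_smul] at h2
    exact h2
  -- upper bound
  have hf0 : ∀ c : V2, f c 0 = Wf Q f (cm c 0) - Q (cm c 0) := by
    intro c
    have : crs c 0 = 0 := by simp [crs]
    simp only [Wf, cm_col, det_cm, this]; ring
  have hcm0 : Continuous (fun c : V2 => cm c 0) := by
    have h5 : Continuous (fun c : V2 => ((c, 0) : V2 × V2)) := by fun_prop
    exact cont_cm.comp h5
  have hfc : Continuous (fun c : V2 => f c 0) := by
    have : (fun c : V2 => f c 0) = fun c => Wf Q f (cm c 0) - Q (cm c 0) := funext hf0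
    rw [this]
    exact (hW.continuous.comp hcm0).sub ((quad_cont Q).comp hcm0)
  have hup : ∀ n, ph f k (w n) ≤ f (w n) 0 := fun n => by
    have h1 : ph f k (w n) ≤ f (w n) 0 - k * 0 := ciInf_le (bdd hW hc0 hk (hw0 n)) 0
    linarith
  have hupt : Tendsto (fun n => f (w n) 0) atTop (𝓝 (f 0 0)) := (hfc.tendsto 0).comp hwt
  -- lower bound
  have hlo : ∀ n, 2 * ph f k ((1 / 2 : ℝ) • (w n + c0)) - ph f k c0
      - 1 / 2 * Q (cm (c0 - w n) ((0 : ℝ) • (c0 - w n))) ≤ ph f k (w n) := by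
    intro n
    have e : w n + (1 / 2 : ℝ) • (c0 - w n) = (1 / 2 : ℝ) • (w n + c0) := by module
    have hne : (1 / 2 : ℝ) • (w n + c0) ≠ 0 := by
      have : (1 / 2 : ℝ) • (w n + c0) = ((1 / 2 : ℝ) * (1 / ((n : ℝ) + 1) + 1)) • c0 := by
        rw [hwdef]; module
      rw [this]
      exact smul_ne_zero (by positivity) hc0
    have h1 := ph_ineq hW hc0 hk (hw0 n) hc0 0 (t := 1 / 2) (by norm_num) (by norm_num)
      (by rw [e]; exact hne)
    rw [e] at h1
    linarith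
  have hlot : Tendsto (fun n => 2 * ph f k ((1 / 2 : ℝ) • (w n + c0)) - ph f k c0
      - 1 / 2 * Q (cm (c0 - w n) ((0 : ℝ) • (c0 - w n)))) atTop
      (𝓝 (2 * ph f k ((1 / 2 : ℝ) • (0 + c0)) - ph f k c0
      - 1 / 2 * Q (cm (c0 - 0) ((0 : ℝ) • (c0 - 0))))) := by
    have h1 : Tendsto (fun n => (1 / 2 : ℝ) • (w n + c0)) atTop (𝓝 ((1 / 2 : ℝ) • (0 + c0))) :=
      (hwt.add_const c0).const_smul _
    have hne : (1 / 2 : ℝ) • (0 + c0) ≠ 0 := by
      rw [zero_add]; exact smul_ne_zero (by norm_num) hc0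
    have h2 := (ph_cont hW hc0 hk hne).tendsto.comp h1
    have h3 : Continuous (fun c : V2 => Q (cm (c0 - c) ((0 : ℝ) • (c0 - c)))) := by
      have h5 : Continuous (fun c : V2 => ((c0 - c, (0 : ℝ) • (c0 - c)) : V2 × V2)) := by fun_prop
      exact (quad_cont Q).comp (cont_cm.comp h5)
    have h4 := (h3.tendsto 0).comp hwt
    exact ((h2.const_mul 2).sub_const _).sub (h4.const_mul _)
  obtain ⟨M, hM⟩ := hupt.bddAbove_range
  obtain ⟨m, hm⟩ := hlot.bddBelow_range
  have hmem : ∀ n, ph f k (w n) ∈ Icc m M := fun n =>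
    ⟨(hm (mem_range_self n)).trans (hlo n), (hup n).trans (hM (mem_range_self n))⟩
  obtain ⟨l, -, u, hu, hul⟩ := isCompact_Icc.tendsto_subseq hmem
  have hwu : Tendsto (fun j => w (u j)) atTop (𝓝 0) := hwt.comp hu.tendsto_atTop
  set h : V2 → ℝ := fun c => if c = 0 then l else ph f k c with hh
  have hne : ∀ c : V2, c ≠ 0 → h c = ph f k c := fun c hc => by simp [hh, hc]
  have hz : h 0 = l := by simp [hh]
  have hev : ∀ c : V2, ∀ᶠ j in atTop, c + w (u j) ≠ 0 := by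
    intro c
    by_cases hc : c = 0
    · subst hc
      refine Eventually.of_forall fun j => ?_
      rw [zero_add]; exact hw0 _
    · have h1 : Tendsto (fun j => c + w (u j)) atTop (𝓝 (c + 0)) := hwu.const_add c
      rw [add_zero] at h1
      exact h1.eventually (isOpen_ne.mem_nhds hc)
  have hlim : ∀ c : V2, Tendsto (fun j => h (c + w (u j))) atTop (𝓝 (h c)) := by
    intro c
    by_cases hc : c = 0
    · subst hc
      rw [hz]
      refine hul.congr fun j => ?_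
      rw [zero_add, hne _ (hw0 _)]
      rfl
    · rw [hne c hc]
      have h1 : Tendsto (fun j => c + w (u j)) atTop (𝓝 (c + 0)) := hwu.const_add c
      rw [add_zero] at h1
      have h2 := (ph_cont hW hc0 hk hc).tendsto.comp h1
      refine h2.congr' ?_
      filter_upwards [hev c] with j hj
      rw [hne _ hj]
      rfl
  refine ⟨h, k, fun c a hca => ?_, ?_, fun c1 c2 ν t h0 h1 => ?_⟩
  · by_cases hc : c = 0
    · subst hc
      have ha : a = 0 := by
        rcases hca with hca | hca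
        · exact absurd rfl hca
        · exact hca
      subst ha
      rw [hz, mul_zero, add_zero]
      exact le_of_tendsto_of_tendsto hul (hupt.comp hu.tendsto_atTop)
        (Eventually.of_forall fun j => hup _)
    · rw [hne c hc]
      have := ciInf_le (bdd hW hc0 hk hc) a
      have h2 : ph f k c ≤ f c a - k * a := this
      linarith
  · rw [hne c0 hc0]
    have h1 : ph f k c0 = f c0 a0 - k * a0 := by
      refine le_antisymm (ciInf_le (bdd hW hc0 hk hc0) a0) ?_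
      refine le_ciInf fun a => ?_
      have := hk a
      linarith
    rw [h1]; ring
  · have hR := ((hlim c1).const_mul (1 - t)).add ((hlim c2).const_mul t)
    have hR2 := hR.add_const (t * (1 - t) * Q (cm (c2 - c1) (ν • (c2 - c1))))
    refine le_of_tendsto_of_tendsto (hlim (c1 + t • (c2 - c1))) hR2 ?_
    filter_upwards [hev c1, hev c2, hev (c1 + t • (c2 - c1))] with j hj1 hj2 hj3
    have e1 : c2 + w (u j) - (c1 + w (u j)) = c2 - c1 := by abel
    have e2 : c1 + w (u j) + t • (c2 + w (u j) - (c1 + w (u j)))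
        = c1 + t • (c2 - c1) + w (u j) := by rw [e1]; abel
    have h5 := ph_ineq hW hc0 hk hj1 hj2 ν h0 h1 (by rw [e2]; exact hj3)
    rw [e2, e1] at h5
    rw [hne _ hj1, hne _ hj2, hne _ hj3]
    exact h5

end Pool.Agent.H190.MQ
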