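import Pool.Agent.H190.MQ2

/-!
# Rank-one convex functions `Q(F) + f(F n, det F)` and `Q(F) + f(Fᵀ m, det F)` are quasiconvex
-/

set_option autoImplicit false

open Matrix Set Filter Topology MeasureTheory

namespace Pool.Agent.H190.MQ

open Pool.Agent.Helper188.Morrey

abbrev QC := Pool.Agent.Q82.MD.Quasiconvex

/-- entries as linear forms -/
def ent (i j : Fin 2) : M2 →ₗ[ℝ] ℝ :=
  { toFun := fun F => F i j, map_add' := fun _ _ => rfl, map_smul' := fun _ _ => rfl }

/-- the determinant as a quadratic form -/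
noncomputable def detQ : QuadraticForm ℝ M2 :=
  QuadraticMap.linMulLin (ent 0 0) (ent 1 1) - QuadraticMap.linMulLin (ent 0 1) (ent 1 0)

theorem detQ_apply (F : M2) : detQ F = F.det := by
  rw [det_fin_two]; rfl

variable {Q : QuadraticForm ℝ M2} {f : V2 → ℝ → ℝ}

theorem col_eq (F : M2) : F.mulVec (Pi.single 0 1) = fun i => F i 0 := by
  rw [Matrix.mulVec_single_one]; rfl

theorem seg_eq (F H : M2) (t : ℝ) : (1 - t) • F + t • (F + H) = F + t • H := by
  rw [smul_add, sub_smul, one_smul]; abel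

theorem Q_nonneg (hW : RankOneConvex (Wf Q f)) (η : V2) : 0 ≤ Q (cm 0 η) := by
  have hd : (cm 0 η).det = 0 := by rw [det_cm]; simp [crs]
  have h := hW.seg (cm η 0) (cm 0 η) hd (t := 1 / 2) (by norm_num) (by norm_num)
  have hq := quad_seg Q (cm η 0) (cm 0 η) (1 / 2)
  have e1 : cm η 0 + cm 0 η = cm η η := by
    have := cm_add η 0 0 η 1
    simpa using this
  have e2 : cm η 0 + (1 / 2 : ℝ) • cm 0 η = cm η ((1 / 2 : ℝ) • η) := by
    have := cm_add η 0 0 η (1 / 2)
    rw [this]; congr 1 <;> simp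
  rw [e1, e2] at h hq
  have d1 : crs η 0 = 0 := by simp [crs]
  have d2 : crs η ((1 / 2 : ℝ) • η) = 0 := by
    simp only [crs, Pi.smul_apply, smul_eq_mul]; ring
  simp only [Wf, cm_col, det_cm, d1, d2, crs_self] at h
  linarith

theorem T_roc (hW : RankOneConvex (Wf Q f)) {h : V2 → ℝ} (k : ℝ)
    (hh : ∀ (c1 c2 : V2) (ν t : ℝ), 0 ≤ t → t ≤ 1 → h (c1 + t • (c2 - c1)) ≤
        (1 - t) * h c1 + t * h c2 + t * (1 - t) * Q (cm (c2 - c1) (ν • (c2 - c1)))) :
    Pool.Agent.Q82.MD.RankOneConvex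
      (fun F => h (F.mulVec (Pi.single 0 1)) + (Q + k • detQ) F) := by
  intro F H hH t h0 h1
  have hd := det_eq_zero_of_rank hH.le
  have hq := quad_seg (Q + k • detQ) F H t
  rw [seg_eq]
  simp only [col_eq]
  have e0 : (Q + k • detQ) H = Q H := by
    simp [detQ_apply, hd]
  rw [e0] at hq
  have ec : (fun i => (F + t • H) i 0) = (fun i => F i 0) + t • (fun i => H i 0) := rfl
  have ec2 : (fun i => (F + H) i 0) = (fun i => F i 0) + (fun i => H i 0) := rfl
  rw [ec, ec2]
  set c : V2 := fun i => F i 0 with hc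
  set ξ : V2 := fun i => H i 0 with hξ
  set η : V2 := fun i => H i 1 with hη
  have hHc : H = cm ξ η := (cm_self H).symm
  have key : h (c + t • ξ) ≤ (1 - t) * h c + t * h (c + ξ) + t * (1 - t) * Q H := by
    by_cases hξ0 : ξ = 0
    · have hQ : 0 ≤ Q H := by rw [hHc, hξ0]; exact Q_nonneg hW η
      have h3 : 0 ≤ t * (1 - t) * Q H := mul_nonneg (mul_nonneg h0 (by linarith)) hQ
      rw [hξ0, smul_zero, add_zero]
      linarith
    · have hpos := nsq_pos hξ0
      have hcr : crs ξ η = 0 := by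
        rw [← det_cm, ← hHc]; exact hd
      set ν := (ξ 0 * η 0 + ξ 1 * η 1) / (ξ 0 ^ 2 + ξ 1 ^ 2) with hν
      have hην : η = ν • ξ := by
        simp only [crs] at hcr
        ext i
        fin_cases i
        · simp only [Pi.smul_apply, smul_eq_mul, hν, Fin.zero_eta]
          field_simp
          linear_combination (ξ 1) * (-hcr)
        · simp only [Pi.smul_apply, smul_eq_mul, hν, Fin.mk_one]
          field_simp
          linear_combination (ξ 0) * hcr
      have h3 := hh c (c + ξ) ν t h0 h1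
      have e : c + ξ - c = ξ := by abel
      rw [e, ← hην, ← hHc] at h3
      exact h3
  linarith

/-- quasiconvexity at matrices with a nonzero first column -/
theorem qc_at (hW : RankOneConvex (Wf Q f)) (F₀ : M2) (hF : (fun i => F₀ i 0) ≠ (0 : V2))
    (Ω : Set (Fin 2 → ℝ)) (hΩ : IsOpen Ω) (hb : Bornology.IsBounded Ω)
    (ϑ : (Fin 2 → ℝ) → (Fin 2 → ℝ)) (hK : ∃ K, LipschitzWith K ϑ) (h0 : ∀ x, x ∉ Ω → ϑ x = 0) :
    Wf Q f F₀ * (volume Ω).toReal ≤ ∫ x in Ω, Wf Q f (F₀ + grad ϑ x) := by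
  obtain ⟨h, k, h1, h2, h3⟩ := exists_minorant hW hF F₀.det
  have hT := T_roc hW k h3
  have hq := Pool.Agent.Q82.MD.gen1 Pool.Agent.Q82.MD.hC Q144.MD.lc h (Pi.single 0 1)
    (Q + k • detQ) hT F₀ Ω hΩ hb ϑ hK h0
  have hTc : Continuous (fun F : M2 => h (F.mulVec (Pi.single 0 1)) + (Q + k • detQ) F) :=
    RankOneConvex.continuous hT
  have hle : ∀ F : M2, h (F.mulVec (Pi.single 0 1)) + (Q + k • detQ) F ≤ Wf Q f F := by
    intro F
    have e : (Q + k • detQ) F = Q F + k * F.det := by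
      simp [detQ_apply]
    have h4 := h1 (fun i => F i 0) F.det (by
      by_cases hc : (fun i => F i 0) = (0 : V2)
      · right
        have a0 : F 0 0 = 0 := congrFun hc 0
        have a1 : F 1 0 = 0 := congrFun hc 1
        rw [det_fin_two, a0, a1]; ring
      · left; exact hc)
    rw [e, col_eq, Wf]
    linarith
  have heq : h (F₀.mulVec (Pi.single 0 1)) + (Q + k • detQ) F₀ = Wf Q f F₀ := by
    have e : (Q + k • detQ) F₀ = Q F₀ + k * F₀.det := by
      simp [detQ_apply]
    rw [e, col_eq, Wf]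
    linarith
  obtain ⟨K, hK⟩ := hK
  rw [← heq]
  refine hq.trans ?_
  refine integral_mono ?_ ?_ fun x => ?_
  · exact Q144.MD.int_grad hTc F₀ hb hK
  · exact Q144.MD.int_grad hW.continuous F₀ hb hK
  · exact hle _

/-- quasiconvexity on a dense set of base points suffices -/
theorem qc_of_line {W : M2 → ℝ} (hW : Continuous W) (F₀ E : M2)
    {Ω : Set (Fin 2 → ℝ)} (hb : Bornology.IsBounded Ω)
    {ϑ : (Fin 2 → ℝ) → (Fin 2 → ℝ)} (hK : ∃ K, LipschitzWith K ϑ)
    (h : ∀ s : ℝ, 0 < s → s < 1 →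
      W (F₀ + s • E) * (volume Ω).toReal ≤ ∫ x in Ω, W (F₀ + s • E + grad ϑ x)) :
    W F₀ * (volume Ω).toReal ≤ ∫ x in Ω, W (F₀ + grad ϑ x) := by
  obtain ⟨K, hK⟩ := hK
  obtain ⟨R, hR⟩ : ∃ R : ℝ, ∀ i j, |E i j| ≤ R :=
    ⟨∑ i, ∑ j, |E i j|, fun i j => (Finset.single_le_sum (f := fun j => |E i j|)
      (fun _ _ => abs_nonneg _) (Finset.mem_univ j)).trans
      (Finset.single_le_sum (f := fun i => ∑ j, |E i j|)
      (fun _ _ => Finset.sum_nonneg fun _ _ => abs_nonneg _) (Finset.mem_univ i))⟩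
  obtain ⟨C, hC⟩ := Pool.Agent.W779.Morrey.W_bound (W := W) hW F₀ (R + K)
  have : IsFiniteMeasure (volume.restrict Ω) :=
    ⟨by rw [Measure.restrict_apply_univ]; exact hb.measure_lt_top⟩
  have hl : Tendsto (fun s : ℝ => ∫ x in Ω, W (F₀ + s • E + grad ϑ x)) (𝓝[>] 0)
      (𝓝 (∫ x in Ω, W (F₀ + grad ϑ x))) := by
    refine tendsto_integral_filter_of_dominated_convergence (fun _ => C) ?_ ?_
      (integrable_const C) ?_
    · refine Eventually.of_forall fun s => ?_
      exact (Q144.MD.int_grad hW (F₀ + s • E) hb hK).aestronglyMeasurable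
    · have h01 : ∀ᶠ s : ℝ in 𝓝[>] 0, s < 1 :=
        nhdsWithin_le_nhds (gt_mem_nhds (by norm_num : (0:ℝ) < 1))
      filter_upwards [self_mem_nhdsWithin, h01] with s hs0 hs1
      refine Eventually.of_forall fun x => ?_
      have hs0' : (0:ℝ) < s := hs0
      have h5 := hC (fun i j => s * E i j + grad ϑ x i j) (fun i j => by
        have h6 : |s * E i j| ≤ R := by
          rw [abs_mul, abs_of_pos hs0']
          have := hR i j
          have h7 := abs_nonneg (E i j)
          nlinarith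
        exact (abs_add_le _ _).trans (add_le_add h6 (grad_bound hK x i j)))
      have e : F₀ + s • E + grad ϑ x
          = F₀ + (Matrix.of fun i j => s * E i j + grad ϑ x i j) := by
        ext i j
        simp only [Matrix.add_apply, Matrix.smul_apply, smul_eq_mul]
        show F₀ i j + s * E i j + grad ϑ x i j = F₀ i j + (s * E i j + grad ϑ x i j)
        ring
      rw [e]
      exact h5
    · refine Eventually.of_forall fun x => ?_
      have hc : Continuous (fun s : ℝ => W (F₀ + s • E + grad ϑ x)) := by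
        have : Continuous (fun s : ℝ => F₀ + s • E + grad ϑ x) := by fun_prop
        exact hW.comp this
      have h8 := hc.tendsto 0
      simp only [zero_smul, add_zero] at h8
      exact h8.mono_left nhdsWithin_le_nhds
  have hl2 : Tendsto (fun s : ℝ => W (F₀ + s • E) * (volume Ω).toReal) (𝓝[>] 0)
      (𝓝 (W F₀ * (volume Ω).toReal)) := by
    have hc : Continuous (fun s : ℝ => W (F₀ + s • E) * (volume Ω).toReal) := by
      have : Continuous (fun s : ℝ => F₀ + s • E) := by fun_prop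
      exact (hW.comp this).mul continuous_const
    have h8 := hc.tendsto 0
    simp only [zero_smul, add_zero] at h8
    exact h8.mono_left nhdsWithin_le_nhds
  refine le_of_tendsto_of_tendsto hl2 hl ?_
  have h01 : ∀ᶠ s : ℝ in 𝓝[>] 0, s < 1 :=
    nhdsWithin_le_nhds (gt_mem_nhds (by norm_num : (0:ℝ) < 1))
  filter_upwards [self_mem_nhdsWithin, h01] with s hs0 hs1
  exact h s hs0 hs1

/-- first column -/
theorem qc_col0 (hW : RankOneConvex (Wf Q f)) : QC (Wf Q f) := by
  intro F₀ Ω hΩ hb ϑ hK h0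
  by_cases hF : (fun i => F₀ i 0) = (0 : V2)
  · refine qc_of_line hW.continuous F₀ (cm ![1, 0] 0) hb hK fun s hs _ => ?_
    refine qc_at hW _ ?_ Ω hΩ hb ϑ hK h0
    intro h
    have a0 : F₀ 0 0 = 0 := congrFun hF 0
    have a1 := congrFun h 0
    simp [cm, a0] at a1
    exact hs.ne' a1
  · exact qc_at hW F₀ hF Ω hΩ hb ϑ hK h0

end Pool.Agent.H190.MQ
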