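import Pool.Agent.H190.MQ3

/-!
# Rank-one convex functions `Q(F) + L(F) + f(F n, det F)` and `Q(F) + L(F) + f(Fᵀ m, det F)` are
quasiconvex
-/

set_option autoImplicit false

open Matrix Set Filter Topology MeasureTheory

namespace Pool.Agent.H190.MQ

open Pool.Agent.Helper188.Morrey

variable {Q : QuadraticForm ℝ M2} {f : V2 → ℝ → ℝ}

theorem lin_expand (L : M2 →ₗ[ℝ] ℝ) (F : M2) :
    L F = F 0 0 * L !![1, 0; 0, 0] + F 0 1 * L !![0, 1; 0, 0] + F 1 0 * L !![0, 0; 1, 0]
      + F 1 1 * L !![0, 0; 0, 1] := by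
  have e : F = F 0 0 • !![1, 0; 0, 0] + F 0 1 • !![0, 1; 0, 0] + F 1 0 • !![0, 0; 1, 0]
      + F 1 1 • !![0, 0; 0, 1] := by
    ext i j; fin_cases i <;> fin_cases j <;> simp
  conv_lhs => rw [e]
  simp only [map_add, map_smul, smul_eq_mul]

theorem lin_cont (L : M2 →ₗ[ℝ] ℝ) : Continuous (fun F : M2 => L F) := by
  have : (fun F : M2 => L F) = fun F => F 0 0 * L !![1, 0; 0, 0] + F 0 1 * L !![0, 1; 0, 0]
      + F 1 0 * L !![0, 0; 1, 0] + F 1 1 * L !![0, 0; 0, 1] := funext (lin_expand L)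
  rw [this]
  fun_prop

/-- the integral of a linear function of the gradient -/
theorem int_lin (L : M2 →ₗ[ℝ] ℝ) {Ω : Set (Fin 2 → ℝ)} (hΩ : IsOpen Ω)
    (hb : Bornology.IsBounded Ω) {ϑ : (Fin 2 → ℝ) → (Fin 2 → ℝ)} {K : NNReal}
    (hK : LipschitzWith K ϑ) (h0 : ∀ x, x ∉ Ω → ϑ x = 0) : ∫ x in Ω, L (grad ϑ x) = 0 := by
  have hi : ∀ i j, IntegrableOn (fun x => grad ϑ x i j) Ω := by
    intro i j
    have hc : Continuous (fun F : M2 => F i j) := by fun_prop
    have := Q144.MD.int_grad hc 0 hb hK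
    simpa using this
  set c : Fin 2 × Fin 2 → ℝ := fun p => L (Matrix.single p.1 p.2 1) with hc
  have e : (fun x => L (grad ϑ x)) = fun x => ∑ p : Fin 2 × Fin 2, grad ϑ x p.1 p.2 * c p := by
    funext x
    have h1 : grad ϑ x = ∑ p : Fin 2 × Fin 2, grad ϑ x p.1 p.2 • Matrix.single p.1 p.2 (1 : ℝ) := by
      ext i j
      rw [Fintype.sum_prod_type]
      fin_cases i <;> fin_cases j <;> simp [Fin.sum_univ_two]
    conv_lhs => rw [h1]
    rw [map_sum]
    simp only [map_smul, smul_eq_mul, hc]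
  rw [e, integral_finsetSum _ fun p _ => (hi p.1 p.2).mul_const (c p)]
  refine Finset.sum_eq_zero fun p _ => ?_
  rw [integral_mul_const, integral_grad hK hΩ hb h0, zero_mul]

theorem qc_add_lin {W : M2 → ℝ} (hWc : Continuous W) (hW : QC W) (L : M2 →ₗ[ℝ] ℝ) :
    QC (fun F => W F + L F) := by
  intro F₀ Ω hΩ hb ϑ hK h0
  have h := hW F₀ Ω hΩ hb ϑ hK h0
  obtain ⟨K, hK⟩ := hK
  have i1 : IntegrableOn (fun x => W (F₀ + grad ϑ x)) Ω := Q144.MD.int_grad hWc F₀ hb hK
  have i2 : IntegrableOn (fun x => L (F₀ + grad ϑ x)) Ω := Q144.MD.int_grad (lin_cont L) F₀ hb hK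
  have i3 : IntegrableOn (fun x => L (grad ϑ x)) Ω := by
    have := Q144.MD.int_grad (lin_cont L) 0 hb hK
    simpa using this
  have e : ∫ x in Ω, (W (F₀ + grad ϑ x) + L (F₀ + grad ϑ x)) =
      (∫ x in Ω, W (F₀ + grad ϑ x)) + L F₀ * (volume Ω).toReal := by
    rw [integral_add i1 i2]
    congr 1
    have : (fun x => L (F₀ + grad ϑ x)) = fun x => L F₀ + L (grad ϑ x) := by
      funext x; rw [map_add]
    have hfin : IsFiniteMeasure (volume.restrict Ω) :=
      ⟨by rw [Measure.restrict_apply_univ]; exact hb.measure_lt_top⟩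
    rw [this, integral_add (integrable_const (L F₀)) i3, int_lin L hΩ hb hK h0,
      add_zero, setIntegral_const, smul_eq_mul]
    simp only [Measure.real]
    ring
  change (W F₀ + L F₀) * (volume Ω).toReal ≤
    ∫ x in Ω, (W (F₀ + grad ϑ x) + L (F₀ + grad ϑ x))
  rw [e, add_mul]
  have h' : W F₀ * (volume Ω).toReal ≤ ∫ x in Ω, W (F₀ + grad ϑ x) := h
  linarith

theorem roc_add_lin {W : M2 → ℝ} (hW : RankOneConvex W) (L : M2 →ₗ[ℝ] ℝ) :
    RankOneConvex (fun F => W F + L F) := by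
  intro F H hH t h0 h1
  have h := hW F H hH t h0 h1
  simp only [map_add, map_smul, smul_eq_mul]
  linarith

/-- the class with a general vector -/
theorem qc_col (n : V2) (Q : QuadraticForm ℝ M2) (f : V2 → ℝ → ℝ)
    (h : RankOneConvex (fun F => Q F + f (F.mulVec n) F.det)) :
    QC (fun F => Q F + f (F.mulVec n) F.det) := by
  by_cases hn : n = 0
  · have e : (fun F : M2 => Q F + f (F.mulVec n) F.det) = Wf Q (fun _ a => f 0 a) := by
      funext F; rw [hn, Matrix.mulVec_zero]; rfl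
    rw [e] at h ⊢
    exact qc_col0 h
  · obtain ⟨R, hR, hRn⟩ := Pool.Agent.Q82.MD.exists_col n hn
    have hu : IsUnit R.det := isUnit_iff_ne_zero.2 hR
    have hRi : (R⁻¹).det ≠ 0 := Pool.Agent.Q82.MD.det_inv_ne hu
    have h1 := Pool.Agent.Q82.MD.roc_lc (W := fun F => Q F + f (F.mulVec n) F.det) h R⁻¹ hRi
    refine Q144.MD.lc _ R⁻¹ hRi ?_
    have e : (fun F : M2 => Q (F * R⁻¹) + f ((F * R⁻¹).mulVec n) (F * R⁻¹).det)
        = Wf (Q.comp (LinearMap.mulRight ℝ (R⁻¹) : M2 →ₗ[ℝ] M2))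
          (fun c a => f c (a * (R⁻¹).det)) := by
      funext F
      have e1 : (F * R⁻¹).mulVec n = fun r => F r 0 := by
        have e2 : n = R.mulVec (Pi.single 0 1) := by
          ext i
          rw [Matrix.mulVec_single_one]
          exact (hRn i).symm
        rw [e2, Matrix.mulVec_mulVec, Matrix.mul_assoc, Matrix.nonsing_inv_mul _ hu, Matrix.mul_one,
          Matrix.mulVec_single_one]
        rfl
      rw [e1, Matrix.det_mul]
      rfl
    change Pool.Agent.Q82.MD.RankOneConvex (fun F : M2 => Q (F * R⁻¹)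
      + f ((F * R⁻¹).mulVec n) (F * R⁻¹).det) at h1
    change QC (fun F : M2 => Q (F * R⁻¹) + f ((F * R⁻¹).mulVec n) (F * R⁻¹).det)
    rw [e] at h1 ⊢
    exact qc_col0 h1

/-! ### rows -/

/-- transposition as a linear map -/
def trL : M2 →ₗ[ℝ] M2 :=
  { toFun := fun F => F.transpose, map_add' := fun _ _ => rfl, map_smul' := fun _ _ => rfl }

/-- functions of the first row -/
def Wr (Q : QuadraticForm ℝ M2) (f : V2 → ℝ → ℝ) (F : M2) : ℝ := Q F + f (F 0) F.det

theorem Wr_tr (F : M2) : Wr Q f F.transpose = Wf (Q.comp trL) f F := by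
  unfold Wr Wf
  rw [Matrix.det_transpose]
  rfl

theorem roc_tr {W : M2 → ℝ} (h : RankOneConvex W) : RankOneConvex (fun F => W F.transpose) := by
  intro F H hH t h0 h1
  have := h F.transpose H.transpose (by rw [Matrix.rank_transpose]; exact hH) t h0 h1
  simpa only [Matrix.transpose_add, Matrix.transpose_smul] using this

theorem row_eq (F : M2) : Matrix.vecMul (Pi.single 0 1) F = F 0 := by
  rw [Matrix.single_one_vecMul]; rfl

theorem qc_at_row (hW : RankOneConvex (Wr Q f)) (F₀ : M2) (hF : F₀ 0 ≠ (0 : V2))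
    (Ω : Set (Fin 2 → ℝ)) (hΩ : IsOpen Ω) (hb : Bornology.IsBounded Ω)
    (ϑ : (Fin 2 → ℝ) → (Fin 2 → ℝ)) (hK : ∃ K, LipschitzWith K ϑ) (h0 : ∀ x, x ∉ Ω → ϑ x = 0) :
    Wr Q f F₀ * (volume Ω).toReal ≤ ∫ x in Ω, Wr Q f (F₀ + grad ϑ x) := by
  have hW' : RankOneConvex (Wf (Q.comp trL) f) := by
    have := roc_tr hW
    have e : (fun F : M2 => Wr Q f F.transpose) = Wf (Q.comp trL) f := funext Wr_tr
    rwa [e] at this
  obtain ⟨h, k, h1, h2, h3⟩ := exists_minorant hW' hF F₀.det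
  have hT := roc_tr (W := fun F => h (F.mulVec (Pi.single 0 1)) + (Q.comp trL + k • detQ) F)
    (T_roc hW' k h3)
  have e : (fun F : M2 => h (F.transpose.mulVec (Pi.single 0 1))
      + (Q.comp trL + k • detQ) F.transpose)
      = fun F => h (Matrix.vecMul (Pi.single 0 1) F) + (Q + k • detQ) F := by
    funext F
    rw [Matrix.mulVec_transpose]
    congr 1
    have : (Q.comp trL + k • detQ) F.transpose = Q F + k * F.det := by
      have h5 : Q.comp trL F.transpose = Q F := by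
        rw [QuadraticMap.comp_apply]
        exact congrArg Q (Matrix.transpose_transpose F)
      rw [_root_.add_apply, h5]
      simp [detQ_apply]
    rw [this]
    simp [detQ_apply]
  change RankOneConvex (fun F : M2 => h (F.transpose.mulVec (Pi.single 0 1))
      + (Q.comp trL + k • detQ) F.transpose) at hT
  rw [e] at hT
  have hq := Pool.Agent.Q82.MD.gen2 Pool.Agent.Q82.MD.hR Q144.MD.tc h (Pi.single 0 1)
    (Q + k • detQ) hT F₀ Ω hΩ hb ϑ hK h0
  have hTc : Continuous (fun F : M2 => h (Matrix.vecMul (Pi.single 0 1) F) + (Q + k • detQ) F) :=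
    RankOneConvex.continuous hT
  have hle : ∀ F : M2, h (Matrix.vecMul (Pi.single 0 1) F) + (Q + k • detQ) F ≤ Wr Q f F := by
    intro F
    have e : (Q + k • detQ) F = Q F + k * F.det := by
      simp [detQ_apply]
    have h4 := h1 (F 0) F.det (by
      by_cases hc : F 0 = (0 : V2)
      · right
        have a0 : F 0 0 = 0 := congrFun hc 0
        have a1 : F 0 1 = 0 := congrFun hc 1
        rw [det_fin_two, a0, a1]; ring
      · left; exact hc)
    rw [e, row_eq, Wr]
    linarith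
  have heq : h (Matrix.vecMul (Pi.single 0 1) F₀) + (Q + k • detQ) F₀ = Wr Q f F₀ := by
    have e : (Q + k • detQ) F₀ = Q F₀ + k * F₀.det := by
      simp [detQ_apply]
    have h5 : h (F₀ 0) + k * F₀.det = f (F₀ 0) F₀.det := h2
    rw [e, row_eq, Wr]
    linarith
  obtain ⟨K, hK⟩ := hK
  rw [← heq]
  refine hq.trans ?_
  refine integral_mono ?_ ?_ fun x => ?_
  · exact Q144.MD.int_grad hTc F₀ hb hK
  · exact Q144.MD.int_grad hW.continuous F₀ hb hK
  · exact hle _

theorem qc_row0 (hW : RankOneConvex (Wr Q f)) : QC (Wr Q f) := by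
  intro F₀ Ω hΩ hb ϑ hK h0
  by_cases hF : F₀ 0 = (0 : V2)
  · refine qc_of_line hW.continuous F₀ (cm ![1, 0] 0) hb hK fun s hs _ => ?_
    refine qc_at_row hW _ ?_ Ω hΩ hb ϑ hK h0
    intro h
    have a0 : F₀ 0 0 = 0 := congrFun hF 0
    have a1 := congrFun h 0
    simp [cm, a0] at a1
    exact hs.ne' a1
  · exact qc_at_row hW F₀ hF Ω hΩ hb ϑ hK h0

theorem qc_row (m : V2) (Q : QuadraticForm ℝ M2) (f : V2 → ℝ → ℝ)
    (h : RankOneConvex (fun F => Q F + f (Matrix.vecMul m F) F.det)) :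
    QC (fun F => Q F + f (Matrix.vecMul m F) F.det) := by
  by_cases hm : m = 0
  · have e : (fun F : M2 => Q F + f (Matrix.vecMul m F) F.det) = Wr Q (fun _ a => f 0 a) := by
      funext F; rw [hm, Matrix.zero_vecMul]; rfl
    rw [e] at h ⊢
    exact qc_row0 h
  · obtain ⟨R0, hR0, hRn0⟩ := Pool.Agent.Q82.MD.exists_col m hm
    set R := R0.transpose with hRdef
    have hR : R.det ≠ 0 := by rw [hRdef, Matrix.det_transpose]; exact hR0
    have hRn : ∀ i, R 0 i = m i := fun i => hRn0 i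
    have hu : IsUnit R.det := isUnit_iff_ne_zero.2 hR
    have hRi : (R⁻¹).det ≠ 0 := Pool.Agent.Q82.MD.det_inv_ne hu
    have h1 := Pool.Agent.Q82.MD.roc_tc
      (W := fun F => Q F + f (Matrix.vecMul m F) F.det) h R⁻¹ hRi
    refine Q144.MD.tc _ R⁻¹ hRi ?_
    have e : (fun F : M2 => Q (R⁻¹ * F) + f (Matrix.vecMul m (R⁻¹ * F)) (R⁻¹ * F).det)
        = Wr (Q.comp (LinearMap.mulLeft ℝ (R⁻¹) : M2 →ₗ[ℝ] M2))
          (fun c a => f c ((R⁻¹).det * a)) := by
      funext F
      have e1 : Matrix.vecMul m (R⁻¹ * F) = F 0 := by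
        have e2 : m = Matrix.vecMul (Pi.single 0 1) R := by
          ext i
          rw [Matrix.single_one_vecMul]
          exact (hRn i).symm
        rw [e2, Matrix.vecMul_vecMul, ← Matrix.mul_assoc, Matrix.mul_nonsing_inv _ hu,
          Matrix.one_mul, Matrix.single_one_vecMul]
        rfl
      rw [e1, Matrix.det_mul]
      rfl
    change Pool.Agent.Q82.MD.RankOneConvex (fun F : M2 => Q (R⁻¹ * F)
      + f (Matrix.vecMul m (R⁻¹ * F)) (R⁻¹ * F).det) at h1
    change QC (fun F : M2 => Q (R⁻¹ * F) + f (Matrix.vecMul m (R⁻¹ * F)) (R⁻¹ * F).det)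
    rw [e] at h1 ⊢
    exact qc_row0 h1

end Pool.Agent.H190.MQ
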