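import Pool.Agent.H190.MQ4

/-!
# Rank-one convex functions `Q(F) + L(F) + f(ℓ(F), det F)`, `ℓ` a linear functional, are polyconvex
-/

set_option autoImplicit false

open Matrix Set Filter Topology MeasureTheory

namespace Pool.Agent.H190.MQ

open Pool.Agent.Helper188.Morrey

/-- the matrix `ξ ⊗ η` -/
def tn (ξ η : V2) : M2 := !![ξ 0 * η 0, ξ 0 * η 1; ξ 1 * η 0, ξ 1 * η 1]

theorem exists_tn {H : M2} (hd : H.det = 0) : ∃ ξ η : V2, H = tn ξ η := by
  rw [det_fin_two] at hd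
  by_cases ha : H 0 0 = 0
  · by_cases hb : H 0 1 = 0
    · refine ⟨![0, 1], ![H 1 0, H 1 1], ?_⟩
      ext i j; fin_cases i <;> fin_cases j <;> simp [tn, ha, hb]
    · have hc : H 1 0 = 0 := by
        have : H 0 1 * H 1 0 = 0 := by rw [ha] at hd; linarith
        rcases mul_eq_zero.1 this with h | h
        · exact absurd h hb
        · exact h
      refine ⟨![1, H 1 1 / H 0 1], ![0, H 0 1], ?_⟩
      ext i j; fin_cases i <;> fin_cases j <;> simp [tn, ha, hb, hc]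
  · refine ⟨![1, H 1 0 / H 0 0], ![H 0 0, H 0 1], ?_⟩
    ext i j; fin_cases i <;> fin_cases j <;> simp [tn, ha]
    field_simp
    linarith

/-- coordinates in the basis `ξ ⊗ η, ξ ⊗ η', ξ' ⊗ η, ξ' ⊗ η'` -/
def co (ξ η : V2) (a b c e : ℝ) : M2 :=
  a • tn ξ η + b • tn ξ (rot η) + c • tn (rot ξ) η + e • tn (rot ξ) (rot η)

theorem det_co (ξ η : V2) (a b c e : ℝ) : (co ξ η a b c e).det =
    (a * e - b * c) * ((ξ 0 ^ 2 + ξ 1 ^ 2) * (η 0 ^ 2 + η 1 ^ 2)) := by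
  simp [co, tn, rot, det_fin_two]
  ring

theorem co_add (ξ η : V2) (a b c e : ℝ) : co ξ η a b c e + tn ξ η = co ξ η (a + 1) b c e := by
  simp only [co]
  module

theorem l_co (l : M2 →ₗ[ℝ] ℝ) (ξ η : V2) (a b c e : ℝ) : l (co ξ η a b c e) =
    a * l (tn ξ η) + b * l (tn ξ (rot η)) + c * l (tn (rot ξ) η) + e * l (tn (rot ξ) (rot η)) := by
  simp only [co, map_add, map_smul, smul_eq_mul]

theorem ne_of_l {l : M2 →ₗ[ℝ] ℝ} {ξ η : V2} (h : l (tn ξ η) ≠ 0) :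
    0 < (ξ 0 ^ 2 + ξ 1 ^ 2) * (η 0 ^ 2 + η 1 ^ 2) := by
  refine mul_pos (nsq_pos ?_) (nsq_pos ?_)
  · rintro rfl
    apply h
    have : tn 0 η = 0 := by ext i j; fin_cases i <;> fin_cases j <;> simp [tn]
    rw [this, map_zero]
  · rintro rfl
    apply h
    have : tn ξ 0 = 0 := by ext i j; fin_cases i <;> fin_cases j <;> simp [tn]
    rw [this, map_zero]

theorem solveL {l : M2 →ₗ[ℝ] ℝ} {H : M2} (hd : H.det = 0) (hH : l H ≠ 0) (x a b : ℝ) :
    ∃ F : M2, l F = x ∧ F.det = a ∧ (F + H).det = b := by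
  obtain ⟨ξ, η, rfl⟩ := exists_tn hd
  have hN := ne_of_l hH
  set N := (ξ 0 ^ 2 + ξ 1 ^ 2) * (η 0 ^ 2 + η 1 ^ 2) with hNdef
  set l1 := l (tn ξ η) with hl1
  set l2 := l (tn ξ (rot η)) with hl2
  set l3 := l (tn (rot ξ) η) with hl3
  set l4 := l (tn (rot ξ) (rot η)) with hl4
  set e := (b - a) / N with he
  have heN : e * N = b - a := by rw [he, div_mul_cancel₀ _ hN.ne']
  set B := 1 - l3 * e / l1 with hB
  set C := ((x - e * l4) * e / l1 - a / N + l2 * l3 * e ^ 2 / l1 ^ 2) - l2 * e / l1 with hC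
  set A := (x - B * l2 - C * l3 - e * l4) / l1 with hA
  have hkey : (A * e - B * C) * N = a := by
    have : A * e - B * C = a / N := by
      rw [hA, hC, hB]
      field_simp
      ring
    rw [this, div_mul_cancel₀ _ hN.ne']
  refine ⟨co ξ η A B C e, ?_, ?_, ?_⟩
  · rw [l_co, ← hl1, ← hl2, ← hl3, ← hl4, hA]
    field_simp
    ring
  · rw [det_co]; exact hkey
  · rw [co_add, det_co]
    have : ((A + 1) * e - B * C) * N = (A * e - B * C) * N + e * N := by ring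
    rw [← hNdef, this, hkey, heN]; ring

theorem exists_curve {l : M2 →ₗ[ℝ] ℝ} {H : M2} (hd : H.det = 0) (hH : l H ≠ 0) (a : ℝ) :
    ∃ G : ℝ → M2, Continuous G ∧ ∀ x, l (G x) = x ∧ (G x).det = a := by
  obtain ⟨ξ, η, rfl⟩ := exists_tn hd
  have hN := ne_of_l hH
  set N := (ξ 0 ^ 2 + ξ 1 ^ 2) * (η 0 ^ 2 + η 1 ^ 2) with hNdef
  refine ⟨fun x => co ξ η ((x - l (tn ξ (rot η)) + a / N * l (tn (rot ξ) η)) / l (tn ξ η)) 1
    (-(a / N)) 0, ?_, fun x => ⟨?_, ?_⟩⟩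
  · simp only [co]
    fun_prop
  · rw [l_co]
    field_simp
    ring
  · rw [det_co, ← hNdef]
    field_simp
    ring

variable {Q : QuadraticForm ℝ M2} {f : ℝ → ℝ → ℝ} {l : M2 →ₗ[ℝ] ℝ}

/-- the class -/
def Wl (Q : QuadraticForm ℝ M2) (l : M2 →ₗ[ℝ] ℝ) (f : ℝ → ℝ → ℝ) (F : M2) : ℝ :=
  Q F + f (l F) F.det

theorem PL (hW : RankOneConvex (Wl Q l f)) {H : M2} (hd : H.det = 0) (hH : l H ≠ 0) (x a b : ℝ)
    {t : ℝ} (h0 : 0 ≤ t) (h1 : t ≤ 1) :
    f (x + t * l H) ((1 - t) * a + t * b) ≤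
      (1 - t) * f x a + t * f (x + l H) b + t * (1 - t) * Q H := by
  obtain ⟨F, hF1, hF2, hF3⟩ := solveL hd hH x a b
  have hs := hW.seg F H hd h0 h1
  have hq := quad_seg Q F H t
  have hdet := quad_seg detQ F H t
  simp only [detQ_apply, hd, mul_zero, hF2, hF3] at hdet
  have hdet' : (F + t • H).det = (1 - t) * a + t * b := by linarith
  simp only [Wl, hdet', hF2, hF3, map_add, map_smul, smul_eq_mul, hF1] at hs
  linarith

theorem exists_H (hl : l ≠ 0) : ∃ H : M2, H.det = 0 ∧ l H ≠ 0 := by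
  by_contra hcon
  push Not at hcon
  apply hl
  refine LinearMap.ext fun F => ?_
  rw [lin_expand l F, hcon !![1, 0; 0, 0] (by simp), hcon !![0, 1; 0, 0] (by simp),
    hcon !![0, 0; 1, 0] (by simp), hcon !![0, 0; 0, 1] (by simp)]
  simp

/-- the best constant -/
noncomputable def q1 (Q : QuadraticForm ℝ M2) (l : M2 →ₗ[ℝ] ℝ) : ℝ :=
  sInf {y | ∃ H : M2, H.det = 0 ∧ l H = 1 ∧ y = Q H}

theorem scale_H {H : M2} (hd : H.det = 0) (hH : l H ≠ 0) :
    ((l H)⁻¹ • H).det = 0 ∧ l ((l H)⁻¹ • H) = 1 ∧ Q H = (l H) ^ 2 * Q ((l H)⁻¹ • H) := by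
  refine ⟨by rw [det_smul, hd, mul_zero], by rw [map_smul, smul_eq_mul, inv_mul_cancel₀ hH], ?_⟩
  rw [QuadraticMap.map_smul, smul_eq_mul]
  field_simp

theorem q1_bdd (hW : RankOneConvex (Wl Q l f)) :
    BddBelow {y | ∃ H : M2, H.det = 0 ∧ l H = 1 ∧ y = Q H} := by
  refine ⟨4 * f (1 / 2) 0 - 2 * f 0 0 - 2 * f 1 0, ?_⟩
  rintro y ⟨H, hd, hH, rfl⟩
  have h := PL hW hd (by rw [hH]; norm_num) 0 0 0 (t := 1 / 2) (by norm_num) (by norm_num)
  rw [hH] at h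
  simp only [zero_add, mul_zero, mul_one] at h
  linarith

theorem q1_nonempty (hl : l ≠ 0) : {y | ∃ H : M2, H.det = 0 ∧ l H = 1 ∧ y = Q H}.Nonempty := by
  obtain ⟨H, hd, hH⟩ := exists_H hl
  obtain ⟨h1, h2, -⟩ := scale_H (Q := Q) hd hH
  exact ⟨_, _, h1, h2, rfl⟩

theorem q1_le (hW : RankOneConvex (Wl Q l f)) {H : M2} (hd : H.det = 0) :
    q1 Q l * (l H) ^ 2 ≤ Q H := by
  by_cases hH : l H = 0
  · have h := hW.seg 0 H hd (t := 1 / 2) (by norm_num) (by norm_num)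
    have d0 : (0 : M2).det = 0 := by simp
    have d1 : ((1 / 2 : ℝ) • H).det = 0 := by rw [det_smul, hd, mul_zero]
    have e : Q (0 : M2) = 0 := QuadraticMap.map_zero Q
    have e2 : Q ((1 / 2 : ℝ) • H) = 1 / 4 * Q H := by
      rw [QuadraticMap.map_smul, smul_eq_mul]; ring
    simp only [zero_add, Wl, map_smul, hH, hd, d1, smul_zero, d0, map_zero, e, e2] at h
    rw [hH]
    linarith
  · obtain ⟨h1, h2, h3⟩ := scale_H (Q := Q) hd hH
    rw [h3]
    have h4 : q1 Q l ≤ Q ((l H)⁻¹ • H) := csInf_le (q1_bdd hW) ⟨_, h1, h2, rfl⟩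
    nlinarith [sq_nonneg (l H)]

/-- joint convexity on non-vertical segments -/
theorem joint1 (hW : RankOneConvex (Wl Q l f)) (hl : l ≠ 0) {x1 x2 : ℝ} (hx : x1 ≠ x2) (a b : ℝ)
    {t : ℝ} (h0 : 0 ≤ t) (h1 : t ≤ 1) :
    f (x1 + t * (x2 - x1)) ((1 - t) * a + t * b) ≤
      (1 - t) * f x1 a + t * f x2 b + t * (1 - t) * (q1 Q l * (x2 - x1) ^ 2) := by
  refine le_of_forall_pos_le_add fun ε hε => ?_
  have hx' : x2 - x1 ≠ 0 := sub_ne_zero.2 (Ne.symm hx)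
  have hs : 0 < (x2 - x1) ^ 2 := by positivity
  obtain ⟨y, ⟨H, hd, hH, rfl⟩, hy⟩ := exists_lt_of_csInf_lt (q1_nonempty (Q := Q) hl)
    (show sInf _ < q1 Q l + ε / (x2 - x1) ^ 2 by
      have : 0 < ε / (x2 - x1) ^ 2 := by positivity
      unfold q1; linarith)
  have hd' : ((x2 - x1) • H).det = 0 := by rw [det_smul, hd, mul_zero]
  have hl' : l ((x2 - x1) • H) = x2 - x1 := by rw [map_smul, smul_eq_mul, hH, mul_one]
  have h := PL hW hd' (by rw [hl']; exact hx') x1 a b h0 h1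
  rw [hl', QuadraticMap.map_smul, smul_eq_mul] at h
  have e : x1 + (x2 - x1) = x2 := by ring
  rw [e] at h
  have h5 : (x2 - x1) * (x2 - x1) * Q H ≤ q1 Q l * (x2 - x1) ^ 2 + ε := by
    have h6 : (x2 - x1) ^ 2 * Q H ≤ (x2 - x1) ^ 2 * (q1 Q l + ε / (x2 - x1) ^ 2) :=
      mul_le_mul_of_nonneg_left hy.le hs.le
    have h7 : (x2 - x1) ^ 2 * (q1 Q l + ε / (x2 - x1) ^ 2) = q1 Q l * (x2 - x1) ^ 2 + ε := by
      field_simp
    have h8 : (x2 - x1) * (x2 - x1) * Q H = (x2 - x1) ^ 2 * Q H := by ring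
    rw [h8]; linarith
  have h9 : t * (1 - t) ≤ 1 := by nlinarith
  have h10 : 0 ≤ t * (1 - t) := mul_nonneg h0 (by linarith)
  have h11 : t * (1 - t) * ((x2 - x1) * (x2 - x1) * Q H)
      ≤ t * (1 - t) * (q1 Q l * (x2 - x1) ^ 2 + ε) := mul_le_mul_of_nonneg_left h5 h10
  have h12 : t * (1 - t) * ε ≤ ε := by nlinarith
  linarith

theorem fl_cont (hW : RankOneConvex (Wl Q l f)) (hl : l ≠ 0) (a : ℝ) :
    Continuous (fun x => f x a) := by
  obtain ⟨H, hd, hH⟩ := exists_H hl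
  obtain ⟨G, hG, hG2⟩ := exists_curve hd hH a
  have e : (fun x => f x a) = fun x => Wl Q l f (G x) - Q (G x) := by
    funext x
    simp only [Wl, (hG2 x).1, (hG2 x).2]
    ring
  rw [e]
  exact (hW.continuous.comp hG).sub ((quad_cont Q).comp hG)

/-- joint convexity -/
theorem joint (hW : RankOneConvex (Wl Q l f)) (hl : l ≠ 0) (x1 x2 a b : ℝ)
    {t : ℝ} (h0 : 0 ≤ t) (h1 : t ≤ 1) :
    f (x1 + t * (x2 - x1)) ((1 - t) * a + t * b) ≤
      (1 - t) * f x1 a + t * f x2 b + t * (1 - t) * (q1 Q l * (x2 - x1) ^ 2) := by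
  by_cases hx : x1 = x2
  swap
  · exact joint1 hW hl hx a b h0 h1
  subst hx
  have key : ∀ s : ℝ, s ≠ 0 → f x1 ((1 - t) * a + t * b) ≤
      (1 - t) * f (x1 - t * s) a + t * f (x1 + (1 - t) * s) b
        + t * (1 - t) * (q1 Q l * s ^ 2) := by
    intro s hs
    have h := joint1 hW hl (x1 := x1 - t * s) (x2 := x1 + (1 - t) * s)
      (fun h => hs (by linarith)) a b h0 h1
    have e1 : x1 + (1 - t) * s - (x1 - t * s) = s := by ring
    rw [e1] at h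
    have e2 : x1 - t * s + t * s = x1 := by ring
    rwa [e2] at h
  have hc : Continuous (fun s : ℝ => (1 - t) * f (x1 - t * s) a + t * f (x1 + (1 - t) * s) b
        + t * (1 - t) * (q1 Q l * s ^ 2)) := by
    have c1 : Continuous (fun s : ℝ => f (x1 - t * s) a) :=
      (fl_cont hW hl a).comp (by fun_prop : Continuous fun s : ℝ => x1 - t * s)
    have c2 : Continuous (fun s : ℝ => f (x1 + (1 - t) * s) b) :=
      (fl_cont hW hl b).comp (by fun_prop : Continuous fun s : ℝ => x1 + (1 - t) * s)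
    exact ((continuous_const.mul c1).add (continuous_const.mul c2)).add (by fun_prop)
  have hl2 := (hc.tendsto 0).mono_left (nhdsWithin_le_nhds (s := {0}ᶜ))
  have h2 := ge_of_tendsto hl2 (b := f x1 ((1 - t) * a + t * b)) (by
    filter_upwards [self_mem_nhdsWithin] with s hs
    exact key s hs)
  simpa using h2

end Pool.Agent.H190.MQ
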