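import Pool.Agent.H190.MQ5

/-!
# Rank-one convex functions `Q(F) + L(F) + f(ℓ(F), det F)` are polyconvex; polyconvex functions are
quasiconvex
-/

set_option autoImplicit false

open Matrix Set Filter Topology MeasureTheory

namespace Pool.Agent.H190.MQ

open Pool.Agent.Helper188.Morrey

/-- polyconvexity, with a real-valued convex function of the matrix and the determinant -/
def PC (W : M2 → ℝ) : Prop :=
  ∃ P : M2 × ℝ → ℝ, ConvexOn ℝ univ P ∧ ∀ F, W F = P (F, F.det)

variable {Q : QuadraticForm ℝ M2} {f : ℝ → ℝ → ℝ} {l : M2 →ₗ[ℝ] ℝ}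

theorem exists_mult (Q' : QuadraticForm ℝ M2) (h : ∀ H : M2, H.det = 0 → 0 ≤ Q' H) :
    ∃ c : ℝ, ∀ F : M2, 0 ≤ Q' F + c * F.det := by
  obtain ⟨q, hq, hqQ⟩ := Pool.Agent.Q82.MD.exists_bil Q'
  obtain ⟨δ, hδ, hδQ⟩ := Pool.Agent.Q82.MD.exists_bil detQ
  have hδ' : ∀ F : M2, δ F F = F.det := fun F => (hδQ F).trans (detQ_apply F)
  obtain ⟨c, hc⟩ := Pool.Agent.Q176.MD.slem _ q δ hq hδ
    ⟨(!![1, 0; 0, 1] : M2), by rw [hδ']; simp [det_fin_two]⟩
    ⟨(!![1, 0; 0, -1] : M2), by rw [hδ']; simp [det_fin_two]⟩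
    (fun x hx => by
      have h1 : Matrix.det (x : M2) = 0 := (hδ' x).symm.trans hx
      have h2 := h x h1
      rw [hqQ]
      exact h2)
  refine ⟨c, fun F => ?_⟩
  have h3 := hc F
  rw [hδ' F, hqQ F] at h3
  exact h3

theorem pc_of_roc_ne (hW : RankOneConvex (Wl Q l f)) (hl : l ≠ 0) (L : M2 →ₗ[ℝ] ℝ) :
    PC (fun F => Wl Q l f F + L F) := by
  set Q' : QuadraticForm ℝ M2 := Q - q1 Q l • QuadraticMap.linMulLin l l with hQ'
  have hQ'a : ∀ F : M2, Q' F = Q F - q1 Q l * (l F) ^ 2 := by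
    intro F
    have : Q' F = Q F - q1 Q l * (l F * l F) := rfl
    rw [this]; ring
  obtain ⟨c, hc⟩ := exists_mult Q' (fun H hd => by
    rw [hQ'a]; linarith [q1_le hW hd])
  have hQ'' : ∀ F : M2, 0 ≤ (Q' + c • detQ) F := by
    intro F
    have e : (Q' + c • detQ) F = Q' F + c * F.det := by simp [detQ_apply]
    rw [e]; exact hc F
  refine ⟨fun p => (Q' + c • detQ) p.1 - c * p.2 + (f (l p.1) p.2 + q1 Q l * (l p.1) ^ 2) + L p.1,
    ?_, ?_⟩
  · refine ⟨convex_univ, fun x _ y _ a b ha hb hab => ?_⟩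
    have ha' : a = 1 - b := by linarith
    subst ha'
    have hq := quad_seg (Q' + c • detQ) x.1 (y.1 - x.1) b
    have e1 : x.1 + (y.1 - x.1) = y.1 := by abel
    have e2 : x.1 + b • (y.1 - x.1) = (1 - b) • x.1 + b • y.1 := by module
    rw [e1, e2] at hq
    have hn := hQ'' (y.1 - x.1)
    have hj := joint hW hl (l x.1) (l y.1) x.2 y.2 hb (by linarith)
    have h10 : 0 ≤ b * (1 - b) := mul_nonneg hb (by linarith)
    have h11 : 0 ≤ b * (1 - b) * (Q' + c • detQ) (y.1 - x.1) := mul_nonneg h10 hn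
    simp only [Prod.fst_add, Prod.smul_fst, Prod.snd_add, Prod.smul_snd, map_add, map_smul,
      smul_eq_mul]
    have e3 : l x.1 + b * (l y.1 - l x.1) = (1 - b) * l x.1 + b * l y.1 := by ring
    rw [e3] at hj
    nlinarith
  · intro F
    have e : (Q' + c • detQ) F = Q' F + c * F.det := by simp [detQ_apply]
    simp only [Wl, e, hQ'a]
    ring

theorem pc_of_roc (Q : QuadraticForm ℝ M2) (L l : M2 →ₗ[ℝ] ℝ) (f : ℝ → ℝ → ℝ)
    (hW : RankOneConvex (fun F => Q F + L F + f (l F) F.det)) :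
    PC (fun F => Q F + L F + f (l F) F.det) := by
  have h1 : RankOneConvex (Wl Q l f) := by
    have := roc_add_lin hW (-L)
    have e : (fun F : M2 => Q F + L F + f (l F) F.det + (-L) F) = Wl Q l f := by
      funext F; simp only [Wl, LinearMap.neg_apply]; ring
    rwa [e] at this
  have e : (fun F : M2 => Q F + L F + f (l F) F.det) = fun F => Wl Q l f F + L F := by
    funext F; simp only [Wl]; ring
  rw [e]
  by_cases hl : l = 0
  · subst hl
    have e2 : Wl Q (0 : M2 →ₗ[ℝ] ℝ) f = Wl Q (ent 0 0) (fun _ a => f 0 a) := by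
      funext F; rfl
    rw [e2] at h1 ⊢
    refine pc_of_roc_ne h1 ?_ L
    intro h
    have h2 : (1 : ℝ) = 0 := LinearMap.congr_fun h (!![1, 0; 0, 0] : M2)
    exact one_ne_zero h2
  · exact pc_of_roc_ne h1 hl L

/-- affine functions of the matrix and the determinant -/
theorem qc_affine (L : M2 →ₗ[ℝ] ℝ) (k c : ℝ) : QC (fun F => c + k * F.det + L F) := by
  have hr : Pool.Agent.Q82.MD.RankOneConvex
      (fun F => (fun _ : V2 => c) (F.mulVec 0) + (k • detQ) F) := by
    intro F H hH t h0 h1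
    have hd := det_eq_zero_of_rank hH.le
    have hq := quad_seg (k • detQ) F H t
    have e0 : (k • detQ) H = 0 := by simp [detQ_apply, hd]
    rw [e0, mul_zero] at hq
    rw [seg_eq]
    dsimp only
    linarith
  have hq := Pool.Agent.Q82.MD.gen1 Pool.Agent.Q82.MD.hC Q144.MD.lc (fun _ : V2 => c) 0
    (k • detQ) hr
  have e : (fun F : M2 => (fun _ : V2 => c) (F.mulVec 0) + (k • detQ) F)
      = fun F => c + k * F.det := by
    funext F; simp [detQ_apply]
  rw [e] at hq
  refine qc_add_lin ?_ hq L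
  have : Continuous (fun F : M2 => F.det) := by fun_prop
  fun_prop

/-- polyconvex functions are quasiconvex -/
theorem qc_of_pc {W : M2 → ℝ} (hW : PC W) : QC W := by
  obtain ⟨P, hP, hPW⟩ := hW
  let i : M2 → (Fin 2 → Fin 2 → ℝ) × ℝ := fun F => (F, Matrix.det F)
  let P' : (Fin 2 → Fin 2 → ℝ) × ℝ → ℝ := P
  have hP' : ConvexOn ℝ univ P' := hP
  have hPc : Continuous P' := continuousOn_univ.1 (hP'.continuousOn isOpen_univ)
  have hWc : Continuous W := by
    have e : W = fun F => P' (i F) := funext hPW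
    rw [e]
    have h1 : Continuous i := by
      have : Continuous (fun F : M2 => F.det) := by fun_prop
      exact Continuous.prodMk continuous_id this
    exact hPc.comp h1
  intro F₀ Ω hΩ hb ϑ hK h0
  have key : ∀ a : ℝ, a < W F₀ → a * (volume Ω).toReal ≤ ∫ x in Ω, W (F₀ + grad ϑ x) := by
    intro a ha
    rw [hPW F₀] at ha
    obtain ⟨m, c, h1, h2⟩ := hP'.exists_affine_le_of_lt (𝕜 := ℝ) (x := i F₀)
      (mem_univ _) ha isClosed_univ (hPc.lowerSemicontinuous.lowerSemicontinuousOn _)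
    let L : M2 →ₗ[ℝ] ℝ := (m : (Fin 2 → Fin 2 → ℝ) × ℝ →ₗ[ℝ] ℝ).comp
      (LinearMap.inl ℝ (Fin 2 → Fin 2 → ℝ) ℝ)
    have hm0 : ∀ (F : Fin 2 → Fin 2 → ℝ) (d : ℝ), m (F, d) = m (F, 0) + m (0, 1) * d := by
      intro F d
      have e : ((F, d) : (Fin 2 → Fin 2 → ℝ) × ℝ) = (F, 0) + d • (0, 1) := by
        simp
      rw [e, map_add, map_smul, smul_eq_mul, mul_comm]
    have hm : ∀ F : M2, m (i F) = L F + m (0, 1) * F.det := fun F => hm0 F F.det
    have hle : ∀ F : M2, c + m (0, 1) * F.det + L F ≤ W F := by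
      intro F
      have h3 : m (i F) + c ≤ P (F, F.det) := h1 ⟨i F, mem_univ _⟩
      rw [hm] at h3
      rw [hPW F]
      linarith
    have heq : c + m (0, 1) * F₀.det + L F₀ = a := by
      have h3 : m (i F₀) + c = a := h2
      rw [hm] at h3
      linarith
    have hq := qc_affine L (m (0, 1)) c F₀ Ω hΩ hb ϑ hK h0
    obtain ⟨K, hK⟩ := hK
    simp only [heq] at hq
    refine hq.trans ?_
    refine integral_mono ?_ ?_ fun x => ?_
    · refine Q144.MD.int_grad (W := fun F => c + m (0, 1) * F.det + L F) ?_ F₀ hb hK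
      have : Continuous (fun F : M2 => F.det) := by fun_prop
      exact (continuous_const.add (continuous_const.mul this)).add (lin_cont L)
    · exact Q144.MD.int_grad hWc F₀ hb hK
    · exact hle _
  have hv : 0 ≤ (volume Ω).toReal := ENNReal.toReal_nonneg
  change W F₀ * (volume Ω).toReal ≤ ∫ x in Ω, W (F₀ + grad ϑ x)
  refine le_of_forall_pos_le_add fun ε hε => ?_
  have h := key (W F₀ - ε / ((volume Ω).toReal + 1)) (by
    have : 0 < ε / ((volume Ω).toReal + 1) := by positivity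
    linarith)
  have h5 : ε / ((volume Ω).toReal + 1) * (volume Ω).toReal ≤ ε := by
    rw [div_mul_eq_mul_div, div_le_iff₀ (by positivity)]
    nlinarith
  nlinarith

end Pool.Agent.H190.MQ
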