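import Pool.Agent.H190.MQ6

/-!
# Rank-one convex functions `L(F) + f(F n, det F)` are polyconvex
-/

set_option autoImplicit false

open Matrix Set Filter Topology MeasureTheory

namespace Pool.Agent.H190.MQ

open Pool.Agent.Helper188.Morrey

theorem pc_add_lin {W : M2 → ℝ} (hW : PC W) (L : M2 →ₗ[ℝ] ℝ) : PC (fun F => W F + L F) := by
  obtain ⟨P, hP, hPW⟩ := hW
  refine ⟨fun p => P p + L p.1, hP.add ⟨convex_univ, fun x _ y _ a b _ _ _ => ?_⟩, fun F => ?_⟩
  · simp only [Prod.fst_add, Prod.smul_fst, map_add, map_smul, smul_eq_mul]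
    exact le_refl _
  · simp only [hPW F]

/-- continuity of a convex function at `(F, det F)` -/
theorem pc_cont {P : M2 × ℝ → ℝ} (hP : ConvexOn ℝ univ P) :
    Continuous (fun F : M2 => P (F, F.det)) := by
  let i : M2 → (Fin 2 → Fin 2 → ℝ) × ℝ := fun F => (F, Matrix.det F)
  let P' : (Fin 2 → Fin 2 → ℝ) × ℝ → ℝ := P
  have hP' : ConvexOn ℝ univ P' := hP
  have hPc : Continuous P' := continuousOn_univ.1 (hP'.continuousOn isOpen_univ)
  have h1 : Continuous i := by
    have : Continuous (fun F : M2 => F.det) := by fun_prop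
    exact Continuous.prodMk continuous_id this
  exact hPc.comp h1

variable {f : V2 → ℝ → ℝ}

theorem pc_col0 (hW : RankOneConvex (Wf 0 f)) : PC (Wf 0 f) := by
  have hch : ∀ i : {p : V2 × ℝ // p.1 ≠ 0}, ∃ (h : V2 → ℝ) (k : ℝ),
      (∀ c a, (c ≠ 0 ∨ a = 0) → h c + k * a ≤ f c a) ∧ h i.1.1 + k * i.1.2 = f i.1.1 i.1.2 ∧
      ∀ (c1 c2 : V2) (t : ℝ), 0 ≤ t → t ≤ 1 →
        h (c1 + t • (c2 - c1)) ≤ (1 - t) * h c1 + t * h c2 := by
    intro i
    obtain ⟨h, k, h1, h2, h3⟩ := exists_minorant hW i.2 i.1.2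
    refine ⟨h, k, h1, h2, fun c1 c2 t h0 h1 => ?_⟩
    have := h3 c1 c2 0 t h0 h1
    simpa using this
  choose h k h1 h2 h3 using hch
  have : Nonempty {p : V2 × ℝ // p.1 ≠ 0} :=
    ⟨⟨(![1, 0], 0), fun h => one_ne_zero (congrFun h 0)⟩⟩
  have hbd : ∀ (c : V2) (a : ℝ), BddAbove (range fun i => h i c + k i * a) := by
    intro c a
    by_cases hc : c = 0
    · subst hc
      refine ⟨1 / 2 * f ![1, 0] a + 1 / 2 * f (-![1, 0]) a, ?_⟩
      rintro _ ⟨i, rfl⟩
      have hne : (![1, 0] : V2) ≠ 0 := fun h => one_ne_zero (congrFun h 0)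
      have e1 := h1 i ![1, 0] a (Or.inl hne)
      have e2 := h1 i (-![1, 0]) a (Or.inl (neg_ne_zero.2 hne))
      have e3 := h3 i ![1, 0] (-![1, 0]) (1 / 2) (by norm_num) (by norm_num)
      have e4 : (![1, 0] : V2) + (1 / 2 : ℝ) • (-![1, 0] - ![1, 0]) = 0 := by
        ext j; fin_cases j <;> norm_num
      rw [e4] at e3
      simp only
      linarith
    · refine ⟨f c a, ?_⟩
      rintro _ ⟨i, rfl⟩
      exact h1 i c a (Or.inl hc)
  let P : M2 × ℝ → ℝ := fun p => ⨆ i, (h i (fun r => p.1 r 0) + k i * p.2)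
  have hP : ConvexOn ℝ univ P := by
    refine ⟨convex_univ, fun x _ y _ a b ha hb hab => ?_⟩
    refine ciSup_le fun i => ?_
    have ha' : a = 1 - b := by linarith
    have hx : h i (fun r => x.1 r 0) + k i * x.2 ≤ P x := le_ciSup (hbd _ x.2) i
    have hy : h i (fun r => y.1 r 0) + k i * y.2 ≤ P y := le_ciSup (hbd _ y.2) i
    have e := h3 i (fun r => x.1 r 0) (fun r => y.1 r 0) b hb (by linarith)
    have e1 : (fun r => (a • x + b • y).1 r 0)
        = (fun r => x.1 r 0) + b • ((fun r => y.1 r 0) - (fun r => x.1 r 0)) := by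
      rw [ha']
      funext r
      simp only [Prod.fst_add, Prod.smul_fst, Matrix.add_apply, Matrix.smul_apply, smul_eq_mul,
        Pi.add_apply, Pi.smul_apply, Pi.sub_apply]
      ring
    have e2 : (a • x + b • y).2 = a * x.2 + b * y.2 := rfl
    rw [e1, e2]
    simp only [smul_eq_mul]
    have hx' := mul_le_mul_of_nonneg_left hx ha
    have hy' := mul_le_mul_of_nonneg_left hy hb
    rw [ha'] at hx' ⊢
    nlinarith
  have hne : ∀ F : M2, (fun r => F r 0) ≠ (0 : V2) → Wf 0 f F = P (F, F.det) := by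
    intro F hF
    have e : Wf 0 f F = f (fun r => F r 0) F.det := by simp [Wf]
    rw [e]
    refine le_antisymm ?_ (ciSup_le fun i => h1 i _ _ (Or.inl hF))
    have h5 : h ⟨((fun r => F r 0), F.det), hF⟩ (fun r => F r 0)
        + k ⟨((fun r => F r 0), F.det), hF⟩ * F.det ≤ P (F, F.det) := le_ciSup (hbd _ _) _
    have h6 := h2 ⟨((fun r => F r 0), F.det), hF⟩
    simp only at h6
    linarith
  refine ⟨P, hP, fun F => ?_⟩
  by_cases hF : (fun r => F r 0) = (0 : V2)
  · have hc1 : Continuous (fun s : ℝ => Wf 0 f (F + s • cm ![1, 0] 0)) := by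
      have : Continuous (fun s : ℝ => F + s • cm ![1, 0] 0) := by fun_prop
      exact hW.continuous.comp this
    have hc2 : Continuous (fun s : ℝ => P (F + s • cm ![1, 0] 0, (F + s • cm ![1, 0] 0).det)) := by
      have : Continuous (fun s : ℝ => F + s • cm ![1, 0] 0) := by fun_prop
      exact (pc_cont hP).comp this
    have t1 := (hc1.tendsto 0).mono_left (nhdsWithin_le_nhds (s := {0}ᶜ))
    have t2 := (hc2.tendsto 0).mono_left (nhdsWithin_le_nhds (s := {0}ᶜ))
    simp only [zero_smul, add_zero] at t1 t2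
    refine tendsto_nhds_unique_of_eventuallyEq t1 t2 ?_
    filter_upwards [self_mem_nhdsWithin] with s hs
    refine hne _ fun h => ?_
    have a0 : F 0 0 = 0 := congrFun hF 0
    have a1 := congrFun h 0
    simp [cm, a0] at a1
    exact hs a1
  · exact hne F hF

theorem pc_comp {W : M2 → ℝ} (R : M2) (hW : PC W) : PC (fun F => W (F * R)) := by
  obtain ⟨P, hP, hPW⟩ := hW
  let A : M2 × ℝ →ₗ[ℝ] M2 × ℝ :=
    { toFun := fun p => (p.1 * R, p.2 * R.det)
      map_add' := fun x y => by
        ext <;> simp [add_mul]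
      map_smul' := fun a x => by
        ext <;> simp [mul_assoc] }
  refine ⟨P ∘ A, ?_, fun F => ?_⟩
  · have := hP.comp_linearMap A
    simpa using this
  · have h1 : W (F * R) = P (F * R, (F * R).det) := hPW _
    rw [Matrix.det_mul] at h1
    exact h1

theorem pc_comp_left {W : M2 → ℝ} (R : M2) (hW : PC W) : PC (fun F => W (R * F)) := by
  obtain ⟨P, hP, hPW⟩ := hW
  let A : M2 × ℝ →ₗ[ℝ] M2 × ℝ :=
    { toFun := fun p => (R * p.1, R.det * p.2)
      map_add' := fun x y => by
        ext <;> simp [mul_add]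
      map_smul' := fun a x => by
        ext <;> simp [mul_left_comm] }
  refine ⟨P ∘ A, ?_, fun F => ?_⟩
  · have := hP.comp_linearMap A
    simpa using this
  · have h1 : W (R * F) = P (R * F, (R * F).det) := hPW _
    rw [Matrix.det_mul] at h1
    exact h1

theorem pc_tr {W : M2 → ℝ} (hW : PC W) : PC (fun F => W F.transpose) := by
  obtain ⟨P, hP, hPW⟩ := hW
  let A : M2 × ℝ →ₗ[ℝ] M2 × ℝ :=
    { toFun := fun p => (p.1.transpose, p.2)
      map_add' := fun x y => by
        ext <;> simp
      map_smul' := fun a x => by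
        ext <;> simp }
  refine ⟨P ∘ A, ?_, fun F => ?_⟩
  · have := hP.comp_linearMap A
    simpa using this
  · have h1 : W F.transpose = P (F.transpose, F.transpose.det) := hPW _
    rw [Matrix.det_transpose] at h1
    exact h1

theorem pc_col (n : V2) (f : V2 → ℝ → ℝ)
    (h : RankOneConvex (fun F => f (F.mulVec n) F.det)) :
    PC (fun F => f (F.mulVec n) F.det) := by
  by_cases hn : n = 0
  · have e : (fun F : M2 => f (F.mulVec n) F.det) = Wf 0 (fun _ a => f 0 a) := by
      funext F; rw [hn, Matrix.mulVec_zero]; simp [Wf]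
    rw [e] at h ⊢
    exact pc_col0 h
  · obtain ⟨R, hR, hRn⟩ := Pool.Agent.Q82.MD.exists_col n hn
    have hu : IsUnit R.det := isUnit_iff_ne_zero.2 hR
    have hRi : (R⁻¹).det ≠ 0 := Pool.Agent.Q82.MD.det_inv_ne hu
    have h1 := Pool.Agent.Q82.MD.roc_lc (W := fun F => f (F.mulVec n) F.det) h R⁻¹ hRi
    have e : (fun F : M2 => f ((F * R⁻¹).mulVec n) (F * R⁻¹).det)
        = Wf 0 (fun c a => f c (a * (R⁻¹).det)) := by
      funext F
      have e1 : (F * R⁻¹).mulVec n = fun r => F r 0 := by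
        have e2 : n = R.mulVec (Pi.single 0 1) := by
          ext i
          rw [Matrix.mulVec_single_one]
          exact (hRn i).symm
        rw [e2, Matrix.mulVec_mulVec, Matrix.mul_assoc, Matrix.nonsing_inv_mul _ hu, Matrix.mul_one,
          Matrix.mulVec_single_one]
        rfl
      rw [e1, Matrix.det_mul]
      simp [Wf]
    change Pool.Agent.Q82.MD.RankOneConvex (fun F : M2 =>
      f ((F * R⁻¹).mulVec n) (F * R⁻¹).det) at h1
    rw [e] at h1
    have h2 := pc_comp R (pc_col0 h1)
    have e3 : (fun F : M2 => Wf 0 (fun c a => f c (a * (R⁻¹).det)) (F * R))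
        = fun F => f (F.mulVec n) F.det := by
      funext F
      have := congrFun e (F * R)
      rw [← this, Matrix.mul_assoc, Matrix.mul_nonsing_inv _ hu, Matrix.mul_one]
    rwa [e3] at h2

theorem pc_row (m : V2) (f : V2 → ℝ → ℝ)
    (h : RankOneConvex (fun F => f (F.transpose.mulVec m) F.det)) :
    PC (fun F => f (F.transpose.mulVec m) F.det) := by
  have h1 := roc_tr h
  have e : (fun F : M2 => f (F.transpose.transpose.mulVec m) F.transpose.det)
      = fun F => f (F.mulVec m) F.det := by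
    funext F; rw [Matrix.transpose_transpose, Matrix.det_transpose]
  change RankOneConvex (fun F : M2 => f (F.transpose.transpose.mulVec m) F.transpose.det) at h1
  rw [e] at h1
  have h2 := pc_tr (pc_col m f h1)
  have e3 : (fun F : M2 => f (F.transpose.mulVec m) F.transpose.det)
      = fun F => f (F.transpose.mulVec m) F.det := by
    funext F; rw [Matrix.det_transpose]
  change PC (fun F : M2 => f (F.transpose.mulVec m) F.transpose.det) at h2
  rwa [e3] at h2

end Pool.Agent.H190.MQ
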