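import Pool.Agent.H724.WE.SFStm

/-!
# Project WE (helper724), AB12: every vertex is near the core
-/

namespace H190.WE

open Finset H724.WE
open scoped Classical

variable {V ι : Type} [Fintype V] [Fintype ι] (G : SF V ι)

/-- the light darts containing `v` in their far side -/
noncomputable def L (v : V) : Finset (Dart ι) := G.darts.filter (fun d => G.light d ∧ v ∈ G.far d)

/-- the vertices at distance at most `j` from `K` -/
noncomputable def B : ℕ → Finset V
  | 0 => G.K
  | j + 1 => B j ∪ (G.darts.filter (fun f => G.hd f ∈ B j)).image G.tl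

theorem B_mono {j k : ℕ} (h : j ≤ k) : B G j ⊆ B G k := by
  induction h with
  | refl => exact Finset.Subset.refl _
  | step _ ih => exact ih.trans Finset.subset_union_left

/-- the only heavy dart at a vertex outside of `K` -/
theorem step (hfree : ∀ v : V, ∃ z ∈ G.Z, G.C G.E v z) {v : V} (hv : v ∉ G.K) :
    ∃ f : Dart ι, G.val f ∧ G.tl f = v ∧ (L G (G.hd f)).card < (L G v).card := by
  simp only [SF.K, mem_filter, mem_univ, true_and, not_or, not_exists] at hv
  obtain ⟨hvZ, hv2⟩ := hv
  obtain ⟨z, hz, hvz⟩ := hfree v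
  obtain ⟨f, hf, hft, hzf⟩ : ∃ f : Dart ι, G.val f ∧ G.tl f = v ∧ z ∈ G.far f := by
    rcases G.comp_cases hvz with h | h
    · exact absurd (h ▸ hz) hvZ
    · exact h
  have hfh : ¬ G.light f := fun h => h z hzf hz
  have hrev : G.light (rev f) := by
    intro x hx hxZ
    rcases G.far_cases hx with h | ⟨g, hg, hge, hgt, hxg⟩
    · rw [G.hd_rev, hft] at h
      exact hvZ (h ▸ hxZ)
    · have hgh : ¬ G.light g := fun h => h x hxg hxZ
      rw [G.hd_rev, hft] at hgt
      by_cases hgf : g = f
      · apply hge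
        rw [hgf, ed_rev]
      · exact hv2 g f ⟨hg, hf, hgf, hgt, hft, hgh, hfh⟩
  refine ⟨f, hf, hft, ?_⟩
  apply Finset.card_lt_card
  rw [Finset.ssubset_iff_of_subset]
  · refine ⟨rev f, ?_, ?_⟩
    · rw [L, mem_filter, G.mem_darts]
      refine ⟨hf, hrev, ?_⟩
      have := G.hd_mem_far (rev f)
      rwa [G.hd_rev, hft] at this
    · rw [L, mem_filter]
      rintro ⟨-, -, h⟩
      have h2 : G.val (rev f) := hf
      have := G.tl_not_mem_far h2
      rw [G.tl_rev] at this
      exact this h
  · intro g hg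
    rw [L, mem_filter, G.mem_darts] at hg ⊢
    obtain ⟨hgv, hgl, hgf⟩ := hg
    refine ⟨hgv, hgl, ?_⟩
    by_cases he : ed f = ed g
    · exfalso
      rcases eq_or_eq_rev he with h | h
      · rw [h] at hgl
        exact hfh hgl
      · rw [h] at hgf
        have h2 : G.val (rev f) := hf
        have := G.tl_not_mem_far h2
        rw [G.tl_rev] at this
        exact this hgf
    · rw [← hft]
      exact (G.far_closed_iff hf he).2 hgf

theorem mem_B (hfree : ∀ v : V, ∃ z ∈ G.Z, G.C G.E v z) (n : ℕ) :
    ∀ v : V, (L G v).card ≤ n → v ∈ B G n := by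
  induction n with
  | zero =>
    intro v hv
    by_contra h
    obtain ⟨f, -, -, h3⟩ := step G hfree h
    omega
  | succ n ih =>
    intro v hv
    by_cases h : v ∈ G.K
    · exact B_mono G (Nat.zero_le _) h
    · obtain ⟨f, hf, hft, h3⟩ := step G hfree h
      have h4 := ih (G.hd f) (by omega)
      show v ∈ B G n ∪ _
      rw [Finset.mem_union, Finset.mem_image]
      exact Or.inr ⟨f, by rw [mem_filter, G.mem_darts]; exact ⟨hf, h4⟩, hft⟩

theorem card_hd {Nd : ℕ} (hdeg : G.DegLe Nd) (v : V) :
    (G.darts.filter (fun f => G.hd f = v)).card ≤ 2 * Fintype.card ι * Nd := by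
  have h1 : G.darts.filter (fun f => G.hd f = v) ⊆
      ((univ : Finset ι) ×ˢ (univ : Finset Bool)).biUnion (fun a =>
        ((Finset.Ico G.r G.l).filter (fun o => G.pt a.2 a.1 o = v)).image
          (fun o => ((a.1, o, a.2) : Dart ι))) := by
    rintro ⟨i, o, s⟩ hf
    rw [mem_filter, G.mem_darts] at hf
    rw [Finset.mem_biUnion]
    refine ⟨(i, s), by simp, ?_⟩
    rw [Finset.mem_image]
    refine ⟨o, ?_, rfl⟩
    rw [mem_filter, Finset.mem_Ico]
    exact ⟨hf.1, hf.2⟩
  refine (Finset.card_le_card h1).trans ?_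
  refine (Finset.card_biUnion_le_card_mul _ _ Nd ?_).trans ?_
  · rintro ⟨i, s⟩ _
    exact Finset.card_image_le.trans (hdeg s i v)
  · rw [Finset.card_product, Finset.card_univ, Finset.card_univ, Fintype.card_bool, mul_comm 2]

theorem card_B {Nd : ℕ} (hdeg : G.DegLe Nd) (n : ℕ) :
    (B G n).card ≤ (1 + 2 * Fintype.card ι * Nd) ^ n * (G.K).card := by
  induction n with
  | zero => simp [B]
  | succ n ih =>
    have h1 : (B G (n + 1)).card ≤ (B G n).card + (B G n).card * (2 * Fintype.card ι * Nd) := by
      refine (Finset.card_union_le _ _).trans ?_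
      refine Nat.add_le_add_left ?_ _
      refine Finset.card_image_le.trans ?_
      have h2 : G.darts.filter (fun f => G.hd f ∈ B G n) ⊆
          (B G n).biUnion (fun v => G.darts.filter (fun f => G.hd f = v)) := by
        intro f hf
        rw [mem_filter] at hf
        rw [Finset.mem_biUnion]
        exact ⟨G.hd f, hf.2, by rw [mem_filter]; exact ⟨hf.1, rfl⟩⟩
      exact (Finset.card_le_card h2).trans
        (Finset.card_biUnion_le_card_mul _ _ _ fun v _ => card_hd G hdeg v)
    calc (B G (n + 1)).card ≤ (B G n).card + (B G n).card * (2 * Fintype.card ι * Nd) := h1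
      _ = (1 + 2 * Fintype.card ι * Nd) * (B G n).card := by ring
      _ ≤ (1 + 2 * Fintype.card ι * Nd) * ((1 + 2 * Fintype.card ι * Nd) ^ n * (G.K).card) :=
          Nat.mul_le_mul_left _ ih
      _ = _ := by rw [pow_succ]; ring

theorem hair : S_hair := by
  intro V ι _ _ G Nd D hdeg hfree hD
  have h1 : (univ : Finset V) ⊆ B G D := fun v _ => mem_B G hfree D v (hD v)
  have h2 := Finset.card_le_card h1
  rw [Finset.card_univ] at h2
  exact h2.trans (card_B G hdeg D)

end H190.WE
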